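import Mathlib

set_option autoImplicit false

/-!
# Coefficientwise maps, scalar extension of ideals, the step operation
-/

namespace Pool.DKak

open MvPolynomial

section cmap

variable {σ : Type*} {R S T : Type*} [CommRing R] [CommRing S] [CommRing T]

/-- Coefficientwise application of an additive map. -/
noncomputable def cmap (h : R →+ S) (p : MvPolynomial σ R) : MvPolynomial σ S :=
  ∑ s ∈ p.support, monomial s (h (p.coeff s))

@[simp] theorem coeff_cmap (h : R →+ S) (p : MvPolynomial σ R) (s : σ →₀ ℕ) :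
    (cmap h p).coeff s = h (p.coeff s) := by
  classical
  rw [cmap, coeff_sum]
  simp only [coeff_monomial]
  rw [Finset.sum_ite_eq']
  split_ifs with hs
  · rfl
  · rw [notMem_support_iff.mp hs, map_zero]

theorem cmap_add (h : R →+ S) (p q : MvPolynomial σ R) : cmap h (p + q) = cmap h p + cmap h q := by
  ext s; simp

theorem cmap_zero (h : R →+ S) : cmap h (0 : MvPolynomial σ R) = 0 := by
  ext s; simp

theorem cmap_sum {ι : Type*} (h : R →+ S) (t : Finset ι) (f : ι → MvPolynomial σ R) :
    cmap h (∑ i ∈ t, f i) = ∑ i ∈ t, cmap h (f i) := by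
  ext s; simp [coeff_sum]

theorem support_cmap_subset (h : R →+ S) (p : MvPolynomial σ R) :
    (cmap h p).support ⊆ p.support := by
  intro s hs
  rw [mem_support_iff] at hs ⊢
  intro h0
  apply hs
  simp [h0]

theorem cmap_monomial_mul (h : R →+ S) (s : σ →₀ ℕ) (a : R) (p : MvPolynomial σ R) :
    cmap h (monomial s a * p) = monomial s 1 * cmap (h.comp (AddMonoidHom.mulLeft a)) p := by
  classical
  ext t
  rw [coeff_cmap, coeff_monomial_mul', coeff_monomial_mul']
  split_ifs
  · simp
  · simp

/-- Coefficientwise derivative. -/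
noncomputable def cder (D : Derivation ℤ R R) (p : MvPolynomial σ R) : MvPolynomial σ R :=
  cmap (D : R →+ R) p

@[simp] theorem coeff_cder (D : Derivation ℤ R R) (p : MvPolynomial σ R) (s : σ →₀ ℕ) :
    (cder D p).coeff s = D (p.coeff s) := by
  simp [cder]

theorem cder_add (D : Derivation ℤ R R) (p q : MvPolynomial σ R) :
    cder D (p + q) = cder D p + cder D q := cmap_add _ _ _

theorem cder_zero (D : Derivation ℤ R R) : cder D (0 : MvPolynomial σ R) = 0 := cmap_zero _

theorem cder_mul (D : Derivation ℤ R R) (p q : MvPolynomial σ R) :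
    cder D (p * q) = cder D p * q + p * cder D q := by
  classical
  ext s
  rw [coeff_cder, coeff_mul, coeff_add, coeff_mul, coeff_mul, map_sum, ← Finset.sum_add_distrib]
  refine Finset.sum_congr rfl fun x _ => ?_
  rw [Derivation.leibniz, coeff_cder, coeff_cder, smul_eq_mul, smul_eq_mul]
  ring

theorem cder_iter_zero (D : Derivation ℤ R R) (j : ℕ) :
    (cder D)^[j] (0 : MvPolynomial σ R) = 0 := by
  induction j with
  | zero => rfl
  | succ j ih => rw [Function.iterate_succ_apply, cder_zero, ih]

theorem cder_iter_add (D : Derivation ℤ R R) (j : ℕ) (p q : MvPolynomial σ R) :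
    (cder D)^[j] (p + q) = (cder D)^[j] p + (cder D)^[j] q := by
  induction j generalizing p q with
  | zero => rfl
  | succ j ih => rw [Function.iterate_succ_apply, cder_add, ih]; rfl

theorem coeff_cder_iter (D : Derivation ℤ R R) (j : ℕ) (p : MvPolynomial σ R) (s : σ →₀ ℕ) :
    ((cder D)^[j] p).coeff s = D^[j] (p.coeff s) := by
  induction j generalizing p with
  | zero => rfl
  | succ j ih => rw [Function.iterate_succ_apply, ih, coeff_cder]; rfl

theorem cder_iter_mul (D : Derivation ℤ R R) (n : ℕ) (p q : MvPolynomial σ R) :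
    (cder D)^[n] (p * q) = ∑ ij ∈ Finset.HasAntidiagonal.antidiagonal n,
      n.choose ij.1 • ((cder D)^[ij.1] p * (cder D)^[ij.2] q) := by
  induction n with
  | zero => simp
  | succ n ih =>
    have hsum : ∀ (t : Finset (ℕ × ℕ)) (f : ℕ × ℕ → MvPolynomial σ R),
        cder D (∑ i ∈ t, f i) = ∑ i ∈ t, cder D (f i) := fun t f => cmap_sum _ _ _
    have hns : ∀ (k : ℕ) (r : MvPolynomial σ R), cder D (k • r) = k • cder D r := by
      intro k r
      ext s
      rw [coeff_cder, coeff_smul, coeff_smul, coeff_cder, map_nsmul]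
    rw [Finset.sum_antidiagonal_choose_succ_nsmul
      (fun i j => (cder D)^[i] p * (cder D)^[j] q) n, Function.iterate_succ_apply', ih, hsum]
    simp only [hns, cder_mul, smul_add, Finset.sum_add_distrib]
    rw [add_comm]
    congr 1
    · refine Finset.sum_congr rfl fun ij _ => ?_
      rw [Function.iterate_succ_apply']
    · refine Finset.sum_congr rfl fun ij hij => ?_
      rw [n.choose_symm_of_eq_add (Finset.HasAntidiagonal.mem_antidiagonal.1 hij).symm, Function.iterate_succ_apply']

theorem cder_iter_mul_mem (D : Derivation ℤ R R) (I : Ideal (MvPolynomial σ R)) (j : ℕ)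
    (p q : MvPolynomial σ R) (hq : ∀ i ≤ j, (cder D)^[i] q ∈ I) :
    (cder D)^[j] (p * q) ∈ I := by
  rw [cder_iter_mul]
  refine Ideal.sum_mem _ fun ij hij => ?_
  have h2 : ij.2 ≤ j := by
    have := Finset.HasAntidiagonal.mem_antidiagonal.1 hij
    omega
  exact nsmul_mem (Ideal.mul_mem_left _ _ (hq _ h2)) _

end cmap

section ext

variable {σ : Type*} {K Ω : Type*} [Field K] [Field Ω] [Algebra K Ω]

/-- Scalar extension of an ideal of `K[y]` to `Ω[y]`, described through linear functionals. -/
noncomputable def extI (Ω : Type*) [Field Ω] [Algebra K Ω] (G : Ideal (MvPolynomial σ K)) :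
    Ideal (MvPolynomial σ Ω) where
  carrier := {P | ∀ f : Ω →ₗ[K] K, cmap (f : Ω →+ K) P ∈ G}
  add_mem' := fun {P Q} hP hQ f => by
    rw [cmap_add]; exact G.add_mem (hP f) (hQ f)
  zero_mem' := fun f => by rw [cmap_zero]; exact G.zero_mem
  smul_mem' := fun R P hP => by
    have key : ∀ R : MvPolynomial σ Ω, ∀ f : Ω →ₗ[K] K, cmap (f : Ω →+ K) (R * P) ∈ G := by
      intro R
      induction R using MvPolynomial.induction_on' with
      | monomial s a =>
        intro f
        rw [cmap_monomial_mul]
        refine Ideal.mul_mem_left _ _ ?_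
        exact hP (f.comp (LinearMap.mulLeft K a))
      | add p q hp hq =>
        intro f
        rw [add_mul, cmap_add]
        exact G.add_mem (hp f) (hq f)
    exact key R

theorem mem_extI {G : Ideal (MvPolynomial σ K)} {P : MvPolynomial σ Ω} :
    P ∈ extI Ω G ↔ ∀ f : Ω →ₗ[K] K, cmap (f : Ω →+ K) P ∈ G := Iff.rfl

theorem extI_mono {G H : Ideal (MvPolynomial σ K)} (h : G ≤ H) : extI Ω G ≤ extI Ω H :=
  fun _ hP f => h (hP f)

/-- A `K`-linear retraction `Ω → K`. -/
theorem exists_retraction (K Ω : Type*) [Field K] [Field Ω] [Algebra K Ω] :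
    ∃ r : Ω →ₗ[K] K, ∀ a, r (algebraMap K Ω a) = a := by
  obtain ⟨g, hg⟩ := LinearMap.exists_leftInverse_of_injective (Algebra.linearMap K Ω)
    (LinearMap.ker_eq_bot.mpr (algebraMap K Ω).injective)
  exact ⟨g, fun a => LinearMap.congr_fun hg a⟩

theorem map_mem_extI_iff {G : Ideal (MvPolynomial σ K)} {Q : MvPolynomial σ K} :
    MvPolynomial.map (algebraMap K Ω) Q ∈ extI Ω G ↔ Q ∈ G := by
  constructor
  · intro h
    obtain ⟨r, hr⟩ := exists_retraction K Ω
    have := h r
    convert this using 1
    ext s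
    simp [coeff_map, hr]
  · intro h f
    have : cmap (f : Ω →+ K) (MvPolynomial.map (algebraMap K Ω) Q) = C (f 1) * Q := by
      ext s
      rw [coeff_cmap, coeff_map, coeff_C_mul]
      change f _ = _
      rw [Algebra.algebraMap_eq_smul_one, map_smul, smul_eq_mul, mul_comm]
    rw [this]
    exact G.mul_mem_left _ h

theorem eval_cmap (f : Ω →ₗ[K] K) (y : σ → K) (P : MvPolynomial σ Ω) :
    f (eval (fun i => algebraMap K Ω (y i)) P) = eval y (cmap (f : Ω →+ K) P) := by
  induction P using MvPolynomial.induction_on' with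
  | monomial s a =>
    have h1 : cmap (f : Ω →+ K) (monomial s a) = monomial s (f a) := by
      classical
      ext t
      rw [coeff_cmap, coeff_monomial, coeff_monomial]
      split_ifs
      · rfl
      · simp
    rw [h1, eval_monomial, eval_monomial]
    have h2 : (s.prod fun i e => (algebraMap K Ω (y i)) ^ e) =
        algebraMap K Ω (s.prod fun i e => y i ^ e) := by
      simp [Finsupp.prod, map_prod]
    rw [h2, mul_comm, ← Algebra.smul_def, map_smul, smul_eq_mul, mul_comm]
  | add p q hp hq => rw [map_add, map_add, hp, hq, cmap_add, map_add]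

theorem exists_functional_ne_zero {ω : Ω} (h : ω ≠ 0) : ∃ f : Ω →ₗ[K] K, f ω ≠ 0 := by
  by_contra hcon
  push Not at hcon
  exact h ((Module.forall_dual_apply_eq_zero_iff K ω).mp hcon)

variable [Finite σ] [IsAlgClosed K]

theorem extI_isPrime {G : Ideal (MvPolynomial σ K)} (hG : G.IsPrime) :
    (extI Ω G).IsPrime := by
  classical
  refine ⟨?_, ?_⟩
  · intro h
    have h1 : (1 : MvPolynomial σ Ω) ∈ extI Ω G := by rw [h]; trivial
    have h2 : MvPolynomial.map (algebraMap K Ω) (1 : MvPolynomial σ K) ∈ extI Ω G := by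
      rw [map_one]; exact h1
    exact hG.ne_top ((Ideal.eq_top_iff_one G).mpr (map_mem_extI_iff.mp h2))
  · intro P Q hPQ
    by_contra hcon
    push Not at hcon
    obtain ⟨hP, hQ⟩ := hcon
    rw [mem_extI] at hP hQ
    push Not at hP hQ
    obtain ⟨f, hf⟩ := hP
    obtain ⟨g, hg⟩ := hQ
    have hfg : cmap (f : Ω →+ K) P * cmap (g : Ω →+ K) Q ∉ G := by
      intro h
      rcases hG.mem_or_mem h with h | h
      · exact hf h
      · exact hg h
    have := hG
    have hvan := MvPolynomial.IsPrime.vanishingIdeal_zeroLocus (K := K) G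
    rw [← hvan] at hfg
    rw [mem_vanishingIdeal_iff] at hfg
    push Not at hfg
    obtain ⟨y, hy, hne⟩ := hfg
    have hy' : ∀ p ∈ G, eval y p = 0 := by
      intro p hp
      have := (mem_zeroLocus_iff.mp hy) p hp
      simpa [aeval_eq_eval] using this
    have hne' : eval y (cmap (f : Ω →+ K) P) * eval y (cmap (g : Ω →+ K) Q) ≠ 0 := by
      rw [← map_mul]
      simpa [aeval_eq_eval] using hne
    rw [← eval_cmap, ← eval_cmap] at hne'
    have hP0 : eval (fun i => algebraMap K Ω (y i)) P ≠ 0 := by
      intro h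
      apply hne'
      rw [h, map_zero, zero_mul]
    have hQ0 : eval (fun i => algebraMap K Ω (y i)) Q ≠ 0 := by
      intro h
      apply hne'
      rw [h, map_zero, mul_zero]
    obtain ⟨e, he⟩ := exists_functional_ne_zero (K := K) (mul_ne_zero hP0 hQ0)
    apply he
    rw [← map_mul, eval_cmap]
    exact hy' _ (hPQ e)

end ext

section step

variable {σ : Type*} {K Ω : Type*} [Field K] [Field Ω] [Algebra K Ω]

/-- The ideal of `K[y]` obtained by one step along the derivation `X`. -/
noncomputable def step (X : Derivation ℤ Ω Ω) (G : Ideal (MvPolynomial σ K)) :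
    Ideal (MvPolynomial σ K) where
  carrier := {Q | ∀ j, (cder X)^[j] (MvPolynomial.map (algebraMap K Ω) Q) ∈ extI Ω G}
  add_mem' := fun {P Q} hP hQ j => by
    rw [map_add, cder_iter_add]
    exact Ideal.add_mem _ (hP j) (hQ j)
  zero_mem' := fun j => by
    rw [map_zero, cder_iter_zero]
    exact Ideal.zero_mem _
  smul_mem' := fun R P hP j => by
    rw [smul_eq_mul, map_mul]
    exact cder_iter_mul_mem X _ j _ _ (fun i _ => hP i)

theorem mem_step {X : Derivation ℤ Ω Ω} {G : Ideal (MvPolynomial σ K)} {Q : MvPolynomial σ K} :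
    Q ∈ step X G ↔ ∀ j, (cder X)^[j] (MvPolynomial.map (algebraMap K Ω) Q) ∈ extI Ω G := Iff.rfl

theorem step_le (X : Derivation ℤ Ω Ω) (G : Ideal (MvPolynomial σ K)) : step X G ≤ G :=
  fun _ hQ => map_mem_extI_iff.mp (hQ 0)

theorem step_isPrime [Finite σ] [IsAlgClosed K] [CharZero Ω] (X : Derivation ℤ Ω Ω)
    {G : Ideal (MvPolynomial σ K)} (hG : G.IsPrime) : (step X G).IsPrime := by
  classical
  refine ⟨fun h => hG.ne_top (top_le_iff.mp (h ▸ step_le X G)), ?_⟩
  intro P Q hPQ
  by_contra hcon
  push Not at hcon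
  obtain ⟨hP, hQ⟩ := hcon
  rw [mem_step] at hP hQ
  push Not at hP hQ
  have hprime := extI_isPrime (Ω := Ω) hG
  set P' := MvPolynomial.map (algebraMap K Ω) P
  set Q' := MvPolynomial.map (algebraMap K Ω) Q
  set a := Nat.find hP with ha
  set b := Nat.find hQ with hb
  have haP : (cder X)^[a] P' ∉ extI Ω G := Nat.find_spec hP
  have hbQ : (cder X)^[b] Q' ∉ extI Ω G := Nat.find_spec hQ
  have haP' : ∀ i < a, (cder X)^[i] P' ∈ extI Ω G := fun i hi => by
    have := Nat.find_min hP hi
    push Not at this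
    exact this
  have hbQ' : ∀ i < b, (cder X)^[i] Q' ∈ extI Ω G := fun i hi => by
    have := Nat.find_min hQ hi
    push Not at this
    exact this
  have h1 := hPQ (a + b)
  rw [map_mul, cder_iter_mul] at h1
  have hmem : (a, b) ∈ Finset.HasAntidiagonal.antidiagonal (a + b) := by simp
  rw [← Finset.add_sum_erase _ _ hmem] at h1
  have h2 : ∑ x ∈ (Finset.HasAntidiagonal.antidiagonal (a + b)).erase (a, b),
      (a + b).choose x.1 • ((cder X)^[x.1] P' * (cder X)^[x.2] Q') ∈ extI Ω G := by
    refine Ideal.sum_mem _ fun x hx => ?_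
    rw [Finset.mem_erase, Finset.HasAntidiagonal.mem_antidiagonal] at hx
    refine nsmul_mem ?_ _
    rcases lt_or_ge x.1 a with h | h
    · exact Ideal.mul_mem_right _ _ (haP' _ h)
    · have : x.2 < b := by
        by_contra hlt
        apply hx.1
        ext <;> simp <;> omega
      exact Ideal.mul_mem_left _ _ (hbQ' _ this)
  have h3 := (Ideal.add_mem_iff_left _ h2).mp h1
  simp only at h3
  have hc : ((a + b).choose a : Ω) ≠ 0 := by
    have : (a + b).choose a ≠ 0 := (Nat.choose_pos (Nat.le_add_right a b)).ne'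
    exact_mod_cast this
  have h4 : C (((a + b).choose a : Ω)⁻¹) *
      ((a + b).choose a • ((cder X)^[a] P' * (cder X)^[b] Q')) ∈ extI Ω G :=
    Ideal.mul_mem_left _ _ h3
  have h5 : C (((a + b).choose a : Ω)⁻¹) *
      ((a + b).choose a • ((cder X)^[a] P' * (cder X)^[b] Q')) =
      (cder X)^[a] P' * (cder X)^[b] Q' := by
    rw [nsmul_eq_mul, ← mul_assoc]
    have : C (((a + b).choose a : Ω)⁻¹) * (((a + b).choose a : ℕ) : MvPolynomial σ Ω) = 1 := by
      rw [← map_natCast (C : Ω →+* MvPolynomial σ Ω), ← C_mul, inv_mul_cancel₀ hc, C_1]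
    rw [this, one_mul]
  rw [h5] at h4
  rcases hprime.mem_or_mem h4 with h | h
  · exact haP h
  · exact hbQ h

end step

end Pool.DKak
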