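import Pool.Agent.DKak.Alg1

set_option autoImplicit false
set_option linter.unusedSectionVars false

/-!
# Order of vanishing and its propagation along the derivation `X`
-/

namespace Pool.DKak

open MvPolynomial

section

variable {σ : Type*} {K Ω : Type*} [Field K] [Field Ω] [Algebra K Ω]
variable {ι : Type*} [Fintype ι]

/-- Iterated derivations along a word. -/
def dl (d : ι → Derivation ℤ K K) : List ι → K → K
  | [], a => a
  | i :: l, a => d i (dl d l a)

@[simp] theorem dl_nil (d : ι → Derivation ℤ K K) (a : K) : dl d [] a = a := rfl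
@[simp] theorem dl_cons (d : ι → Derivation ℤ K K) (i : ι) (l : List ι) (a : K) :
    dl d (i :: l) a = d i (dl d l a) := rfl

theorem dl_perm (d : ι → Derivation ℤ K K) (hcomm : ∀ i j a, d i (d j a) = d j (d i a))
    {l₁ l₂ : List ι} (h : l₁.Perm l₂) (a : K) : dl d l₁ a = dl d l₂ a := by
  induction h with
  | nil => rfl
  | cons x _ ih => simp [ih]
  | swap x y l => simp [hcomm]
  | trans _ _ ih1 ih2 => rw [ih1, ih2]

/-- Derivations of `Ω` tangent to the span of the `d i`. -/
def IsTan (d : ι → Derivation ℤ K K) (E : Derivation ℤ Ω Ω) : Prop :=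
  ∃ γ : ι → Ω, ∀ a : K, E (algebraMap K Ω a) = ∑ i, γ i * algebraMap K Ω (d i a)

theorem IsTan.lie {d : ι → Derivation ℤ K K} (hcomm : ∀ i j a, d i (d j a) = d j (d i a))
    {X E : Derivation ℤ Ω Ω} (hX : IsTan d X) (hE : IsTan d E) : IsTan d ⁅X, E⁆ := by
  obtain ⟨β, hβ⟩ := hX
  obtain ⟨γ, hγ⟩ := hE
  refine ⟨fun i => X (γ i) - E (β i), fun a => ?_⟩
  rw [Derivation.commutator_apply, hβ, hγ, map_sum, map_sum]
  simp only [Derivation.leibniz, smul_eq_mul, hβ, hγ, Finset.sum_add_distrib, Finset.mul_sum]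
  have h1 : ∑ x, ∑ i, γ x * (β i * algebraMap K Ω (d i (d x a))) =
      ∑ x, ∑ i, β x * (γ i * algebraMap K Ω (d i (d x a))) := by
    rw [Finset.sum_comm]
    refine Finset.sum_congr rfl fun x _ => Finset.sum_congr rfl fun y _ => ?_
    rw [hcomm x y a]
    ring
  rw [h1]
  simp only [sub_mul, Finset.sum_sub_distrib]
  have h2 : ∀ F : Derivation ℤ Ω Ω, ∀ δ : ι → Ω,
      ∑ x, algebraMap K Ω (d x a) * F (δ x) = ∑ x, F (δ x) * algebraMap K Ω (d x a) :=
    fun F δ => Finset.sum_congr rfl fun x _ => mul_comm _ _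
  rw [h2, h2]
  ring

/-- Differential operators of order at most `k` with coefficients in `Ω`. -/
inductive IsOp (d : ι → Derivation ℤ K K) : ℕ → (Ω → Ω) → Prop
  | one : IsOp d 0 (fun a => a)
  | zero (k : ℕ) : IsOp d k (fun _ => 0)
  | add {k : ℕ} {T T' : Ω → Ω} : IsOp d k T → IsOp d k T' → IsOp d k (fun a => T a + T' a)
  | smul {k : ℕ} {T : Ω → Ω} (c : Ω) : IsOp d k T → IsOp d k (fun a => c * T a)
  | comp {k : ℕ} {T : Ω → Ω} (E : Derivation ℤ Ω Ω) : IsTan d E → IsOp d k T →
      IsOp d (k + 1) (fun a => E (T a))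
  | succ {k : ℕ} {T : Ω → Ω} : IsOp d k T → IsOp d (k + 1) T

theorem IsOp.mono {d : ι → Derivation ℤ K K} {k l : ℕ} {T : Ω → Ω} (h : IsOp d k T)
    (hkl : k ≤ l) : IsOp d l T := by
  induction hkl with
  | refl => exact h
  | step _ ih => exact ih.succ

theorem IsOp.precomp {d : ι → Derivation ℤ K K} {k : ℕ} {T : Ω → Ω} (h : IsOp d k T)
    {E : Derivation ℤ Ω Ω} (hE : IsTan d E) : IsOp d (k + 1) (fun a => T (E a)) := by
  induction h with
  | one => exact IsOp.comp E hE IsOp.one
  | zero k => exact IsOp.zero _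
  | add _ _ h1 h2 => exact IsOp.add h1 h2
  | smul c _ h => exact IsOp.smul c h
  | comp F hF _ h => exact IsOp.comp F hF h
  | succ _ h => exact IsOp.succ h

theorem IsOp.precomp_iter {d : ι → Derivation ℤ K K} {k : ℕ} {T : Ω → Ω} (h : IsOp d k T)
    {E : Derivation ℤ Ω Ω} (hE : IsTan d E) (i : ℕ) :
    IsOp d (k + i) (fun a => T (E^[i] a)) := by
  induction i generalizing T k with
  | zero => exact h
  | succ i ih =>
    have := ih (h.precomp hE)
    have h2 : k + 1 + i = k + (i + 1) := by ring
    rw [h2] at this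
    have h3 : (fun a => T (E^[i + 1] a)) = (fun a => T (E (E^[i] a))) := by
      funext a
      rw [Function.iterate_succ_apply']
    rw [h3]
    exact this

theorem IsOp.sum {d : ι → Derivation ℤ K K} {k : ℕ} (T : ℕ → Ω → Ω)
    (hT : ∀ i, IsOp d k (T i)) (s : Finset ℕ) : IsOp d k (fun a => ∑ i ∈ s, T i a) := by
  classical
  induction s using Finset.induction_on with
  | empty => simpa using IsOp.zero k
  | insert a s ha ih =>
    have : (fun b => ∑ i ∈ insert a s, T i b) = (fun b => T a b + ∑ i ∈ s, T i b) := by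
      funext b
      rw [Finset.sum_insert ha]
    rw [this]
    exact IsOp.add (hT a) ih

theorem IsOp.ad {d : ι → Derivation ℤ K K} (hcomm : ∀ i j a, d i (d j a) = d j (d i a))
    {X : Derivation ℤ Ω Ω} (hX : IsTan d X) {k : ℕ} {T : Ω → Ω} (h : IsOp d k T) :
    ∃ T' : Ω → Ω, IsOp d k T' ∧ ∀ a, X (T a) = T' a + T (X a) := by
  induction h with
  | one => exact ⟨_, IsOp.zero 0, fun a => by simp⟩
  | zero k => exact ⟨_, IsOp.zero k, fun a => by simp⟩
  | add _ _ h1 h2 =>
    obtain ⟨T1, hT1, e1⟩ := h1
    obtain ⟨T2, hT2, e2⟩ := h2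
    refine ⟨_, IsOp.add hT1 hT2, fun a => ?_⟩
    rw [map_add, e1, e2]
    ring
  | @smul k T c h0 h =>
    obtain ⟨T1, hT1, e1⟩ := h
    refine ⟨_, IsOp.add (IsOp.smul (X c) h0) (IsOp.smul c hT1), fun a => ?_⟩
    rw [Derivation.leibniz, e1]
    simp only [smul_eq_mul]
    ring
  | @comp k T E hE h0 h =>
    obtain ⟨T1, hT1, e1⟩ := h
    refine ⟨_, IsOp.add (IsOp.comp _ (hX.lie hcomm hE) h0) (IsOp.comp E hE hT1), fun a => ?_⟩
    rw [Derivation.commutator_apply, e1, map_add]
    ring
  | succ _ h =>
    obtain ⟨T1, hT1, e1⟩ := h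
    exact ⟨T1, hT1.succ, e1⟩

theorem IsOp.iter {d : ι → Derivation ℤ K K} (hcomm : ∀ i j a, d i (d j a) = d j (d i a))
    {X : Derivation ℤ Ω Ω} (hX : IsTan d X) {k : ℕ} {T : Ω → Ω} (h : IsOp d k T) (j : ℕ) :
    ∃ S : ℕ → Ω → Ω, (∀ i, IsOp d k (S i)) ∧
      ∀ a, X^[j] (T a) = ∑ i ∈ Finset.range (j + 1), S i (X^[i] a) := by
  induction j with
  | zero =>
    refine ⟨fun _ => T, fun _ => h, fun a => by simp⟩
  | succ j ih =>
    obtain ⟨S, hS, e⟩ := ih
    choose S' hS' e' using fun i => (hS i).ad hcomm hX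
    refine ⟨fun i => fun a => (if i ≤ j then S' i a else 0) +
      (if i = 0 then 0 else S (i - 1) a), ?_, ?_⟩
    · intro i
      refine IsOp.add ?_ ?_
      · split_ifs
        · exact hS' i
        · exact IsOp.zero k
      · split_ifs
        · exact IsOp.zero k
        · exact hS (i - 1)
    · intro a
      rw [Function.iterate_succ_apply', e, map_sum]
      simp only [e']
      rw [Finset.sum_add_distrib, Finset.sum_add_distrib]
      congr 1
      · rw [Finset.sum_range_succ _ (j + 1)]
        simp only [Nat.not_succ_le_self, if_false, add_zero]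
        refine Finset.sum_congr rfl fun i hi => ?_
        rw [Finset.mem_range] at hi
        rw [if_pos (by omega)]
      · rw [Finset.sum_range_succ' _ (j + 1)]
        simp only [if_true, add_zero, Nat.add_eq_zero_iff, one_ne_zero, and_false, if_false,
          Nat.add_sub_cancel]
        refine Finset.sum_congr rfl fun i _ => ?_
        rw [Function.iterate_succ_apply']

/-- The span of words of length at most `k`, as functions `K → Ω`. -/
def wspan (Ω : Type*) [Field Ω] [Algebra K Ω] (d : ι → Derivation ℤ K K) (k : ℕ) :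
    Submodule Ω (K → Ω) :=
  Submodule.span Ω {g | ∃ l : List ι, l.length ≤ k ∧ g = fun a => algebraMap K Ω (dl d l a)}

theorem wspan_mono (d : ι → Derivation ℤ K K) {k l : ℕ} (h : k ≤ l) :
    wspan Ω d k ≤ wspan Ω d l := by
  apply Submodule.span_mono
  rintro g ⟨w, hw, rfl⟩
  exact ⟨w, hw.trans h, rfl⟩

theorem comp_mem_wspan (d : ι → Derivation ℤ K K) {k : ℕ} {g : K → Ω} (hg : g ∈ wspan Ω d k)
    {E : Derivation ℤ Ω Ω} (hE : IsTan d E) : (fun a => E (g a)) ∈ wspan Ω d (k + 1) := by
  obtain ⟨γ, hγ⟩ := hE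
  induction hg using Submodule.span_induction with
  | mem x h =>
    obtain ⟨l, hl, rfl⟩ := h
    have : (fun a => E (algebraMap K Ω (dl d l a))) =
        ∑ i, γ i • (fun a => algebraMap K Ω (dl d (i :: l) a)) := by
      funext a
      rw [hγ, Finset.sum_apply]
      rfl
    rw [this]
    refine Submodule.sum_mem _ fun i _ => Submodule.smul_mem _ _ (Submodule.subset_span ?_)
    exact ⟨i :: l, by simpa using hl, rfl⟩
  | zero =>
    have : (fun a : K => E ((0 : K → Ω) a)) = (0 : K → Ω) := by funext a; simp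
    rw [this]
    exact Submodule.zero_mem _
  | add x y _ _ hx hy =>
    have : (fun a => E ((x + y) a)) = (fun a => E (x a)) + (fun a => E (y a)) := by
      funext a; simp
    rw [this]
    exact Submodule.add_mem _ hx hy
  | smul c x hx' hx =>
    have : (fun a => E ((c • x) a)) = c • (fun a => E (x a)) + E c • x := by
      funext a
      simp only [Pi.smul_apply, smul_eq_mul, Derivation.leibniz, Pi.add_apply]
      ring
    rw [this]
    exact Submodule.add_mem _ (Submodule.smul_mem _ _ hx)
      (Submodule.smul_mem _ _ (wspan_mono d (Nat.le_succ k) hx'))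

theorem IsOp.mem_wspan {d : ι → Derivation ℤ K K} {k : ℕ} {T : Ω → Ω} (h : IsOp d k T) :
    (fun a : K => T (algebraMap K Ω a)) ∈ wspan Ω d k := by
  induction h with
  | one => exact Submodule.subset_span ⟨[], by simp, rfl⟩
  | zero k => exact Submodule.zero_mem _
  | add _ _ h1 h2 => exact Submodule.add_mem _ h1 h2
  | smul c _ h => exact Submodule.smul_mem _ c h
  | comp E hE _ h => exact comp_mem_wspan d h hE
  | succ _ h => exact wspan_mono d (Nat.le_succ _) h

/-- The value of a monomial at the point `x`. -/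
noncomputable def xpow (x : σ → K) (s : σ →₀ ℕ) : K := s.prod fun i e => x i ^ e

/-- The pairing of an operator with a polynomial. -/
noncomputable def pair (x : σ → K) (g : K → Ω) (Q : MvPolynomial σ Ω) : Ω :=
  ∑ s ∈ Q.support, Q.coeff s * g (xpow x s)

theorem pair_eq_sum (x : σ → K) (g : K → Ω) (Q : MvPolynomial σ Ω) (t : Finset (σ →₀ ℕ))
    (ht : Q.support ⊆ t) : pair x g Q = ∑ s ∈ t, Q.coeff s * g (xpow x s) := by
  rw [pair]
  refine Finset.sum_subset ht fun s _ hs => ?_
  rw [notMem_support_iff.mp hs, zero_mul]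

theorem pair_eq_zero_of_mem_wspan (x : σ → K) (d : ι → Derivation ℤ K K) (k : ℕ)
    (Q : MvPolynomial σ Ω)
    (hQ : ∀ l : List ι, l.length ≤ k → pair x (fun a => algebraMap K Ω (dl d l a)) Q = 0)
    {g : K → Ω} (hg : g ∈ wspan Ω d k) : pair x g Q = 0 := by
  induction hg using Submodule.span_induction with
  | mem g h =>
    obtain ⟨l, hl, rfl⟩ := h
    exact hQ l hl
  | zero => simp [pair]
  | add g h _ _ hg hh =>
    have : pair x (g + h) Q = pair x g Q + pair x h Q := by
      simp [pair, mul_add, Finset.sum_add_distrib]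
    rw [this, hg, hh, add_zero]
  | smul c g _ hg =>
    have : pair x (c • g) Q = c * pair x g Q := by
      simp only [pair, Pi.smul_apply, smul_eq_mul, Finset.mul_sum]
      exact Finset.sum_congr rfl fun s _ => by ring
    rw [this, hg, mul_zero]

theorem pair_cder (x : σ → K) (X : Derivation ℤ Ω Ω) (g : K → Ω) (Q : MvPolynomial σ Ω) :
    X (pair x g Q) = pair x (fun a => X (g a)) Q + pair x g (cder X Q) := by
  have hsub : (cder X Q).support ⊆ Q.support := support_cmap_subset _ _
  rw [pair_eq_sum x g (cder X Q) Q.support hsub, pair, pair, map_sum, ← Finset.sum_add_distrib]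
  refine Finset.sum_congr rfl fun s _ => ?_
  rw [Derivation.leibniz, coeff_cder]
  simp only [smul_eq_mul]
  ring

/-- `X^i` kills monomials of degree less than `i`. -/
theorem iterate_xpow_eq_zero (x : σ → K) (X : Derivation ℤ Ω Ω)
    (hx : ∀ j, X (X (algebraMap K Ω (x j))) = 0) (s : σ →₀ ℕ) (i : ℕ) (hi : s.degree < i) :
    X^[i] (algebraMap K Ω (xpow x s)) = 0 := by
  classical
  -- general fact on products
  have hmul : ∀ (a b : Ω) (n : ℕ), X^[n] (a * b) =
      ∑ ij ∈ Finset.HasAntidiagonal.antidiagonal n, n.choose ij.1 • (X^[ij.1] a * X^[ij.2] b) := by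
    intro a b n
    have := congrArg (coeff (0 : Unit →₀ ℕ)) (cder_iter_mul X n (C a : MvPolynomial Unit Ω) (C b))
    have hC : ∀ (c : Ω) (m : ℕ), (cder X)^[m] (C c : MvPolynomial Unit Ω) = C (X^[m] c) := by
      intro c m
      induction m generalizing c with
      | zero => rfl
      | succ m ih =>
        rw [Function.iterate_succ_apply, Function.iterate_succ_apply]
        have h1 : cder X (C c : MvPolynomial Unit Ω) = C (X c) := by
          ext t
          rw [coeff_cder, coeff_C, coeff_C]
          split_ifs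
          · rfl
          · simp
        rw [h1, ih]
    rw [← C_mul, hC] at this
    simp only [hC] at this
    rw [coeff_C, if_pos rfl, coeff_sum] at this
    rw [this]
    refine Finset.sum_congr rfl fun ij _ => ?_
    rw [coeff_smul, ← C_mul, coeff_C, if_pos rfl]
  have hX0 : ∀ n, X^[n] (0 : Ω) = 0 := by
    intro n
    induction n with
    | zero => rfl
    | succ n ih => rw [Function.iterate_succ_apply, map_zero, ih]
  have hprod : ∀ (a b : Ω) (m n : ℕ), (∀ k, m < k → X^[k] a = 0) → (∀ k, n < k → X^[k] b = 0) →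
      ∀ k, m + n < k → X^[k] (a * b) = 0 := by
    intro a b m n ha hb k hk
    rw [hmul]
    refine Finset.sum_eq_zero fun ij hij => ?_
    rw [Finset.HasAntidiagonal.mem_antidiagonal] at hij
    rcases lt_or_ge m ij.1 with h | h
    · rw [ha _ h, zero_mul, smul_zero]
    · rw [hb ij.2 (by omega), mul_zero, smul_zero]
  have hpow : ∀ (a : Ω), (∀ k, 1 < k → X^[k] a = 0) → ∀ e : ℕ, ∀ k, e < k → X^[k] (a ^ e) = 0 := by
    intro a ha e
    induction e with
    | zero =>
      intro k hk
      obtain ⟨k', rfl⟩ : ∃ k', k = k' + 1 := ⟨k - 1, by omega⟩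
      rw [pow_zero, Function.iterate_succ_apply, Derivation.map_one_eq_zero, hX0]
    | succ e ih =>
      intro k hk
      rw [pow_succ]
      exact hprod _ _ e 1 ih ha k hk
  have hx1 : ∀ j, ∀ k, 1 < k → X^[k] (algebraMap K Ω (x j)) = 0 := by
    intro j k hk
    obtain ⟨k', rfl⟩ : ∃ k', k = k' + 1 + 1 := ⟨k - 2, by omega⟩
    rw [Function.iterate_succ_apply, Function.iterate_succ_apply, hx, hX0]
  have hfin : ∀ t : Finset σ, ∀ k, (∑ j ∈ t, s j) < k →
      X^[k] (∏ j ∈ t, (algebraMap K Ω (x j)) ^ (s j)) = 0 := by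
    intro t
    induction t using Finset.induction_on with
    | empty =>
      intro k hk
      obtain ⟨k', rfl⟩ : ∃ k', k = k' + 1 := ⟨k - 1, by omega⟩
      rw [Finset.prod_empty, Function.iterate_succ_apply, Derivation.map_one_eq_zero, hX0]
    | insert a t ha ih =>
      intro k hk
      rw [Finset.prod_insert ha]
      rw [Finset.sum_insert ha] at hk
      exact hprod _ _ _ _ (hpow _ (hx1 a) _) ih k hk
  have := hfin s.support i hi
  rw [xpow, Finsupp.prod, map_prod]
  simpa using this

/-- The lift of a word to `Ω`. -/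
def DL (D : ι → Derivation ℤ Ω Ω) : List ι → Ω → Ω
  | [], a => a
  | i :: l, a => D i (DL D l a)

theorem DL_algebraMap (d : ι → Derivation ℤ K K) (D : ι → Derivation ℤ Ω Ω)
    (hD : ∀ i a, D i (algebraMap K Ω a) = algebraMap K Ω (d i a)) (l : List ι) (a : K) :
    DL D l (algebraMap K Ω a) = algebraMap K Ω (dl d l a) := by
  induction l with
  | nil => rfl
  | cons i l ih =>
    change D i (DL D l _) = _
    rw [ih, hD]
    rfl

theorem IsTan_lift [DecidableEq ι] (d : ι → Derivation ℤ K K) (D : ι → Derivation ℤ Ω Ω)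
    (hD : ∀ i a, D i (algebraMap K Ω a) = algebraMap K Ω (d i a)) (i : ι) : IsTan d (D i) := by
  refine ⟨fun j => if j = i then 1 else 0, fun a => ?_⟩
  rw [hD]
  simp

theorem DL_isOp (d : ι → Derivation ℤ K K) (D : ι → Derivation ℤ Ω Ω)
    (hD : ∀ i a, D i (algebraMap K Ω a) = algebraMap K Ω (d i a)) (l : List ι) :
    IsOp d l.length (DL D l) := by
  classical
  induction l with
  | nil => exact IsOp.one
  | cons i l ih => exact IsOp.comp (D i) (IsTan_lift d D hD i) ih

/-- Propagation of the order of vanishing. -/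
theorem propagate (x : σ → K) (d : ι → Derivation ℤ K K)
    (hcomm : ∀ i j a, d i (d j a) = d j (d i a))
    (D : ι → Derivation ℤ Ω Ω) (hD : ∀ i a, D i (algebraMap K Ω a) = algebraMap K Ω (d i a))
    (X : Derivation ℤ Ω Ω) (hX : IsTan d X) (hx : ∀ j, X (X (algebraMap K Ω (x j))) = 0)
    (B k : ℕ) (Q : MvPolynomial σ Ω) (hdeg : ∀ s ∈ Q.support, s.degree ≤ B)
    (hQ : ∀ l : List ι, l.length ≤ k + B →
      pair x (fun a => algebraMap K Ω (dl d l a)) Q = 0) (j : ℕ) :
    ∀ l : List ι, l.length ≤ k →
      pair x (fun a => algebraMap K Ω (dl d l a)) ((cder X)^[j] Q) = 0 := by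
  classical
  intro l hl
  have key : ∀ j m, pair x (fun a => X^[m] (DL D l (algebraMap K Ω a))) ((cder X)^[j] Q) = 0 := by
    intro j
    induction j with
    | zero =>
      intro m
      obtain ⟨S, hS, e⟩ := ((DL_isOp d D hD l).mono hl).iter hcomm hX m
      have h1 : pair x (fun a => X^[m] (DL D l (algebraMap K Ω a))) ((cder X)^[0] Q) =
          pair x (fun a => ∑ i ∈ (Finset.range (m + 1)).filter (fun i => i ≤ B),
            S i (X^[i] (algebraMap K Ω a))) Q := by
        rw [Function.iterate_zero, id, pair, pair]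
        refine Finset.sum_congr rfl fun s hs => ?_
        congr 1
        rw [e, Finset.sum_filter]
        refine Finset.sum_congr rfl fun i _ => ?_
        split_ifs with hi
        · rfl
        · rw [iterate_xpow_eq_zero x X hx s i (lt_of_le_of_lt (hdeg s hs) (not_le.mp hi))]
          have hzero : ∀ {k : ℕ} {T : Ω → Ω}, IsOp d k T → T 0 = 0 := by
            intro k T hT
            induction hT with
            | one => rfl
            | zero k => rfl
            | add _ _ h1 h2 => simp [h1, h2]
            | smul c _ h => simp [h]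
            | comp E _ _ h => simp [h]
            | succ _ h => exact h
          exact hzero (hS i)
      rw [h1]
      apply pair_eq_zero_of_mem_wspan x d (k + B) Q hQ
      have h2 : (fun a : K => ∑ i ∈ (Finset.range (m + 1)).filter (fun i => i ≤ B),
            S i (X^[i] (algebraMap K Ω a))) =
          ∑ i ∈ (Finset.range (m + 1)).filter (fun i => i ≤ B),
            (fun a : K => S i (X^[i] (algebraMap K Ω a))) := by
        funext a
        rw [Finset.sum_apply]
      rw [h2]
      refine Submodule.sum_mem _ fun i hi => ?_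
      have hiB : i ≤ B := (Finset.mem_filter.mp hi).2
      exact IsOp.mem_wspan (((hS i).precomp_iter hX i).mono (Nat.add_le_add_left hiB k))
    | succ j ih =>
      intro m
      have h1 := pair_cder x X (fun a => X^[m] (DL D l (algebraMap K Ω a))) ((cder X)^[j] Q)
      rw [ih m, map_zero] at h1
      have h2 := ih (m + 1)
      have h3 : (fun a => X^[m + 1] (DL D l (algebraMap K Ω a))) =
          (fun a => X (X^[m] (DL D l (algebraMap K Ω a)))) := by
        funext a
        rw [Function.iterate_succ_apply']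
      rw [h3] at h2
      rw [h2, zero_add] at h1
      rw [Function.iterate_succ_apply']
      exact h1.symm
  have := key j 0
  have h0 : (fun a => X^[0] (DL D l (algebraMap K Ω a))) =
      (fun a => algebraMap K Ω (dl d l a)) := by
    funext a
    rw [Function.iterate_zero, id, DL_algebraMap d D hD]
  rwa [h0] at this

/-- The pairing over `K`. -/
noncomputable def pairK (x : σ → K) (d : ι → Derivation ℤ K K) (l : List ι)
    (Q : MvPolynomial σ K) : K :=
  ∑ s ∈ Q.support, Q.coeff s * dl d l (xpow x s)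

theorem pairK_eq_sum (x : σ → K) (d : ι → Derivation ℤ K K) (l : List ι)
    (Q : MvPolynomial σ K) (t : Finset (σ →₀ ℕ)) (ht : Q.support ⊆ t) :
    pairK x d l Q = ∑ s ∈ t, Q.coeff s * dl d l (xpow x s) := by
  rw [pairK]
  refine Finset.sum_subset ht fun s _ hs => ?_
  rw [notMem_support_iff.mp hs, zero_mul]

theorem pair_map (x : σ → K) (d : ι → Derivation ℤ K K) (l : List ι)
    (Q : MvPolynomial σ K) :
    pair x (fun a => algebraMap K Ω (dl d l a)) (MvPolynomial.map (algebraMap K Ω) Q) =
      algebraMap K Ω (pairK x d l Q) := by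
  rw [pair_eq_sum x _ _ Q.support (support_map_subset _ _), pairK, map_sum]
  refine Finset.sum_congr rfl fun s _ => ?_
  rw [coeff_map, map_mul]

theorem pairK_cmap (x : σ → K) (d : ι → Derivation ℤ K K) (l : List ι) (f : Ω →ₗ[K] K)
    (P : MvPolynomial σ Ω) :
    pairK x d l (cmap (f : Ω →+ K) P) =
      f (pair x (fun a => algebraMap K Ω (dl d l a)) P) := by
  rw [pairK_eq_sum x d l _ P.support (support_cmap_subset _ _), pair, map_sum]
  refine Finset.sum_congr rfl fun s _ => ?_
  rw [coeff_cmap, mul_comm (P.coeff s), ← Algebra.smul_def, map_smul, smul_eq_mul, mul_comm]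
  rfl

/-- The step lemma: high order of vanishing puts a polynomial in the stepped ideal. -/
theorem mem_step_of_vanish (x : σ → K) (d : ι → Derivation ℤ K K)
    (hcomm : ∀ i j a, d i (d j a) = d j (d i a))
    (D : ι → Derivation ℤ Ω Ω) (hD : ∀ i a, D i (algebraMap K Ω a) = algebraMap K Ω (d i a))
    (X : Derivation ℤ Ω Ω) (hX : IsTan d X) (hx : ∀ j, X (X (algebraMap K Ω (x j))) = 0)
    (B k : ℕ) (G : Ideal (MvPolynomial σ K))
    (hG : ∀ Q : MvPolynomial σ K, (∀ s ∈ Q.support, s.degree ≤ B) →
      (∀ l : List ι, l.length ≤ k → pairK x d l Q = 0) → Q ∈ G)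
    (Q : MvPolynomial σ K) (hdeg : ∀ s ∈ Q.support, s.degree ≤ B)
    (hQ : ∀ l : List ι, l.length ≤ k + B → pairK x d l Q = 0) : Q ∈ step X G := by
  rw [mem_step]
  intro j f
  have hdeg' : ∀ s ∈ (MvPolynomial.map (algebraMap K Ω) Q).support, s.degree ≤ B :=
    fun s hs => hdeg s (support_map_subset _ _ hs)
  have hsupp : ∀ j, ((cder X)^[j] (MvPolynomial.map (algebraMap K Ω) Q)).support ⊆
      (MvPolynomial.map (algebraMap K Ω) Q).support := by
    intro j
    induction j with
    | zero => exact fun _ h => h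
    | succ j ih =>
      rw [Function.iterate_succ_apply']
      exact (support_cmap_subset _ _).trans ih
  apply hG
  · intro s hs
    exact hdeg' s (hsupp j (support_cmap_subset _ _ hs))
  · intro l hl
    rw [pairK_cmap]
    rw [propagate x d hcomm D hD X hX hx B k _ hdeg' (fun l hl => by
      rw [pair_map, hQ l hl, map_zero]) j l hl, map_zero]

end

end Pool.DKak
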