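import Pool.Agent.DKak.Alg2

set_option autoImplicit false
set_option linter.unusedSectionVars false

/-!
# Algebraic dependence over the field of first integrals
-/

namespace Pool.DKak

open MvPolynomial

section count

variable {σ : Type*} {K : Type*} [Field K] {ι : Type*}

theorem card_ineq (n m : ℕ) (hmn : m < n) :
    (n * (n * n ^ (2 * m)) + 1) ^ m < (n ^ (2 * m) + 1) ^ n := by
  have hn : 1 ≤ n := by omega
  set t := n ^ (2 * m) with ht
  have ht1 : 1 ≤ t := Nat.one_le_pow _ _ hn
  have h1 : n * (n * t) + 1 ≤ n ^ 2 * (t + 1) := by nlinarith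
  calc (n * (n * t) + 1) ^ m ≤ (n ^ 2 * (t + 1)) ^ m := Nat.pow_le_pow_left h1 m
    _ = t * (t + 1) ^ m := by rw [mul_pow, ← pow_mul]
    _ < (t + 1) * (t + 1) ^ m := Nat.mul_lt_mul_of_pos_right (Nat.lt_succ_self t) (by positivity)
    _ = (t + 1) ^ (m + 1) := by rw [pow_succ, mul_comm]
    _ ≤ (t + 1) ^ n := Nat.pow_le_pow_right (Nat.succ_pos t) hmn

theorem exists_vanishing [Fintype σ] [Fintype ι] (hcard : Fintype.card ι < Fintype.card σ)
    (x : σ → K) (d : ι → Derivation ℤ K K)
    (hcomm : ∀ i j a, d i (d j a) = d j (d i a)) :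
    ∃ B : ℕ, ∃ Q : MvPolynomial σ K, Q ≠ 0 ∧ (∀ s ∈ Q.support, s.degree ≤ B) ∧
      ∀ l : List ι, l.length ≤ Fintype.card σ * B → pairK x d l Q = 0 := by
  classical
  set n := Fintype.card σ with hn
  set m := Fintype.card ι with hm
  set t := n ^ (2 * m) with ht
  set k := n * (n * t) with hk
  let sE : (σ → Fin (t + 1)) → (σ →₀ ℕ) := fun e => Finsupp.equivFunOnFinite.symm (fun i => (e i : ℕ))
  have hsE : Function.Injective sE := by
    intro e e' h
    have h' := Finsupp.equivFunOnFinite.symm.injective h
    funext i
    exact Fin.ext (congrFun h' i)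
  have hsEdeg : ∀ e, (sE e).degree ≤ n * t := by
    intro e
    have h1 : (sE e).degree = ∑ i, (e i : ℕ) := by
      rw [Finsupp.degree_eq_sum]
      rfl
    rw [h1]
    calc ∑ i, (e i : ℕ) ≤ ∑ _i : σ, t := Finset.sum_le_sum fun i _ => Nat.lt_succ_iff.mp (e i).2
      _ = n * t := by rw [Finset.sum_const, Finset.card_univ, smul_eq_mul]
  let can : (ι → ℕ) → List ι := fun α => (Finsupp.toMultiset (Finsupp.equivFunOnFinite.symm α)).toList
  have hcan : ∀ l : List ι, l.Perm (can fun i => l.count i) := by
    intro l
    rw [List.perm_iff_count]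
    intro a
    rw [← Multiset.coe_count, ← Multiset.coe_count, Multiset.coe_toList,
      Finsupp.count_toMultiset]
    simp
  let L : ((σ → Fin (t + 1)) → K) →ₗ[K] ((ι → Fin (k + 1)) → K) :=
    { toFun := fun c α => ∑ e, c e * dl d (can fun i => (α i : ℕ)) (xpow x (sE e))
      map_add' := fun c c' => by
        funext α
        simp [add_mul, Finset.sum_add_distrib]
      map_smul' := fun a c => by
        funext α
        simp [Finset.mul_sum, mul_assoc] }
  have hfin : Module.finrank K ((ι → Fin (k + 1)) → K) < Module.finrank K ((σ → Fin (t + 1)) → K) := by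
    rw [Module.finrank_fintype_fun_eq_card, Module.finrank_fintype_fun_eq_card,
      Fintype.card_fun, Fintype.card_fun, Fintype.card_fin, Fintype.card_fin]
    exact card_ineq n m hcard
  have hker := LinearMap.ker_ne_bot_of_finrank_lt (f := L) hfin
  obtain ⟨c, hc, hc0⟩ := Submodule.exists_mem_ne_zero_of_ne_bot hker
  rw [LinearMap.mem_ker] at hc
  obtain ⟨e₀, he₀⟩ := Function.ne_iff.mp hc0
  set Q : MvPolynomial σ K := ∑ e, monomial (sE e) (c e) with hQ
  have hcoeff : ∀ e, Q.coeff (sE e) = c e := by
    intro e
    rw [hQ, coeff_sum]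
    simp only [coeff_monomial]
    rw [Finset.sum_eq_single e]
    · simp
    · intro b _ hb
      rw [if_neg]
      intro h
      exact hb (hsE h)
    · simp
  have hsupp : Q.support ⊆ Finset.univ.image sE := by
    intro s hs
    by_contra hcon
    rw [mem_support_iff, hQ, coeff_sum] at hs
    apply hs
    refine Finset.sum_eq_zero fun e _ => ?_
    rw [coeff_monomial, if_neg]
    intro h
    exact hcon (Finset.mem_image.mpr ⟨e, Finset.mem_univ _, h⟩)
  refine ⟨n * t, Q, ?_, ?_, ?_⟩
  · intro h
    apply he₀
    rw [← hcoeff, h]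
    simp
  · intro s hs
    obtain ⟨e, _, rfl⟩ := Finset.mem_image.mp (hsupp hs)
    exact hsEdeg e
  · intro l hl
    rw [pairK_eq_sum x d l Q _ hsupp, Finset.sum_image (fun a _ b _ h => hsE h)]
    have hlt : ∀ i, l.count i < k + 1 := fun i =>
      Nat.lt_succ_of_le (le_trans List.count_le_length hl)
    have := congrFun hc (fun i => ⟨l.count i, hlt i⟩)
    simp only [L, LinearMap.coe_mk, AddHom.coe_mk, Pi.zero_apply] at this
    rw [← this]
    refine Finset.sum_congr rfl fun e _ => ?_
    rw [hcoeff, dl_perm d hcomm (hcan l)]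

end count

section der

/-- A derivation of an algebraic extension vanishing on the base is zero (char. 0). -/
theorem der_eq_zero_of_algebraic {F K M : Type*} [Field F] [Field K] [Algebra F K] [CharZero F]
    [Algebra.IsAlgebraic F K] [AddCommGroup M] [Module K M] (E : Derivation ℤ K M)
    (hE : ∀ a : F, E (algebraMap F K a) = 0) (c : K) : E c = 0 := by
  let _ : Module F M := Module.compHom M (algebraMap F K)
  have : IsScalarTower F K M := ⟨fun a b m => by
    change (a • b) • m = algebraMap F K a • b • m
    rw [Algebra.smul_def, mul_smul]⟩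
  let E' : Derivation F K M :=
    Derivation.mk' { toFun := E
                     map_add' := map_add E
                     map_smul' := fun a b => by
                      rw [Algebra.smul_def, Derivation.leibniz, hE, smul_zero, add_zero]
                      rfl } (fun a b => Derivation.leibniz E a b)
  have hun : Algebra.FormallyUnramified F K := Algebra.FormallyUnramified.of_isSeparable F K
  have hsub : Subsingleton (Ω[K⁄F]) := hun.subsingleton_kaehlerDifferential
  have h1 : E' c = E'.liftKaehlerDifferential (KaehlerDifferential.D F K c) := by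
    rw [Derivation.liftKaehlerDifferential_comp_D]
  have h2 : E' c = 0 := by
    rw [h1, Subsingleton.elim (KaehlerDifferential.D F K c) 0, map_zero]
  exact h2

end der

end Pool.DKak
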