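import Pool.Agent.DKak.Alg3

set_option autoImplicit false
set_option linter.unusedSectionVars false

/-!
# Theorem A: algebraic dependence over the field of first integrals
-/

namespace Pool.DKak

open MvPolynomial

variable {σ ι : Type*} [Fintype σ] [Fintype ι]
variable {F K Ω : Type*} [Field F] [Field K] [Field Ω] [Algebra F K] [Algebra K Ω] [Algebra F Ω]
  [IsScalarTower F K Ω]

/-- Conjugate of the step operation. -/
noncomputable def cstep (X : Derivation ℤ Ω Ω) (τ : K ≃ₐ[F] K) (G : Ideal (MvPolynomial σ K)) :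
    Ideal (MvPolynomial σ K) :=
  Ideal.comap (MvPolynomial.map (τ.symm : K →+* K))
    (step X (Ideal.comap (MvPolynomial.map (τ : K →+* K)) G))

theorem map_map_symm (τ : K ≃ₐ[F] K) (Q : MvPolynomial σ K) :
    MvPolynomial.map (τ : K →+* K) (MvPolynomial.map (τ.symm : K →+* K) Q) = Q := by
  ext s
  simp [coeff_map]

theorem map_symm_map (τ : K ≃ₐ[F] K) (Q : MvPolynomial σ K) :
    MvPolynomial.map (τ.symm : K →+* K) (MvPolynomial.map (τ : K →+* K) Q) = Q := by
  ext s
  simp [coeff_map]

theorem cstep_le (X : Derivation ℤ Ω Ω) (τ : K ≃ₐ[F] K) (G : Ideal (MvPolynomial σ K)) :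
    cstep X τ G ≤ G := by
  intro Q hQ
  have h1 : MvPolynomial.map (τ.symm : K →+* K) Q ∈
      Ideal.comap (MvPolynomial.map (τ : K →+* K)) G := step_le X _ hQ
  rw [Ideal.mem_comap, map_map_symm] at h1
  exact h1

theorem cstep_isPrime [IsAlgClosed K] [CharZero Ω] (X : Derivation ℤ Ω Ω) (τ : K ≃ₐ[F] K)
    {G : Ideal (MvPolynomial σ K)} (hG : G.IsPrime) : (cstep X τ G).IsPrime := by
  have h1 : (Ideal.comap (MvPolynomial.map (τ : K →+* K)) G).IsPrime := Ideal.IsPrime.comap _
  have h2 := step_isPrime X h1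
  exact Ideal.IsPrime.comap _

/-- All polynomials of degree at most `B` vanishing to order `> k` lie in `G`. -/
def VB (x : σ → K) (d : ι → Derivation ℤ K K) (B k : ℕ) (G : Ideal (MvPolynomial σ K)) : Prop :=
  ∀ Q : MvPolynomial σ K, (∀ s ∈ Q.support, s.degree ≤ B) →
    (∀ l : List ι, l.length ≤ k → pairK x d l Q = 0) → Q ∈ G

theorem pairK_map (x : σ → F) (d : ι → Derivation ℤ K K) (τ : K ≃ₐ[F] K)
    (hτ : ∀ i a, d i (τ a) = τ (d i a)) (l : List ι) (Q : MvPolynomial σ K) :
    pairK (fun j => algebraMap F K (x j)) d l (MvPolynomial.map (τ : K →+* K) Q) =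
      τ (pairK (fun j => algebraMap F K (x j)) d l Q) := by
  have hdl : ∀ (l : List ι) (a : K), dl d l (τ a) = τ (dl d l a) := by
    intro l a
    induction l with
    | nil => rfl
    | cons i l ih => rw [dl_cons, dl_cons, ih, hτ]
  rw [pairK_eq_sum _ d l _ Q.support (support_map_subset _ _), pairK, map_sum]
  refine Finset.sum_congr rfl fun s _ => ?_
  have hxp : τ (xpow (fun j => algebraMap F K (x j)) s) = xpow (fun j => algebraMap F K (x j)) s := by
    simp [xpow, Finsupp.prod, map_prod]
  rw [coeff_map, map_mul, ← hdl, hxp]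
  rfl

theorem VB_cstep [CharZero F] [Algebra.IsAlgebraic F K] (x : σ → F) (d : ι → Derivation ℤ K K)
    (hcomm : ∀ i j a, d i (d j a) = d j (d i a))
    (hdτ : ∀ (τ : K ≃ₐ[F] K) i a, d i (τ a) = τ (d i a))
    (D : ι → Derivation ℤ Ω Ω) (hD : ∀ i a, D i (algebraMap K Ω a) = algebraMap K Ω (d i a))
    (X : Derivation ℤ Ω Ω) (hX : IsTan d X)
    (hx : ∀ j, X (X (algebraMap K Ω (algebraMap F K (x j)))) = 0)
    (B k : ℕ) (G : Ideal (MvPolynomial σ K))
    (hG : VB (fun j => algebraMap F K (x j)) d B k G) (τ : K ≃ₐ[F] K) :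
    VB (fun j => algebraMap F K (x j)) d B (k + B) (cstep X τ G) := by
  intro Q hdeg hQ
  rw [cstep, Ideal.mem_comap]
  refine mem_step_of_vanish (fun j => algebraMap F K (x j)) d hcomm D hD X hX hx B k _ ?_ _ ?_ ?_
  · intro R hR1 hR2
    rw [Ideal.mem_comap]
    apply hG
    · intro s hs
      exact hR1 s (support_map_subset _ _ hs)
    · intro l hl
      rw [pairK_map x d τ (hdτ τ), hR2 l hl, map_zero]
  · intro s hs
    exact hdeg s (support_map_subset _ _ hs)
  · intro l hl
    have := pairK_map x d τ.symm (hdτ τ.symm) l Q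
    rw [hQ l hl, map_zero] at this
    exact this

/-- Existence of a prime stable under all conjugate steps. -/
theorem exists_stable [CharZero F] [CharZero Ω] [IsAlgClosed K] [Algebra.IsAlgebraic F K]
    (x : σ → F) (d : ι → Derivation ℤ K K)
    (hcomm : ∀ i j a, d i (d j a) = d j (d i a))
    (hdτ : ∀ (τ : K ≃ₐ[F] K) i a, d i (τ a) = τ (d i a))
    (D : ι → Derivation ℤ Ω Ω) (hD : ∀ i a, D i (algebraMap K Ω a) = algebraMap K Ω (d i a))
    (X : Derivation ℤ Ω Ω) (hX : IsTan d X)
    (hx : ∀ j, X (X (algebraMap K Ω (algebraMap F K (x j)))) = 0) (B : ℕ) :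
    ∃ G : Ideal (MvPolynomial σ K), G.IsPrime ∧
      VB (fun j => algebraMap F K (x j)) d B (Fintype.card σ * B) G ∧
      (∀ Q ∈ G, eval (fun j => algebraMap F K (x j)) Q = 0) ∧
      ∀ τ : K ≃ₐ[F] K, cstep X τ G = G := by
  classical
  set x' : σ → K := fun j => algebraMap F K (x j) with hx'
  by_contra hcon
  push Not at hcon
  have key : ∀ w : ℕ, w ≤ Fintype.card σ + 1 → ∃ p : LTSeries (PrimeSpectrum (MvPolynomial σ K)),
      p.length = w ∧ VB x' d B (w * B) p.head.asIdeal ∧
      ∀ Q ∈ p.head.asIdeal, eval x' Q = 0 := by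
    intro w
    induction w with
    | zero =>
      intro _
      have hp : (RingHom.ker (eval x')).IsPrime := RingHom.ker_isPrime _
      refine ⟨RelSeries.singleton _ ⟨RingHom.ker (eval x'), hp⟩, rfl, ?_, ?_⟩
      · intro Q _ hQ
        have h0 := hQ [] (by simp)
        change Q ∈ RingHom.ker (eval x')
        rw [RingHom.mem_ker, eval_eq]
        rw [pairK] at h0
        convert h0 using 2
        rfl
      · intro Q hQ
        exact hQ
    | succ w ih =>
      intro hw
      obtain ⟨p, hp1, hp2, hp3⟩ := ih (by omega)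
      have hVB : VB x' d B (Fintype.card σ * B) p.head.asIdeal := by
        intro Q h1 h2
        refine hp2 Q h1 fun l hl => h2 l (hl.trans ?_)
        exact Nat.mul_le_mul_right B (by omega)
      obtain ⟨τ, hτ⟩ := hcon p.head.asIdeal p.head.isPrime hVB hp3
      have hlt : cstep X τ p.head.asIdeal < p.head.asIdeal := lt_of_le_of_ne (cstep_le X τ _) hτ
      have hprime := cstep_isPrime X τ p.head.isPrime
      refine ⟨p.cons ⟨cstep X τ p.head.asIdeal, hprime⟩ hlt, ?_, ?_, ?_⟩
      · rw [RelSeries.cons_length, hp1]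
      · rw [RelSeries.head_cons]
        have := VB_cstep x d hcomm hdτ D hD X hX hx B (w * B) _ hp2 τ
        have hw2 : (w + 1) * B = w * B + B := by ring
        rw [hw2]
        exact this
      · rw [RelSeries.head_cons]
        intro Q hQ
        exact hp3 Q (cstep_le X τ _ hQ)
  obtain ⟨p, hp, -, -⟩ := key (Fintype.card σ + 1) le_rfl
  have h1 := Order.LTSeries.length_le_krullDim p
  have h2 : ringKrullDim (MvPolynomial σ K) = (Fintype.card σ : ℕ) := by
    rw [MvPolynomial.ringKrullDim_of_isNoetherianRing, ringKrullDim_eq_zero_of_field, zero_add,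
      Nat.card_eq_fintype_card]
  rw [ringKrullDim] at h2
  rw [h2, hp] at h1
  have h3 : Fintype.card σ + 1 ≤ Fintype.card σ := by exact_mod_cast h1
  omega

/-- **Theorem A.** -/
theorem thmA [CharZero F] [CharZero Ω] [IsAlgClosed K] [Algebra.IsAlgebraic F K]
    (hcard : Fintype.card ι < Fintype.card σ)
    (x : σ → F) (d : ι → Derivation ℤ K K)
    (hcomm : ∀ i j a, d i (d j a) = d j (d i a))
    (hdF : ∀ i (a : F), ∃ b : F, d i (algebraMap F K a) = algebraMap F K b)
    (D : ι → Derivation ℤ Ω Ω) (hD : ∀ i a, D i (algebraMap K Ω a) = algebraMap K Ω (d i a))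
    (X : Derivation ℤ Ω Ω) (hX : IsTan d X)
    (hx : ∀ j, X (X (algebraMap F Ω (x j))) = 0) :
    ∃ Q : MvPolynomial σ F, Q ≠ 0 ∧ eval x Q = 0 ∧ ∀ s, X (algebraMap F Ω (Q.coeff s)) = 0 := by
  classical
  set x' : σ → K := fun j => algebraMap F K (x j) with hx'
  have hx2 : ∀ j, X (X (algebraMap K Ω (algebraMap F K (x j)))) = 0 := by
    intro j
    rw [← IsScalarTower.algebraMap_apply]
    exact hx j
  -- commutation with automorphisms
  have hdτ : ∀ (τ : K ≃ₐ[F] K) i a, d i (τ a) = τ (d i a) := by
    intro τ i a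
    let E : Derivation ℤ K K := Derivation.mk'
      (((τ.symm : K →+* K).toAddMonoidHom.comp (((d i : K →+ K)).comp
        (τ : K →+* K).toAddMonoidHom)).toIntLinearMap - (d i : K →ₗ[ℤ] K))
      (fun a b => by
        change τ.symm (d i (τ (a * b))) - d i (a * b) =
          a • (τ.symm (d i (τ b)) - d i b) + b • (τ.symm (d i (τ a)) - d i a)
        simp only [map_mul, Derivation.leibniz, smul_eq_mul, map_add, AlgEquiv.symm_apply_apply]
        ring)
    have hE : ∀ c, E c = τ.symm (d i (τ c)) - d i c := fun c => rfl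
    have h0 := der_eq_zero_of_algebraic (F := F) E (fun b => by
      rw [hE, τ.commutes]
      obtain ⟨b', hb'⟩ := hdF i b
      rw [hb', τ.symm.commutes, sub_self]) a
    rw [hE, sub_eq_zero] at h0
    rw [← h0, AlgEquiv.apply_symm_apply]
  obtain ⟨B, Q₀, hQ₀, hQdeg, hQvan⟩ := exists_vanishing hcard x' d hcomm
  obtain ⟨G, hGp, hGV, hGx, hGτ⟩ := exists_stable x d hcomm hdτ D hD X hX hx2 B
  have hQ₀G : Q₀ ∈ G := hGV Q₀ hQdeg hQvan
  -- stability of conjugates
  have hstab : ∀ τ : K ≃ₐ[F] K, ∀ Q ∈ Ideal.comap (MvPolynomial.map (τ : K →+* K)) G,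
      Q ∈ step X (Ideal.comap (MvPolynomial.map (τ : K →+* K)) G) := by
    intro τ Q hQ
    rw [Ideal.mem_comap] at hQ
    rw [← hGτ τ, cstep, Ideal.mem_comap, map_symm_map] at hQ
    have h1 : cstep X τ G = G := hGτ τ
    convert hQ using 3
  -- minimal support
  have hex : ∃ N : ℕ, ∃ Q ∈ G, Q ≠ 0 ∧ Q.support.card = N := ⟨_, Q₀, hQ₀G, hQ₀, rfl⟩
  obtain ⟨Q₁, hQ₁G, hQ₁0, hQ₁N⟩ := Nat.find_spec hex
  have hmin : ∀ Q ∈ G, Q.support.card < Q₁.support.card → Q = 0 := by
    intro Q hQ hlt
    by_contra hne
    exact Nat.find_min hex (hQ₁N ▸ hlt) ⟨Q, hQ, hne, rfl⟩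
  obtain ⟨s₀, hs₀⟩ := MvPolynomial.ne_zero_iff.mp hQ₁0
  set Q : MvPolynomial σ K := C (Q₁.coeff s₀)⁻¹ * Q₁ with hQdef
  have hQG : Q ∈ G := G.mul_mem_left _ hQ₁G
  have hQs₀ : Q.coeff s₀ = 1 := by
    rw [hQdef, coeff_C_mul, inv_mul_cancel₀ hs₀]
  have hQsupp : Q.support = Q₁.support := by
    ext s
    rw [mem_support_iff, mem_support_iff, hQdef, coeff_C_mul]
    simp [hs₀]
  have hkill : ∀ (τ : K ≃ₐ[F] K) s, X (algebraMap K Ω (τ.symm (Q.coeff s))) = 0 := by
    intro τ s
    have h1 : MvPolynomial.map (τ.symm : K →+* K) Q ∈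
        Ideal.comap (MvPolynomial.map (τ : K →+* K)) G := by
      rw [Ideal.mem_comap, map_map_symm]
      exact hQG
    have h2 := hstab τ _ h1 1
    rw [Function.iterate_one] at h2
    have h3 : ∀ f : Ω →ₗ[K] K, cmap (f : Ω →+ K) (cder X (MvPolynomial.map (algebraMap K Ω)
        (MvPolynomial.map (τ.symm : K →+* K) Q))) = 0 := by
      intro f
      have h4 := h2 f
      rw [Ideal.mem_comap] at h4
      set R := cmap (f : Ω →+ K) (cder X (MvPolynomial.map (algebraMap K Ω)
        (MvPolynomial.map (τ.symm : K →+* K) Q))) with hR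
      have hRs : ∀ s, R.coeff s = f (X (algebraMap K Ω (τ.symm (Q.coeff s)))) := by
        intro s
        rw [hR, coeff_cmap, coeff_cder, coeff_map, coeff_map]
        rfl
      have h5 : MvPolynomial.map (τ : K →+* K) R = 0 := by
        apply hmin _ h4
        apply Finset.card_lt_card
        rw [Finset.ssubset_iff_of_subset]
        · refine ⟨s₀, ?_, ?_⟩
          · rw [mem_support_iff]
            exact hs₀
          · rw [mem_support_iff, not_not, coeff_map, hRs, hQs₀]
            simp
        · intro s hs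
          rw [← hQsupp, mem_support_iff]
          intro h0
          rw [mem_support_iff, coeff_map, hRs, h0] at hs
          apply hs
          simp
      have h6 := congrArg (MvPolynomial.map (τ.symm : K →+* K)) h5
      rw [map_symm_map, map_zero] at h6
      exact h6
    by_contra hne
    obtain ⟨f, hf⟩ := exists_functional_ne_zero (K := K) hne
    apply hf
    have := congrArg (coeff s) (h3 f)
    rw [coeff_cmap, coeff_cder, coeff_map, coeff_map, coeff_zero] at this
    exact this
  have hkill' : ∀ (τ : K ≃ₐ[F] K) s, X (algebraMap K Ω (τ (Q.coeff s))) = 0 :=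
    fun τ s => hkill τ.symm s
  have hQ0 : Q ≠ 0 := by
    intro h
    rw [h] at hQs₀
    simp at hQs₀
  -- the field of constants in `F`
  let k1 : Subfield F :=
    { carrier := {a | X (algebraMap F Ω a) = 0}
      mul_mem' := fun {a b} ha hb => by
        simp only [Set.mem_ofPred_eq] at *
        rw [map_mul, Derivation.leibniz, ha, hb, smul_zero, smul_zero, add_zero]
      one_mem' := by
        simp only [Set.mem_ofPred_eq]
        rw [map_one, Derivation.map_one_eq_zero]
      add_mem' := fun {a b} ha hb => by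
        simp only [Set.mem_ofPred_eq] at *
        rw [map_add, map_add, ha, hb, add_zero]
      zero_mem' := by simp
      neg_mem' := fun {a} ha => by
        simp only [Set.mem_ofPred_eq] at *
        rw [map_neg, map_neg, ha, neg_zero]
      inv_mem' := fun a ha => by
        simp only [Set.mem_ofPred_eq] at *
        rw [map_inv₀, Derivation.leibniz_inv, ha, smul_zero] }
  have hk1 : ∀ a : F, a ∈ k1 ↔ X (algebraMap F Ω a) = 0 := fun a => Iff.rfl
  -- the ring of elements of `K` all of whose conjugates are constants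
  let k2 : Subring K :=
    { carrier := {c | ∀ τ : K ≃ₐ[F] K, X (algebraMap K Ω (τ c)) = 0}
      mul_mem' := fun {a b} ha hb τ => by
        simp only [Set.mem_ofPred_eq] at *
        rw [map_mul, map_mul, Derivation.leibniz, ha τ, hb τ, smul_zero, smul_zero, add_zero]
      one_mem' := fun τ => by
        rw [map_one, map_one, Derivation.map_one_eq_zero]
      add_mem' := fun {a b} ha hb τ => by
        simp only [Set.mem_ofPred_eq] at *
        rw [map_add, map_add, map_add, ha τ, hb τ, add_zero]
      zero_mem' := fun τ => by simp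
      neg_mem' := fun {a} ha τ => by
        simp only [Set.mem_ofPred_eq] at *
        rw [map_neg, map_neg, map_neg, ha τ, neg_zero] }
  have hk2τ : ∀ (τ : K ≃ₐ[F] K) (c : K), c ∈ k2 → τ c ∈ k2 := by
    intro τ c hc τ'
    exact hc (τ.trans τ')
  have hclos : IsAlgClosure F K := ⟨inferInstance, inferInstance⟩
  have hnormal : Normal F K := IsAlgClosure.normal F K
  have halg : ∀ s, IsAlgebraic k1 (Q.coeff s) := by
    intro s
    set c := Q.coeff s with hc
    have hck : c ∈ k2 := fun τ => hkill' τ s
    have hint : IsIntegral F c := Algebra.IsIntegral.isIntegral c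
    -- the coefficients of the minimal polynomial lie in `k1`
    have hsplit : ((minpoly F c).map (algebraMap F K)).Splits := IsAlgClosed.splits _
    have hroots : ∀ r ∈ ((minpoly F c).map (algebraMap F K)).roots, r ∈ k2 := by
      intro r hr
      have hr' : (Polynomial.aeval r) (minpoly F c) = 0 := by
        have := (Polynomial.mem_roots'.mp hr).2
        rwa [Polynomial.IsRoot, Polynomial.eval_map_algebraMap] at this
      obtain ⟨τ, hτ⟩ := minpoly.exists_algEquiv_of_root' (Algebra.IsAlgebraic.isAlgebraic c) hr'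
      rw [← hτ]
      exact hk2τ τ c hck
    have hprod : (minpoly F c).map (algebraMap F K) =
        (((minpoly F c).map (algebraMap F K)).roots.map (fun a => Polynomial.X - Polynomial.C a)).prod := by
      have := hsplit.eq_prod_roots
      rw [Polynomial.leadingCoeff_map, (minpoly.monic hint).leadingCoeff, map_one,
        Polynomial.C_1, one_mul] at this
      exact this
    have hmem : (minpoly F c).map (algebraMap F K) ∈ Polynomial.lifts k2.subtype := by
      rw [hprod]
      apply Subsemiring.multiset_prod_mem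
      intro q hq
      obtain ⟨r, hr, rfl⟩ := Multiset.mem_map.mp hq
      refine (Polynomial.mem_lifts _).mpr ⟨Polynomial.X - Polynomial.C ⟨r, hroots r hr⟩, ?_⟩
      rw [Polynomial.map_sub, Polynomial.map_X, Polynomial.map_C]
      rfl
    have hcoef : ∀ j, (minpoly F c).coeff j ∈ k1 := by
      intro j
      rw [hk1]
      obtain ⟨q, hq⟩ := (Polynomial.mem_lifts _).mp hmem
      have h1 := congrArg (fun p => Polynomial.coeff p j) hq
      simp only [Polynomial.coeff_map] at h1
      have h2 : (q.coeff j : K) ∈ k2 := (q.coeff j).2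
      have h3 := h2 AlgEquiv.refl
      have h4 : (k2.subtype (q.coeff j) : K) = (q.coeff j : K) := rfl
      rw [h4] at h1
      rw [h1] at h3
      rw [IsScalarTower.algebraMap_apply F K Ω]
      exact h3
    have hlift : minpoly F c ∈ Polynomial.lifts k1.subtype := by
      rw [Polynomial.lifts_iff_coeff_lifts]
      intro j
      exact ⟨⟨_, hcoef j⟩, rfl⟩
    obtain ⟨q, hq⟩ := (Polynomial.mem_lifts _).mp hlift
    refine ⟨q, ?_, ?_⟩
    · rintro rfl
      rw [Polynomial.map_zero] at hq
      exact minpoly.ne_zero hint hq.symm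
    · have h1 : Polynomial.aeval c (q.map k1.subtype) = 0 := by
        rw [hq]; exact minpoly.aeval F c
      rw [← h1, Polynomial.aeval_def, Polynomial.aeval_def, Polynomial.eval₂_map]
      rfl
  -- conclusion
  by_contra hno
  push Not at hno
  have hind : AlgebraicIndependent k1 x' := by
    rw [algebraicIndependent_iff]
    intro p hp
    by_contra hp0
    have h1 : MvPolynomial.map (k1.subtype : k1 →+* F) p ≠ 0 := by
      intro h
      apply hp0
      exact MvPolynomial.map_injective _ k1.subtype_injective (by rw [h, map_zero])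
    have h2 : eval x (MvPolynomial.map (k1.subtype : k1 →+* F) p) = 0 := by
      apply (algebraMap F K).injective
      rw [map_zero, ← hp, eval_map, aeval_def]
      rw [MvPolynomial.eval₂_comp_left]
      rfl
    obtain ⟨s, hs⟩ := hno _ h1 h2
    apply hs
    rw [coeff_map]
    exact (p.coeff s).2
  have hind2 := hind.algebraicClosure
  rw [algebraicIndependent_iff] at hind2
  have hQl : ∃ p : MvPolynomial σ (algebraicClosure k1 K),
      MvPolynomial.map (algebraMap (algebraicClosure k1 K) K) p = Q := by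
    have : Q ∈ Set.range (MvPolynomial.map (algebraMap (algebraicClosure k1 K) K) :
        MvPolynomial σ (algebraicClosure k1 K) →+* MvPolynomial σ K) := by
      rw [MvPolynomial.mem_range_map_iff_coeffs_subset]
      intro a ha
      rw [Finset.mem_coe, mem_coeffs_iff] at ha
      obtain ⟨s, _, rfl⟩ := ha
      exact ⟨⟨Q.coeff s, mem_algebraicClosure_iff.mpr (halg s)⟩, rfl⟩
    exact this
  obtain ⟨p, hp⟩ := hQl
  have hp0 : p = 0 := by
    apply hind2
    rw [aeval_def, ← eval_map, hp]
    exact hGx Q hQG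
  apply hQ0
  rw [← hp, hp0, map_zero]

end Pool.DKak
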