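import Pool.Agent.DKak.Proj

set_option autoImplicit false
set_option linter.unusedSectionVars false

/-!
# The label step
-/

namespace Pool.DKak

open MvPolynomial

/-- If `B A' = A B'` then `A / B` is constant. -/
theorem wronsk_const (A B : Polynomial ℝ)
    (h : B * Polynomial.derivative A = A * Polynomial.derivative B) (s : ℝ) (hs : B.eval s ≠ 0) :
    A = Polynomial.C (A.eval s / B.eval s) * B := by
  set c := A.eval s / B.eval s with hc
  set E := A - Polynomial.C c * B with hE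
  have hE' : B * Polynomial.derivative E = E * Polynomial.derivative B := by
    rw [hE, map_sub, Polynomial.derivative_C_mul, mul_sub, sub_mul, h]
    ring
  have hEs : E.eval s = 0 := by
    rw [hE, Polynomial.eval_sub, Polynomial.eval_mul, Polynomial.eval_C, hc,
      div_mul_cancel₀ _ hs, sub_self]
  by_contra hne
  have hE0 : E ≠ 0 := fun h0 => hne (sub_eq_zero.mp h0)
  obtain ⟨F, hF, hFd⟩ := Polynomial.exists_eq_pow_rootMultiplicity_mul_and_not_dvd E hE0 s
  have hm : 0 < E.rootMultiplicity s := (Polynomial.rootMultiplicity_pos hE0).mpr hEs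
  obtain ⟨m, hm'⟩ : ∃ m, E.rootMultiplicity s = m + 1 := ⟨_, (Nat.succ_pred_eq_of_pos hm).symm⟩
  rw [hm'] at hF
  have hFs : F.eval s ≠ 0 := fun h0 => hFd (Polynomial.dvd_iff_isRoot.mpr h0)
  have h1 : Polynomial.derivative E =
      (Polynomial.X - Polynomial.C s) ^ m * (Polynomial.C ((m : ℝ) + 1) * F +
        (Polynomial.X - Polynomial.C s) * Polynomial.derivative F) := by
    rw [hF, Polynomial.derivative_mul, Polynomial.derivative_pow]
    simp only [Polynomial.derivative_sub, Polynomial.derivative_X, Polynomial.derivative_C,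
      sub_zero, mul_one, Nat.add_sub_cancel, Nat.cast_add, Nat.cast_one]
    ring
  rw [h1, hF] at hE'
  have hX : (Polynomial.X - Polynomial.C s : Polynomial ℝ) ^ m ≠ 0 :=
    pow_ne_zero _ (Polynomial.X_sub_C_ne_zero s)
  have h2 : B * (Polynomial.C ((m : ℝ) + 1) * F +
        (Polynomial.X - Polynomial.C s) * Polynomial.derivative F) =
      (Polynomial.X - Polynomial.C s) * F * Polynomial.derivative B := by
    apply mul_left_cancel₀ hX
    linear_combination hE'
  have h3 := congrArg (Polynomial.eval s) h2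
  simp only [Polynomial.eval_mul, Polynomial.eval_add, Polynomial.eval_sub, Polynomial.eval_X,
    Polynomial.eval_C, sub_self, zero_mul, add_zero] at h3
  have hm0 : (m : ℝ) + 1 ≠ 0 := by positivity
  exact mul_ne_zero hs (mul_ne_zero hm0 hFs) h3

/-- The polynomial with given label. -/
noncomputable def labPoly {σ : Type*} (S : Finset (σ →₀ ℕ)) (c : (σ →₀ ℕ) → ℝ) :
    MvPolynomial σ ℝ :=
  ∑ s ∈ S, monomial s (c s)

/-- **The label step.** -/
theorem class_step {n A : ℕ} {d : ℕ → ℕ} {c : ℝ} (hc : 0 ≤ c) (hM : MainAt n (A * 4 ^ n) d c)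
    (t N D : ℕ) (S : Finset (Fin (n + 1) →₀ ℕ)) (hSt : ∀ s ∈ S, s.degree ≤ t)
    (a : (Fin (n + 1) →₀ ℕ) → MvPolynomial (Fin (n + 1)) ℝ) (s₀ : Fin (n + 1) →₀ ℕ)
    (hs₀ : s₀ ∈ S) (ha : ∀ s, (a s).totalDegree ≤ D) (hD : 4 * D ≤ N)
    (G : Finset (Set (Fin (n + 1) → ℝ))) (P : Finset (Fin (n + 1) → ℝ))
    (hG : ∀ l ∈ G, ∃ q u : Fin (n + 1) → ℝ, u ≠ 0 ∧
      (∀ x, x ∈ l ↔ ∃ s : ℝ, x = fun k => q k + u k * s) ∧
      restr q u (a s₀) ≠ 0 ∧
      (∀ s ∈ S, restr q u (a s₀) * Polynomial.derivative (restr q u (a s)) =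
          restr q u (a s) * Polynomial.derivative (restr q u (a s₀))) ∧
      ∑ s ∈ S, restr q u (a s) *
          s.prod (fun k e => (Polynomial.C (q k) + Polynomial.C (u k) * Polynomial.X) ^ e) = 0)
    (hR : ∀ l ∈ G, ∃ T ⊆ P, (∀ x ∈ T, x ∈ l) ∧ N ≤ 2 * T.card)
    (hH : ∀ r, 1 < r → r ≤ n → ∀ S : Set (MvPolynomial (Fin (n + 1)) ℝ),
      (∀ p ∈ S, p.totalDegree ≤ max (d r) t) → dimZ S ≤ ((r : ℕ∞) : WithBot ℕ∞) →
      ∀ T ⊆ G, (∀ l ∈ T, l ⊆ Zs S) → T.card ≤ A * N ^ (r - 1)) :
    c * G.card * N ≤ 4 * (t : ℝ) ^ 2 * P.card := by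
  classical
  let label : (Fin (n + 1) → ℝ) → (Fin (n + 1) →₀ ℕ) → ℝ := fun x s =>
    if s ∈ S then eval x (a s) / eval x (a s₀) else 0
  have hlabS : ∀ x s, s ∈ S → label x s = eval x (a s) / eval x (a s₀) := fun x s hs => if_pos hs
  -- the label of a line
  have hline : ∀ l ∈ G, ∃ lam : (Fin (n + 1) →₀ ℕ) → ℝ,
      (∀ x ∈ l, eval x (a s₀) ≠ 0 → label x = lam) ∧ lam s₀ = 1 ∧
        ∀ x ∈ l, eval x (labPoly S lam) = 0 := by
    intro l hl
    obtain ⟨q, u, hu, h, h0, hW, hsum⟩ := hG l hl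
    obtain ⟨s₁, hs₁⟩ : ∃ s, (restr q u (a s₀)).eval s ≠ 0 := by
      by_contra hcon
      push Not at hcon
      apply h0
      apply Polynomial.funext
      intro s
      rw [hcon s, Polynomial.eval_zero]
    set x₁ : Fin (n + 1) → ℝ := fun k => q k + u k * s₁ with hx₁
    have hx₁a : eval x₁ (a s₀) ≠ 0 := by rw [← eval_restr]; exact hs₁
    have hrest : ∀ s ∈ S, restr q u (a s) = Polynomial.C (label x₁ s) * restr q u (a s₀) := by
      intro s hs
      rw [hlabS _ _ hs, ← eval_restr, ← eval_restr]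
      exact wronsk_const _ _ (hW s hs) s₁ hs₁
    refine ⟨label x₁, ?_, ?_, ?_⟩
    · intro x hx hxa
      obtain ⟨s₂, rfl⟩ := (h x).mp hx
      funext s
      by_cases hs : s ∈ S
      · rw [hlabS _ _ hs]
        have h1 := congrArg (Polynomial.eval s₂) (hrest s hs)
        rw [Polynomial.eval_mul, Polynomial.eval_C, eval_restr, eval_restr] at h1
        rw [h1, mul_div_cancel_right₀ _ hxa]
      · change (if s ∈ S then _ else _) = (if s ∈ S then _ else _)
        rw [if_neg hs, if_neg hs]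
    · rw [hlabS _ _ hs₀, div_self hx₁a]
    · rw [← restr_eq_zero_iff h]
      have h1 : restr q u (a s₀) * restr q u (labPoly S (label x₁)) = 0 := by
        rw [← hsum, labPoly, map_sum, Finset.mul_sum]
        refine Finset.sum_congr rfl fun s hs => ?_
        rw [hrest s hs]
        have h2 : restr q u (monomial s (label x₁ s)) = Polynomial.C (label x₁ s) *
            s.prod (fun k e => (Polynomial.C (q k) + Polynomial.C (u k) * Polynomial.X) ^ e) := by
          rw [restr_eq_subst, subst, aeval_monomial]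
          rfl
        rw [h2]
        ring
      exact (mul_eq_zero.mp h1).resolve_left h0
  choose! lab hlab₁ hlab₂ hlab₃ using hline
  set N' := (N + 3) / 4 with hN'
  have hNN' : N ≤ 4 * N' := by omega
  let Gc : ((Fin (n + 1) →₀ ℕ) → ℝ) → Finset (Set (Fin (n + 1) → ℝ)) := fun lam =>
    G.filter (fun l => lab l = lam)
  let Pc : ((Fin (n + 1) →₀ ℕ) → ℝ) → Finset (Fin (n + 1) → ℝ) := fun lam =>
    P.filter (fun x => eval x (a s₀) ≠ 0 ∧ label x = lam)
  have hclass : ∀ lam ∈ G.image lab, c * (Gc lam).card * N ≤ 4 * (t : ℝ) ^ 2 * (Pc lam).card := by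
    intro lam hlam
    obtain ⟨l₀, hl₀, hl₀'⟩ := Finset.mem_image.mp hlam
    have hlam1 : lam s₀ = 1 := by rw [← hl₀']; exact hlab₂ l₀ hl₀
    have hQcoeff : coeff s₀ (labPoly S lam) = 1 := by
      rw [labPoly, coeff_sum, Finset.sum_eq_single s₀]
      · rw [coeff_monomial, if_pos rfl, hlam1]
      · intro b _ hb
        rw [coeff_monomial, if_neg hb]
      · intro h; exact absurd hs₀ h
    have hQ0 : labPoly S lam ≠ 0 := by
      intro h
      rw [h, coeff_zero] at hQcoeff
      exact zero_ne_one hQcoeff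
    have hQt : (labPoly S lam).totalDegree ≤ t := by
      refine totalDegree_finsetSum_le fun s hs => ?_
      exact (totalDegree_monomial_le _ _).trans (hSt s hs)
    have hstep := proj_step hc hM t N' (labPoly S lam) hQ0 hQt (Gc lam) (Pc lam) (by
      intro l hl
      obtain ⟨q, u, hu, h, -⟩ := hG l (Finset.mem_filter.mp hl).1
      exact ⟨q, u, hu, h⟩) (by
      intro l hl x hx
      rw [Finset.mem_filter] at hl
      rw [← hl.2]
      exact hlab₃ l hl.1 x hx) (by
      intro r hr hrn S' hS' hdim T hT hTS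
      refine (hH r hr hrn S' hS' hdim T (hT.trans (Finset.filter_subset _ _)) hTS).trans ?_
      calc A * N ^ (r - 1) ≤ A * (4 * N') ^ (r - 1) :=
            Nat.mul_le_mul_left _ (Nat.pow_le_pow_left hNN' _)
        _ = A * 4 ^ (r - 1) * N' ^ (r - 1) := by rw [mul_pow]; ring
        _ ≤ A * 4 ^ n * N' ^ (r - 1) :=
            Nat.mul_le_mul_right _ (Nat.mul_le_mul_left _
              (Nat.pow_le_pow_right (by norm_num) (by omega)))) (by
      intro l hl
      rw [Finset.mem_filter] at hl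
      obtain ⟨T, hTP, hTl, hTN⟩ := hR l hl.1
      obtain ⟨q, u, hu, h, h0, -⟩ := hG l hl.1
      refine ⟨T.filter (fun x => eval x (a s₀) ≠ 0), ?_, ?_, ?_⟩
      · intro x hx
        rw [Finset.mem_filter] at hx ⊢
        refine ⟨hTP hx.1, hx.2, ?_⟩
        rw [← hl.2]
        exact hlab₁ l hl.1 x (hTl x hx.1) hx.2
      · intro x hx
        exact hTl x (Finset.mem_filter.mp hx).1
      · have h1 : (T.filter (fun x => ¬ (eval x (a s₀) ≠ 0))).card ≤ D := by
          refine (card_zeros_le hu h (a s₀) h0 _ ?_).trans (ha s₀)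
          intro x hx
          rw [Finset.mem_filter, not_not] at hx
          exact ⟨hTl x hx.1, hx.2⟩
        have h2 := Finset.card_filter_add_card_filter_not (s := T)
          (fun x => eval x (a s₀) ≠ 0)
        omega)
    have hNr : (N : ℝ) ≤ 4 * N' := by exact_mod_cast hNN'
    calc c * (Gc lam).card * N ≤ c * (Gc lam).card * (4 * N') := by gcongr
      _ = 4 * (c * (Gc lam).card * N') := by ring
      _ ≤ 4 * ((t : ℝ) ^ 2 * (Pc lam).card) := by gcongr
      _ = 4 * (t : ℝ) ^ 2 * (Pc lam).card := by ring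
  have hGsum : G.card = ∑ lam ∈ G.image lab, (Gc lam).card := Finset.card_eq_sum_card_image lab G
  have hPsum : ∑ lam ∈ G.image lab, (Pc lam).card ≤ P.card := by
    rw [← Finset.card_biUnion]
    · refine Finset.card_le_card ?_
      intro x hx
      obtain ⟨lam, -, hx'⟩ := Finset.mem_biUnion.mp hx
      exact (Finset.mem_filter.mp hx').1
    · intro l₁ _ l₂ _ hne
      change Disjoint (Pc l₁) (Pc l₂)
      rw [Finset.disjoint_left]
      intro x hx hx'
      exact hne ((Finset.mem_filter.mp hx).2.2.symm.trans (Finset.mem_filter.mp hx').2.2)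
  have hPsum' : ∑ lam ∈ G.image lab, ((Pc lam).card : ℝ) ≤ P.card := by exact_mod_cast hPsum
  calc c * G.card * N = ∑ lam ∈ G.image lab, c * (Gc lam).card * N := by
        rw [hGsum, Nat.cast_sum, Finset.mul_sum, Finset.sum_mul]
    _ ≤ ∑ lam ∈ G.image lab, 4 * (t : ℝ) ^ 2 * (Pc lam).card := Finset.sum_le_sum hclass
    _ = 4 * (t : ℝ) ^ 2 * ∑ lam ∈ G.image lab, ((Pc lam).card : ℝ) := by rw [Finset.mul_sum]
    _ ≤ 4 * (t : ℝ) ^ 2 * P.card := by gcongr

end Pool.DKak
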