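import Mathlib

set_option autoImplicit false

/-!
# Extension of derivations to field extensions in characteristic zero
-/

namespace Pool.DKak

open Algebra

/-- Any extension of fields of characteristic zero is formally smooth. -/
theorem formallySmooth_of_charZero (K L : Type*) [Field K] [Field L] [Algebra K L] [CharZero K] :
    Algebra.FormallySmooth K L := by
  obtain ⟨ι, v, hv⟩ := exists_isTranscendenceBasis' K L
  have : Algebra.IsAlgebraic (IntermediateField.adjoin K (Set.range v)) L := hv.isAlgebraic_field
  have : CharZero (IntermediateField.adjoin K (Set.range v)) :=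
    charZero_of_injective_algebraMap (algebraMap K _).injective
  exact .of_algebraicIndependent_of_isSeparable hv.1

/-- Extension of derivations along a field extension (characteristic zero). -/
theorem exists_ext_field {K L : Type*} [Field K] [Field L] [Algebra K L] [CharZero K]
    (ψ : K →+* TrivSqZeroExt L L) (hψ : ∀ a, (ψ a).fst = algebraMap K L a) :
    ∃ D : Derivation ℤ L L, ∀ a, D (algebraMap K L a) = (ψ a).snd := by
  classical
  have hs := formallySmooth_of_charZero K L
  let alg : Algebra K (TrivSqZeroExt L L) := ψ.toAlgebra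
  have halg : ∀ a : K, (algebraMap K (TrivSqZeroExt L L)) a = ψ a := fun a => rfl
  let g : TrivSqZeroExt L L →ₐ[K] L :=
    { (TrivSqZeroExt.fstHom ℤ L L).toRingHom with
      commutes' := fun a => by
        change (ψ a).fst = _
        exact hψ a }
  have hg : ∀ z, g z = z.fst := fun z => rfl
  have hsurj : Function.Surjective g := fun a => ⟨TrivSqZeroExt.inl a, by simp [hg]⟩
  have hnil : IsNilpotent (RingHom.ker (g : TrivSqZeroExt L L →+* L)) := by
    refine ⟨2, ?_⟩
    have h2 : (RingHom.ker (g : TrivSqZeroExt L L →+* L)) ^ 2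
        = (RingHom.ker (g : TrivSqZeroExt L L →+* L)) * (RingHom.ker (g : TrivSqZeroExt L L →+* L)) :=
      sq _
    refine h2.trans ?_
    rw [Ideal.zero_eq_bot, eq_bot_iff, Ideal.mul_le]
    intro r hr s hs
    have hr' : r.fst = 0 := hr
    have hs' : s.fst = 0 := hs
    rw [Ideal.mem_bot]
    ext <;> simp [hr', hs']
  let h := Algebra.FormallySmooth.liftOfSurjective (AlgHom.id K L) g hsurj hnil
  have hh : ∀ x, (h x).fst = x := fun x => by
    have := Algebra.FormallySmooth.liftOfSurjective_apply (AlgHom.id K L) g hsurj hnil x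
    simpa [hg] using this
  refine ⟨Derivation.mk' ((TrivSqZeroExt.sndHom L L).toAddMonoidHom.comp
      (h : L →+* TrivSqZeroExt L L).toAddMonoidHom).toIntLinearMap ?_, ?_⟩
  · intro a b
    change (h (a * b)).snd = a • (h b).snd + b • (h a).snd
    rw [map_mul, TrivSqZeroExt.snd_mul, hh, hh]
    simp [mul_comm]
  · intro a
    change (h (algebraMap K L a)).snd = (ψ a).snd
    rw [h.commutes, halg]

/-- Extension of derivations along a ring homomorphism to a field of characteristic zero. -/
theorem exists_ext {A Ω : Type*} [CommRing A] [Field Ω] [CharZero Ω] (φ : A →+* Ω)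
    (δ : A → Ω) (hadd : ∀ a b, δ (a + b) = δ a + δ b)
    (hmul : ∀ a b, δ (a * b) = φ a * δ b + φ b * δ a)
    (hker : ∀ a, φ a = 0 → δ a = 0) :
    ∃ D : Derivation ℤ Ω Ω, ∀ a, D (φ a) = δ a := by
  classical
  have hδ1 : δ 1 = 0 := by
    have := hmul 1 1
    simp only [mul_one, map_one, one_mul] at this
    exact left_eq_add.mp this
  have hδ0 : δ 0 = 0 := hker 0 (map_zero φ)
  -- the ring hom to the dual numbers
  let ψ : A →+* TrivSqZeroExt Ω Ω :=
    { toFun := fun a => TrivSqZeroExt.inl (φ a) + TrivSqZeroExt.inr (δ a)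
      map_one' := by ext <;> simp [hδ1]
      map_zero' := by ext <;> simp [hδ0]
      map_add' := fun a b => by ext <;> simp [hadd]
      map_mul' := fun a b => by
        ext
        · simp
        · simp [hmul, mul_comm] }
  have hψ1 : ∀ a, (ψ a).fst = φ a := fun a => by simp [ψ]
  have hψ2 : ∀ a, (ψ a).snd = δ a := fun a => by simp [ψ]
  let p := RingHom.ker φ
  have hp : p.IsPrime := RingHom.ker_isPrime φ
  let B := A ⧸ p
  let φB : B →+* Ω := Ideal.Quotient.lift p φ (fun a ha => ha)
  have hφB : Function.Injective φB := by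
    rw [injective_iff_map_eq_zero]
    intro b hb
    obtain ⟨a, rfl⟩ := Ideal.Quotient.mk_surjective b
    change φ a = 0 at hb
    exact Ideal.Quotient.eq_zero_iff_mem.mpr hb
  let ψB : B →+* TrivSqZeroExt Ω Ω := Ideal.Quotient.lift p ψ (fun a ha => by
    have ha' : φ a = 0 := ha
    ext
    · simp [hψ1, ha']
    · simp [hψ2, hker a ha'])
  have hψB : ∀ b, (ψB b).fst = φB b := by
    intro b
    obtain ⟨a, rfl⟩ := Ideal.Quotient.mk_surjective b
    change (ψ a).fst = φ a
    exact hψ1 a
  let F := FractionRing B
  let φF : F →+* Ω := IsFractionRing.lift (A := B) (K := F) hφB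
  have hunit : ∀ y : nonZeroDivisors B, IsUnit (ψB y) := by
    intro y
    rw [TrivSqZeroExt.isUnit_iff_isUnit_fst, hψB]
    have : (y : B) ≠ 0 := nonZeroDivisors.ne_zero y.2
    exact isUnit_iff_ne_zero.mpr (by simpa using (map_ne_zero_iff φB hφB).mpr this)
  let ψF : F →+* TrivSqZeroExt Ω Ω := IsLocalization.lift (M := nonZeroDivisors B) hunit
  let _ : Algebra F Ω := φF.toAlgebra
  have hFchar : CharZero F := by
    refine ⟨fun m n hmn => ?_⟩
    have := congrArg φF hmn
    rw [map_natCast, map_natCast] at this
    exact_mod_cast this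
  have hcomp : ∀ f : F, (ψF f).fst = algebraMap F Ω f := by
    have : (TrivSqZeroExt.fstHom ℤ Ω Ω).toRingHom.comp ψF = φF := by
      apply IsLocalization.ringHom_ext (nonZeroDivisors B)
      ext b
      change (ψF (algebraMap B F (Ideal.Quotient.mk p b))).fst = φF (algebraMap B F (Ideal.Quotient.mk p b))
      rw [IsLocalization.lift_eq, hψB]
      simp [φF]
    intro f
    exact RingHom.congr_fun this f
  obtain ⟨D, hD⟩ := exists_ext_field (K := F) (L := Ω) ψF hcomp
  refine ⟨D, fun a => ?_⟩
  have h1 : φ a = algebraMap F Ω (algebraMap B F (Ideal.Quotient.mk p a)) := by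
    change φ a = φF (algebraMap B F (Ideal.Quotient.mk p a))
    simp only [φF, IsFractionRing.lift_algebraMap]
    rfl
  rw [h1, hD]
  change (ψF (algebraMap B F (Ideal.Quotient.mk p a))).snd = _
  rw [IsLocalization.lift_eq]
  change (ψ a).snd = _
  exact hψ2 a

end Pool.DKak
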