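import Pool.Agent.DKak.Ext
import Pool.Agent.DKak.Alg4

set_option autoImplicit false
set_option linter.unusedSectionVars false

/-!
# Theorem B: from a ring with commuting derivations to first integrals
-/

namespace Pool.DKak

open MvPolynomial

/-- A derivation of a field vanishing on the image of a ring hom vanishes on the generated
subfield. -/
theorem der_zero_on_closure {A Ω : Type*} [CommRing A] [Field Ω] (φ : A →+* Ω)
    (E : Derivation ℤ Ω Ω) (hE : ∀ a, E (φ a) = 0) (c : Ω)
    (hc : c ∈ Subfield.closure (Set.range φ)) : E c = 0 := by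
  induction hc using Subfield.closure_induction with
  | mem x hx => obtain ⟨a, rfl⟩ := hx; exact hE a
  | one => exact Derivation.map_one_eq_zero _
  | add x y _ _ hx hy => rw [map_add, hx, hy, add_zero]
  | neg x _ hx => rw [map_neg, hx, neg_zero]
  | inv x _ hx => rw [Derivation.leibniz_inv, hx, smul_zero]
  | mul x y _ _ hx hy => rw [Derivation.leibniz, hx, hy, smul_zero, smul_zero, add_zero]

/-- A derivation mapping the image of a ring hom to the generated subfield preserves it. -/
theorem der_mem_closure {A Ω : Type*} [CommRing A] [Field Ω] (φ : A →+* Ω)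
    (E : Derivation ℤ Ω Ω) (hE : ∀ a, E (φ a) ∈ Subfield.closure (Set.range φ)) (c : Ω)
    (hc : c ∈ Subfield.closure (Set.range φ)) : E c ∈ Subfield.closure (Set.range φ) := by
  induction hc using Subfield.closure_induction with
  | mem x hx => obtain ⟨a, rfl⟩ := hx; exact hE a
  | one => rw [Derivation.map_one_eq_zero]; exact Subfield.zero_mem _
  | add x y _ _ hx hy => rw [map_add]; exact Subfield.add_mem _ hx hy
  | neg x _ hx => rw [map_neg]; exact Subfield.neg_mem _ hx
  | inv x hx' hx =>
    rw [Derivation.leibniz_inv, smul_eq_mul, neg_mul]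
    exact Subfield.neg_mem _ (Subfield.mul_mem _ (Subfield.pow_mem _ (Subfield.inv_mem _ hx') _) hx)
  | mul x y hx' hy' hx hy =>
    rw [Derivation.leibniz, smul_eq_mul, smul_eq_mul]
    exact Subfield.add_mem _ (Subfield.mul_mem _ hx' hy) (Subfield.mul_mem _ hy' hx)

/-- A family of reduced vectors spanning a subspace of `F^σ`. -/
theorem exists_reduced {σ F : Type*} [Fintype σ] [DecidableEq σ] [Field F]
    (N : Submodule F (σ → F)) :
    ∃ J : Finset σ, ∃ a : J → (σ → F), (∀ i, a i ∈ N) ∧
      (∀ i k : J, a i k = if k = i then 1 else 0) ∧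
      (∀ w ∈ N, (∀ k : J, w k = 0) → w = 0) := by
  classical
  have hex : ∃ m : ℕ, ∃ J : Finset σ, J.card = m ∧ ∀ w ∈ N, (∀ k ∈ J, w k = 0) → w = 0 :=
    ⟨_, Finset.univ, rfl, fun w _ h => funext fun k => h k (Finset.mem_univ k)⟩
  obtain ⟨J, hJc, hJ⟩ := Nat.find_spec hex
  have hb : ∀ i : J, ∃ b ∈ N, b ≠ 0 ∧ ∀ k ∈ J.erase i, b k = 0 := by
    intro i
    by_contra hcon
    push Not at hcon
    have hlt : (J.erase i).card < Nat.find hex := by
      rw [← hJc]
      exact Finset.card_erase_lt_of_mem i.2
    apply Nat.find_min hex hlt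
    refine ⟨J.erase i, rfl, fun w hw h0 => ?_⟩
    by_contra hne
    obtain ⟨k, hk, hk0⟩ := hcon w hw hne
    exact hk0 (h0 k hk)
  choose b hbN hb0 hbk using hb
  have hbi : ∀ i : J, b i i ≠ 0 := by
    intro i h0
    apply hb0 i
    apply hJ _ (hbN i)
    intro k hk
    by_cases hki : k = i
    · rw [hki]; exact h0
    · exact hbk i k (Finset.mem_erase.mpr ⟨hki, hk⟩)
  refine ⟨J, fun i => (b i i)⁻¹ • b i, fun i => N.smul_mem _ (hbN i), ?_, ?_⟩
  · intro i k
    change (b i i)⁻¹ * b i k = _
    split_ifs with h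
    · rw [h, inv_mul_cancel₀ (hbi i)]
    · rw [hbk i k (Finset.mem_erase.mpr ⟨fun h' => h (Subtype.ext h'), k.2⟩), mul_zero]
  · intro w hw h0
    exact hJ w hw fun k hk => h0 ⟨k, hk⟩

/-- **Theorem B.** -/
theorem thmB {σ A Ω : Type*} [Fintype σ] [CommRing A] [Field Ω] [CharZero Ω] [IsAlgClosed Ω]
    (φ : A →+* Ω) (p : σ → Derivation ℤ A A) (hpc : ∀ k l a, p k (p l a) = p l (p k a))
    (x : σ → A)
    (X : Derivation ℤ Ω Ω) (v : σ → Ω) (hxv : ∀ k, X (φ (x k)) = v k) (hv : ∀ k, X (v k) = 0)
    (hX : ∀ a, X (φ a) = ∑ k, v k * φ (p k a))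
    (f : A) (hf : φ f = 0) (k₀ : σ) (hk₀ : φ (p k₀ f) ≠ 0) :
    ∃ Q : MvPolynomial σ A, (∃ s, φ (Q.coeff s) ≠ 0) ∧ eval₂ φ (fun k => φ (x k)) Q = 0 ∧
      ∀ s t, φ (Q.coeff s) * X (φ (Q.coeff t)) = φ (Q.coeff t) * X (φ (Q.coeff s)) := by
  classical
  set F : Subfield Ω := Subfield.closure (Set.range φ) with hF
  have hφF : ∀ a, φ a ∈ F := fun a => Subfield.subset_closure ⟨a, rfl⟩
  let K : IntermediateField F Ω := algebraicClosure F Ω
  have hKclos : IsAlgClosure F K := algebraicClosure.isAlgClosure F Ω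
  have hKac : IsAlgClosed K := hKclos.isAlgClosed
  have hKalg : Algebra.IsAlgebraic F K := hKclos.isAlgebraic
  have hFchar : CharZero F := ⟨fun m n h => by
    have := congrArg (algebraMap F Ω) h
    rw [map_natCast, map_natCast] at this
    exact_mod_cast this⟩
  -- the linear relations
  let N : Submodule F (σ → F) :=
    { carrier := {a | ∀ g, φ g = 0 → ∑ k, (a k : Ω) * φ (p k g) = 0}
      add_mem' := fun {a b} ha hb g hg => by
        have h1 := ha g hg
        have h2 := hb g hg
        simp only [Pi.add_apply, Subfield.coe_add, add_mul, Finset.sum_add_distrib]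
        rw [h1, h2, add_zero]
      zero_mem' := fun g _ => by simp
      smul_mem' := fun c a ha g hg => by
        have h1 := ha g hg
        simp only [Pi.smul_apply, smul_eq_mul, Subfield.coe_mul, mul_assoc, ← Finset.mul_sum]
        rw [h1, mul_zero] }
  have hN : ∀ a : σ → F, a ∈ N ↔ ∀ g, φ g = 0 → ∑ k, (a k : Ω) * φ (p k g) = 0 := fun a => Iff.rfl
  obtain ⟨J, a, haN, haJ, hdet⟩ := exists_reduced N
  have hJuniv : J ≠ Finset.univ := by
    intro h
    apply hk₀
    have hmem : ∀ k, k ∈ J := fun k => by rw [h]; exact Finset.mem_univ k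
    have h1 := haN ⟨k₀, hmem k₀⟩ f hf
    rw [← h1, Finset.sum_eq_single k₀]
    · have := haJ ⟨k₀, hmem k₀⟩ ⟨k₀, hmem k₀⟩
      simp only [if_true] at this
      rw [this]
      simp
    · intro k _ hk
      have := haJ ⟨k₀, hmem k₀⟩ ⟨k, hmem k⟩
      simp only [Subtype.mk.injEq, hk, if_false] at this
      rw [this]
      simp
    · intro h; exact absurd (Finset.mem_univ _) h
  have hcard : Fintype.card J < Fintype.card σ := by
    rw [Fintype.card_coe]
    exact Finset.card_lt_card (Finset.ssubset_univ_iff.mpr hJuniv)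
  -- the derivations
  have hDex : ∀ i : J, ∃ D : Derivation ℤ Ω Ω, ∀ g, D (φ g) = ∑ k, (a i k : Ω) * φ (p k g) := by
    intro i
    refine exists_ext φ (fun g => ∑ k, (a i k : Ω) * φ (p k g)) ?_ ?_ ?_
    · intro g h
      simp only [map_add, mul_add, Finset.sum_add_distrib]
    · intro g h
      simp only [Derivation.leibniz, smul_eq_mul, map_add, map_mul, Finset.mul_sum,
        ← Finset.sum_add_distrib]
      refine Finset.sum_congr rfl fun k _ => ?_
      ring
    · intro g hg
      exact haN i g hg
  choose D hDφ using hDex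
  -- `F` is preserved
  have hDF : ∀ i, ∀ c ∈ F, D i c ∈ F := by
    intro i c hc
    refine der_mem_closure φ (D i) (fun g => ?_) c hc
    rw [hDφ]
    exact Subfield.sum_mem _ fun k _ => Subfield.mul_mem _ (a i k).2 (hφF _)
  -- `K` is preserved
  have hDK : ∀ i, ∀ c : K, D i (c : Ω) ∈ K := by
    intro i c
    let S : Submodule K Ω := LinearMap.range (Algebra.linearMap K Ω)
    have hS : ∀ ω : Ω, ω ∈ S ↔ ω ∈ K := by
      intro ω
      constructor
      · rintro ⟨c, rfl⟩
        exact c.2
      · intro h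
        exact ⟨⟨ω, h⟩, rfl⟩
    let E : Derivation ℤ K (Ω ⧸ S) := S.mkQ.compDer ((D i).compAlgebraMap K)
    have hE : ∀ c : K, E c = S.mkQ (D i (c : Ω)) := fun c => rfl
    have h0 := der_eq_zero_of_algebraic (F := F) E (fun b => by
      rw [hE]
      rw [Submodule.mkQ_apply, Submodule.Quotient.mk_eq_zero, hS]
      have h1 : D i ((algebraMap F K b : K) : Ω) ∈ F := hDF i _ b.2
      have h2 : algebraMap F Ω ⟨_, h1⟩ ∈ K := K.algebraMap_mem _
      exact h2) c
    rw [hE, Submodule.mkQ_apply, Submodule.Quotient.mk_eq_zero, hS] at h0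
    exact h0
  let d : J → Derivation ℤ K K := fun i => Derivation.mk'
    { toFun := fun c => ⟨D i (c : Ω), hDK i c⟩
      map_add' := fun c c' => Subtype.ext (by
        change D i ((c + c' : K) : Ω) = D i c + D i c'
        rw [IntermediateField.coe_add, map_add])
      map_smul' := fun n c => Subtype.ext (by
        change D i ((n • c : K) : Ω) = n • D i c
        rw [← map_zsmul]
        rfl) }
    (fun c c' => Subtype.ext (by
      change D i ((c * c' : K) : Ω) = (c : Ω) * D i c' + (c' : Ω) * D i c
      rw [IntermediateField.coe_mul, Derivation.leibniz, smul_eq_mul, smul_eq_mul]))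
  have hd : ∀ i (c : K), D i (algebraMap K Ω c) = algebraMap K Ω (d i c) := fun i c => rfl
  have hdF : ∀ i (b : F), ∃ b' : F, d i (algebraMap F K b) = algebraMap F K b' := by
    intro i b
    exact ⟨⟨D i (b : Ω), hDF i _ b.2⟩, Subtype.ext rfl⟩
  -- extension from `φ(A)` to `K`
  have hext : ∀ E : Derivation ℤ Ω Ω, (∀ g, E (φ g) = 0) → ∀ c : K, E (c : Ω) = 0 := by
    intro E hE c
    let E' : Derivation ℤ K Ω := E.compAlgebraMap K
    have hE' : ∀ c : K, E' c = E (c : Ω) := fun c => rfl
    rw [← hE']
    refine der_eq_zero_of_algebraic (F := F) E' (fun b => ?_) c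
    rw [hE']
    exact der_zero_on_closure φ E hE _ b.2
  -- commutation
  have hcommφ : ∀ i j g, ⁅D i, D j⁆ (φ g) = 0 := by
    intro i j
    have hmem : ∀ i (c : F), D i (c : Ω) ∈ F := fun i c => hDF i _ c.2
    let e : σ → F := fun k => ⟨D i (a j k : Ω), hmem i _⟩ - ⟨D j (a i k : Ω), hmem j _⟩
    have he : ∀ k, (e k : Ω) = D i (a j k : Ω) - D j (a i k : Ω) := fun k => rfl
    have hcomp : ∀ g, ⁅D i, D j⁆ (φ g) = ∑ k, (e k : Ω) * φ (p k g) := by
      intro g
      rw [Derivation.commutator_apply, hDφ, hDφ, map_sum, map_sum]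
      simp only [Derivation.leibniz, smul_eq_mul, hDφ, he, Finset.sum_add_distrib, Finset.mul_sum,
        sub_mul, Finset.sum_sub_distrib]
      have h1 : ∑ k, ∑ l, (a j k : Ω) * ((a i l : Ω) * φ (p l (p k g))) =
          ∑ k, ∑ l, (a i k : Ω) * ((a j l : Ω) * φ (p l (p k g))) := by
        rw [Finset.sum_comm]
        refine Finset.sum_congr rfl fun k _ => Finset.sum_congr rfl fun l _ => ?_
        rw [hpc k l g]
        ring
      rw [h1]
      have h2 : ∀ (E : Derivation ℤ Ω Ω) (b : σ → F),
          ∑ k, φ (p k g) * E (b k : Ω) = ∑ k, E (b k : Ω) * φ (p k g) :=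
        fun E b => Finset.sum_congr rfl fun k _ => mul_comm _ _
      rw [h2, h2]
      ring
    have heN : e ∈ N := by
      rw [hN]
      intro g hg
      rw [← hcomp, hg, map_zero]
    have he0 : e = 0 := by
      apply hdet e heN
      intro k
      apply Subtype.ext
      rw [he, haJ, haJ]
      split_ifs <;> simp
    intro g
    rw [hcomp, he0]
    simp
  have hcomm : ∀ i j c, d i (d j c) = d j (d i c) := by
    intro i j c
    have h1 := hext _ (hcommφ i j) c
    rw [Derivation.commutator_apply, sub_eq_zero] at h1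
    exact Subtype.ext h1
  -- `X` is tangent
  have hXtan : IsTan d X := by
    refine ⟨fun i => v i, fun c => ?_⟩
    let E : Derivation ℤ Ω Ω := X - ∑ i : J, v i • D i
    have hE : ∀ ω, E ω = X ω - ∑ i : J, v i * D i ω := by
      intro ω
      change (X - ∑ i : J, v i • D i) ω = _
      rw [Derivation.sub_apply]
      congr 1
      have : ∀ s : Finset J, (∑ i ∈ s, v i • D i) ω = ∑ i ∈ s, v i * D i ω := by
        intro s
        induction s using Finset.induction_on with
        | empty => simp
        | insert i s hi ih =>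
          rw [Finset.sum_insert hi, Finset.sum_insert hi, Derivation.add_apply, ih,
            Derivation.smul_apply, smul_eq_mul]
      exact this _
    let u : σ → Ω := fun k => v k - ∑ i : J, v i * (a i k : Ω)
    have hu : ∀ k, u k = 0 := by
      intro k
      by_contra hne
      obtain ⟨r, hr⟩ := exists_functional_ne_zero (K := F) hne
      apply hr
      have hwN : (fun k => r (v k)) ∈ N := by
        rw [hN]
        intro g hg
        have h1 : r (∑ k, v k * φ (p k g)) = 0 := by
          rw [← hX, hg, map_zero, map_zero]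
        have h2 : r (∑ k, v k * φ (p k g)) = ∑ k, r (v k) * ⟨φ (p k g), hφF _⟩ := by
          rw [map_sum]
          refine Finset.sum_congr rfl fun k _ => ?_
          have : v k * φ (p k g) = (⟨φ (p k g), hφF _⟩ : F) • v k := by
            rw [Algebra.smul_def, mul_comm]
            rfl
          rw [this, map_smul, smul_eq_mul, mul_comm]
        rw [h2] at h1
        have h3 := congrArg (fun z : F => (z : Ω)) h1
        simpa using h3
      have hw2 : (fun k => r (v k)) - ∑ i : J, r (v i) • a i = 0 := by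
        apply hdet
        · exact N.sub_mem hwN (N.sum_mem fun i _ => N.smul_mem _ (haN i))
        · intro k
          rw [Pi.sub_apply, Finset.sum_apply]
          simp only [Pi.smul_apply, smul_eq_mul, haJ]
          simp
      have hw3 := congrFun hw2 k
      rw [Pi.sub_apply, Finset.sum_apply, Pi.zero_apply, sub_eq_zero] at hw3
      simp only [Pi.smul_apply, smul_eq_mul] at hw3
      change r (v k - ∑ i : J, v i * (a i k : Ω)) = 0
      rw [map_sub, map_sum, hw3, sub_eq_zero]
      refine Finset.sum_congr rfl fun i _ => ?_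
      have : v i * (a i k : Ω) = (a i k : F) • v i := by
        rw [Algebra.smul_def, mul_comm]
        rfl
      rw [this, map_smul, smul_eq_mul, mul_comm]
    have hEφ : ∀ g, E (φ g) = 0 := by
      intro g
      rw [hE, hX]
      simp only [hDφ]
      have h1 : ∑ i : J, v i * ∑ k, (a i k : Ω) * φ (p k g) =
          ∑ k, (∑ i : J, v i * (a i k : Ω)) * φ (p k g) := by
        simp only [Finset.mul_sum, Finset.sum_mul]
        rw [Finset.sum_comm]
        refine Finset.sum_congr rfl fun k _ => Finset.sum_congr rfl fun i _ => ?_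
        ring
      rw [h1, ← Finset.sum_sub_distrib]
      refine Finset.sum_eq_zero fun k _ => ?_
      rw [← sub_mul]
      have := hu k
      change v k - ∑ i : J, v i * (a i k : Ω) = 0 at this
      rw [this, zero_mul]
    have h1 := hext E hEφ c
    rw [hE, sub_eq_zero] at h1
    exact h1
  -- apply Theorem A
  let xF : σ → F := fun k => ⟨φ (x k), hφF _⟩
  obtain ⟨Q, hQ0, hQx, hQX⟩ := thmA (F := F) (K := K) (Ω := Ω) hcard xF d hcomm hdF D hd X hXtan
    (fun k => by
      change X (X (φ (x k))) = 0
      rw [hxv, hv])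
  -- clear denominators
  have hfrac : ∀ c : F, ∃ g h : A, φ h ≠ 0 ∧ (c : Ω) = φ g / φ h := by
    intro c
    have hc : (c : Ω) ∈ Subfield.closure (Set.range φ) := c.2
    rw [Subfield.mem_closure_iff] at hc
    obtain ⟨y, hy, z, hz, hyz⟩ := hc
    have hrange : Subring.closure (Set.range φ) = φ.range := by
      rw [← RingHom.coe_range, Subring.closure_eq]
    rw [hrange] at hy hz
    obtain ⟨g, rfl⟩ := hy
    obtain ⟨h, rfl⟩ := hz
    by_cases hh : φ h = 0
    · refine ⟨0, 1, by simp, ?_⟩
      rw [← hyz, hh]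
      simp
    · exact ⟨g, h, hh, hyz.symm⟩
  choose num den hden hnd using hfrac
  set bden : A := ∏ s ∈ Q.support, den (Q.coeff s) with hbden
  have hbden0 : φ bden ≠ 0 := by
    rw [hbden, map_prod]
    exact Finset.prod_ne_zero_iff.mpr fun s _ => hden _
  let anum : (σ →₀ ℕ) → A := fun s =>
    num (Q.coeff s) * ∏ t ∈ Q.support.erase s, den (Q.coeff t)
  have hanum : ∀ s ∈ Q.support, φ (anum s) = ((Q.coeff s : F) : Ω) * φ bden := by
    intro s hs
    simp only [anum]
    rw [hbden, ← Finset.mul_prod_erase _ _ hs, map_mul, map_mul, hnd (Q.coeff s)]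
    field_simp [hden (Q.coeff s)]
  set Q' : MvPolynomial σ A := ∑ s ∈ Q.support, monomial s (anum s) with hQ'
  have hcoef : ∀ t, φ (Q'.coeff t) = ((Q.coeff t : F) : Ω) * φ bden := by
    intro t
    rw [hQ', coeff_sum]
    simp only [coeff_monomial]
    rw [Finset.sum_ite_eq']
    split_ifs with ht
    · exact hanum t ht
    · rw [notMem_support_iff.mp ht]
      simp
  refine ⟨Q', ?_, ?_, ?_⟩
  · obtain ⟨s, hs⟩ := MvPolynomial.ne_zero_iff.mp hQ0
    refine ⟨s, ?_⟩
    rw [hcoef]
    refine mul_ne_zero ?_ hbden0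
    intro h
    exact hs (Subtype.ext h)
  · rw [hQ', eval₂_sum]
    simp only [eval₂_monomial]
    have h1 : ∀ s ∈ Q.support, φ (anum s) * (s.prod fun n e => φ (x n) ^ e) =
        φ bden * (((Q.coeff s : F) : Ω) * s.prod fun n e => φ (x n) ^ e) := by
      intro s hs
      rw [hanum s hs]
      ring
    rw [Finset.sum_congr rfl h1, ← Finset.mul_sum]
    have h2 : ∑ s ∈ Q.support, ((Q.coeff s : F) : Ω) * (s.prod fun n e => φ (x n) ^ e) = 0 := by
      have := congrArg (fun z : F => (z : Ω)) hQx
      rw [eval_eq] at this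
      simp only [xF] at this
      rw [← Subfield.coe_zero F, ← this]
      simp [Finsupp.prod]
    rw [h2, mul_zero]
  · intro s t
    have hXc : ∀ t, X (φ (Q'.coeff t)) = ((Q.coeff t : F) : Ω) * X (φ bden) := by
      intro t
      rw [hcoef, Derivation.leibniz, smul_eq_mul, smul_eq_mul]
      have := hQX t
      change X ((Q.coeff t : F) : Ω) = 0 at this
      rw [this]
      ring
    rw [hXc, hXc, hcoef, hcoef]
    ring

end Pool.DKak
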