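import Pool.Agent.DKak.Ultra

set_option autoImplicit false
set_option linter.unusedSectionVars false

/-!
# Lines, zero sets, projections
-/

namespace Pool.DKak

open MvPolynomial

/-! ### Leading coefficients along a direction -/

section Lead

variable {σ : Type*} {R : Type*} [CommRing R] [Algebra ℝ R]

/-- Substituting `a + b T`. -/
noncomputable def subst (a b : σ → R) : MvPolynomial σ ℝ →ₐ[ℝ] Polynomial R :=
  aeval (fun k => Polynomial.C (a k) + Polynomial.C (b k) * Polynomial.X)

theorem subst_monomial (a b : σ → R) (s : σ →₀ ℕ) :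
    (subst a b (monomial s 1)).natDegree ≤ s.degree ∧
      (subst a b (monomial s 1)).coeff s.degree = aeval b (monomial s (1 : ℝ)) := by
  induction s using Finsupp.induction_linear with
  | zero =>
    have h : (monomial (0 : σ →₀ ℕ) (1 : ℝ)) = 1 := rfl
    rw [h, map_one, map_one, map_zero]
    simp
  | add f g hf hg =>
    have h : (monomial (f + g) (1 : ℝ)) = monomial f 1 * monomial g 1 := by
      rw [monomial_mul, one_mul]
    rw [h, map_mul, map_mul, map_add]
    refine ⟨Polynomial.natDegree_mul_le.trans (add_le_add hf.1 hg.1), ?_⟩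
    rw [Polynomial.coeff_mul_add_eq_of_natDegree_le hf.1 hg.1, hf.2, hg.2]
  | single k m =>
    have h : (monomial (Finsupp.single k m) (1 : ℝ)) = X k ^ m := by
      rw [X_pow_eq_monomial]
    have hd : (Finsupp.single k m).degree = m * 1 := by
      rw [mul_one]
      simp
    have h1 : (Polynomial.C (a k) + Polynomial.C (b k) * Polynomial.X).natDegree ≤ 1 := by
      compute_degree
    rw [h, map_pow, map_pow, hd]
    simp only [subst, aeval_X]
    refine ⟨Polynomial.natDegree_pow_le_of_le m h1, ?_⟩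
    rw [Polynomial.coeff_pow_of_natDegree_le h1]
    simp

theorem subst_lead (a b : σ → R) (f : MvPolynomial σ ℝ) (e : ℕ) (hf : f.totalDegree ≤ e) :
    (subst a b f).natDegree ≤ e ∧
      (subst a b f).coeff e = aeval b (homogeneousComponent e f) := by
  classical
  have hterm : ∀ s c, subst a b (monomial s c) = c • subst a b (monomial s 1) := by
    intro s c
    rw [← map_smul, smul_monomial, smul_eq_mul, mul_one]
  have hterm2 : ∀ s (c : ℝ), aeval b (monomial s c) = c • aeval b (monomial s (1 : ℝ)) := by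
    intro s c
    rw [← map_smul, smul_monomial, smul_eq_mul, mul_one]
  have hs : ∀ s ∈ f.support, s.degree ≤ e := fun s hs => (le_totalDegree hs).trans hf
  constructor
  · conv_lhs => rw [f.as_sum, map_sum]
    refine Polynomial.natDegree_sum_le_of_forall_le _ _ fun s hs' => ?_
    rw [hterm]
    exact (Polynomial.natDegree_smul_le _ _).trans ((subst_monomial a b s).1.trans (hs s hs'))
  · conv_lhs => rw [f.as_sum, map_sum, Polynomial.finsetSum_coeff]
    rw [homogeneousComponent_apply, map_sum, Finset.sum_filter]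
    refine Finset.sum_congr rfl fun s hs' => ?_
    rw [hterm, Polynomial.coeff_smul]
    split_ifs with h
    · rw [hterm2, ← h, (subst_monomial a b s).2]
    · rw [Polynomial.coeff_eq_zero_of_natDegree_lt, smul_zero]
      exact (subst_monomial a b s).1.trans_lt (lt_of_le_of_ne (hs s hs') h)

end Lead

theorem restr_eq_subst {σ : Type*} [Fintype σ] (q u : σ → ℝ) (f : MvPolynomial σ ℝ) :
    restr q u f = subst q u f := rfl

theorem natDegree_restr_le {σ : Type*} [Fintype σ] (q u : σ → ℝ) (f : MvPolynomial σ ℝ) :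
    (restr q u f).natDegree ≤ f.totalDegree :=
  (subst_lead q u f _ le_rfl).1

theorem coeff_restr {σ : Type*} [Fintype σ] (q u : σ → ℝ) (f : MvPolynomial σ ℝ) (e : ℕ)
    (hf : f.totalDegree ≤ e) :
    (restr q u f).coeff e = eval u (homogeneousComponent e f) := by
  rw [restr_eq_subst, (subst_lead q u f e hf).2]
  rfl

/-- A direction along which the top form does not vanish. -/
theorem exists_dir {n : ℕ} (f : MvPolynomial (Fin (n + 1)) ℝ) (hf : f ≠ 0) :
    ∃ w : Fin n → ℝ, eval (Fin.cons 1 w) (homogeneousComponent f.totalDegree f) ≠ 0 := by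
  classical
  have h0 : homogeneousComponent f.totalDegree f ≠ 0 := by
    obtain ⟨s, hs, hs'⟩ : ∃ s ∈ f.support, f.totalDegree = s.degree := by
      have hne : f.support.Nonempty := by
        rw [Finset.nonempty_iff_ne_empty, Ne, support_eq_empty]
        exact hf
      obtain ⟨s, hs, h⟩ := Finset.exists_mem_eq_sup f.support hne (fun s => s.degree)
      exact ⟨s, hs, h⟩
    intro h
    have h1 := congrArg (coeff s) h
    rw [coeff_homogeneousComponent, if_pos hs'.symm, coeff_zero] at h1
    exact (mem_support_iff.mp hs) h1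
  have h1 : homogeneousComponent f.totalDegree f * X 0 ≠ 0 := mul_ne_zero h0 (X_ne_zero 0)
  obtain ⟨v, hv⟩ : ∃ v, eval v (homogeneousComponent f.totalDegree f * X 0) ≠ 0 := by
    by_contra hcon
    push Not at hcon
    apply h1
    apply MvPolynomial.funext
    intro x
    rw [hcon x, map_zero]
  rw [map_mul, eval_X] at hv
  have hv0 : v 0 ≠ 0 := right_ne_zero_of_mul hv
  have hv1 := left_ne_zero_of_mul hv
  refine ⟨fun k => v k.succ / v 0, ?_⟩
  have h2 : v = fun k => v 0 * (Fin.cons 1 (fun k => v k.succ / v 0) : Fin (n + 1) → ℝ) k := by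
    funext k
    refine Fin.cases ?_ (fun j => ?_) k
    · simp
    · simp only [Fin.cons_succ]
      field_simp
  have h3 : ∀ (c : ℝ) (y : Fin (n + 1) → ℝ) (e : ℕ) (g : MvPolynomial (Fin (n + 1)) ℝ),
      eval (fun k => c * y k) (homogeneousComponent e g) =
        c ^ e * eval y (homogeneousComponent e g) := by
    intro c y e g
    rw [homogeneousComponent_apply, map_sum, map_sum, Finset.mul_sum]
    refine Finset.sum_congr rfl fun s hs => ?_
    rw [eval_monomial, eval_monomial]
    have h4 : (s.prod fun k e => (c * y k) ^ e) = c ^ s.degree * s.prod fun k e => y k ^ e := by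
      simp only [mul_pow]
      rw [Finsupp.prod_mul]
      congr 1
      rw [Finsupp.prod, Finset.prod_pow_eq_pow_sum]
      rfl
    rw [h4, (Finset.mem_filter.mp hs).2]
    ring
  intro h
  apply hv1
  rw [h2, h3, h, mul_zero]

/-! ### Krull dimension of integral extensions -/

theorem ringKrullDim_le_of_isIntegral {A B : Type*} [CommRing A] [CommRing B] (f : A →+* B)
    (hf : f.IsIntegral) : ringKrullDim B ≤ ringKrullDim A := by
  let _ := f.toAlgebra
  have : Algebra.IsIntegral A B := ⟨hf⟩
  refine Order.krullDim_le_of_strictMono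
    (fun I => (⟨Ideal.comap f I.asIdeal, inferInstance⟩ : PrimeSpectrum A)) ?_
  intro I J h
  exact Ideal.IsIntegral.comap_lt_comap (R := A) (I := I.asIdeal) (J := J.asIdeal) h

/-! ### Zero sets -/

/-- The zero set of a set of polynomials. -/
def Zs {n : ℕ} (S : Set (MvPolynomial (Fin n) ℝ)) : Set (Fin n → ℝ) :=
  {x | ∀ p ∈ S, eval x p = 0}

/-- The ideal of the zero set. -/
noncomputable def IZ {n : ℕ} (S : Set (MvPolynomial (Fin n) ℝ)) :
    Ideal (MvPolynomial (Fin n) ℝ) :=
  RingHom.ker (Pi.ringHom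
    (fun x : {x : Fin n → ℝ // ∀ p ∈ S, MvPolynomial.eval x p = 0} => MvPolynomial.eval x.1))

/-- The dimension of the zero set. -/
noncomputable def dimZ {n : ℕ} (S : Set (MvPolynomial (Fin n) ℝ)) : WithBot ℕ∞ :=
  ringKrullDim (MvPolynomial (Fin n) ℝ ⧸ IZ S)

theorem mem_IZ {n : ℕ} (S : Set (MvPolynomial (Fin n) ℝ)) (f : MvPolynomial (Fin n) ℝ) :
    f ∈ IZ S ↔ ∀ x, (∀ p ∈ S, eval x p = 0) → eval x f = 0 := by
  rw [IZ, RingHom.mem_ker, funext_iff]
  constructor
  · intro h x hx
    exact h ⟨x, hx⟩
  · intro h x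
    exact h x.1 x.2

/-- Projection along `(1, w)`. -/
def prj {n : ℕ} (w : Fin n → ℝ) (x : Fin (n + 1) → ℝ) : Fin n → ℝ :=
  fun k => x k.succ - w k * x 0

/-- Pull-back along the projection. -/
noncomputable def pull {n : ℕ} (w : Fin n → ℝ) :
    MvPolynomial (Fin n) ℝ →ₐ[ℝ] MvPolynomial (Fin (n + 1)) ℝ :=
  aeval (fun k => X k.succ - C (w k) * X 0)

theorem eval_pull {n : ℕ} (w : Fin n → ℝ) (x : Fin (n + 1) → ℝ) (p : MvPolynomial (Fin n) ℝ) :
    eval x (pull w p) = eval (prj w x) p := by
  induction p using MvPolynomial.induction_on with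
  | C a => simp [pull, algebraMap_eq]
  | add p q hp hq => simp [hp, hq]
  | mul_X p k hp =>
    rw [map_mul, map_mul, map_mul, hp, eval_X]
    simp [pull, prj]

theorem totalDegree_pull_le {n : ℕ} (w : Fin n → ℝ) (p : MvPolynomial (Fin n) ℝ) :
    (pull w p).totalDegree ≤ p.totalDegree := by
  classical
  conv_lhs => rw [p.as_sum, map_sum]
  refine totalDegree_finsetSum_le fun s hs => ?_
  refine le_trans ?_ (le_totalDegree hs)
  rw [pull, aeval_monomial, Finsupp.prod]
  refine (totalDegree_mul _ _).trans ?_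
  rw [algebraMap_eq, totalDegree_C, zero_add]
  refine (totalDegree_finsetProd _ _).trans ?_
  refine Finset.sum_le_sum fun k _ => ?_
  refine (totalDegree_pow _ _).trans ?_
  have h : (X k.succ - C (w k) * X 0 : MvPolynomial (Fin (n + 1)) ℝ).totalDegree ≤ 1 := by
    refine (totalDegree_sub _ _).trans (max_le ?_ ?_)
    · rw [totalDegree_X]
    · refine (totalDegree_mul _ _).trans ?_
      rw [totalDegree_C, totalDegree_X]
  calc s k * _ ≤ s k * 1 := Nat.mul_le_mul_left _ h
    _ = s k := mul_one _

/-- The change of variables. -/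
noncomputable def Ψ {n : ℕ} (w : Fin n → ℝ) :
    Polynomial (MvPolynomial (Fin n) ℝ) →+* MvPolynomial (Fin (n + 1)) ℝ :=
  Polynomial.eval₂RingHom (pull w).toRingHom (X 0)

/-- The inverse change of variables. -/
noncomputable def Φ {n : ℕ} (w : Fin n → ℝ) :
    MvPolynomial (Fin (n + 1)) ℝ →ₐ[ℝ] Polynomial (MvPolynomial (Fin n) ℝ) :=
  subst (Fin.cons 0 X) (fun k => C ((Fin.cons 1 w : Fin (n + 1) → ℝ) k))

theorem Ψ_Φ {n : ℕ} (w : Fin n → ℝ) (f : MvPolynomial (Fin (n + 1)) ℝ) : Ψ w (Φ w f) = f := by
  induction f using MvPolynomial.induction_on with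
  | C a =>
    have h : Φ w (C a) = Polynomial.C (C a) := by
      have := (Φ w).commutes a
      rw [algebraMap_eq] at this
      rw [this]
      rfl
    rw [h]
    simp [Ψ, pull, algebraMap_eq]
  | add p q hp hq => rw [map_add, map_add, hp, hq]
  | mul_X p k hp =>
    rw [map_mul, map_mul, hp]
    congr 1
    rw [Φ, subst, aeval_X]
    refine Fin.cases ?_ (fun j => ?_) k
    · simp [Ψ]
    · simp [Ψ, pull, algebraMap_eq]

theorem dimZ_pull_le {n : ℕ} (w : Fin n → ℝ) (Q : MvPolynomial (Fin (n + 1)) ℝ)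
    (hQ : eval (Fin.cons 1 w) (homogeneousComponent Q.totalDegree Q) ≠ 0)
    (S : Set (MvPolynomial (Fin n) ℝ)) :
    dimZ (insert Q (pull w '' S)) ≤ dimZ S := by
  classical
  set c := eval (Fin.cons 1 w) (homogeneousComponent Q.totalDegree Q) with hc
  have hle : IZ S ≤ (IZ (insert Q (pull w '' S))).comap (pull w).toRingHom := by
    intro f hf
    rw [Ideal.mem_comap]
    change pull w f ∈ _
    rw [mem_IZ] at hf ⊢
    intro x hx
    rw [eval_pull]
    apply hf
    intro p hp
    rw [← eval_pull]
    exact hx _ (Set.mem_insert_of_mem _ ⟨p, hp, rfl⟩)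
  have hQm : Q ∈ IZ (insert Q (pull w '' S)) := by
    rw [mem_IZ]
    intro x hx
    exact hx _ (Set.mem_insert _ _)
  set J := IZ (insert Q (pull w '' S)) with hJ
  let F : MvPolynomial (Fin n) ℝ ⧸ IZ S →+* MvPolynomial (Fin (n + 1)) ℝ ⧸ J :=
    Ideal.quotientMap J (pull w).toRingHom hle
  have hF : ∀ g, F (Ideal.Quotient.mk _ g) = Ideal.Quotient.mk _ (pull w g) := fun g =>
    Ideal.quotientMap_mk
  -- the variable `x₀` is integral
  have hX0 : F.IsIntegralElem (Ideal.Quotient.mk J (X 0)) := by
    let P₀ : Polynomial (MvPolynomial (Fin n) ℝ) := Φ w (C c⁻¹ * Q)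
    have hdeg : (C c⁻¹ * Q).totalDegree ≤ Q.totalDegree := by
      refine (totalDegree_mul _ _).trans ?_
      rw [totalDegree_C, zero_add]
    have h1 := subst_lead (R := MvPolynomial (Fin n) ℝ) (Fin.cons 0 X)
      (fun k => C ((Fin.cons 1 w : Fin (n + 1) → ℝ) k)) (C c⁻¹ * Q) Q.totalDegree hdeg
    have hlead : P₀.coeff Q.totalDegree = 1 := by
      change (subst _ _ _).coeff _ = 1
      rw [h1.2, homogeneousComponent_C_mul]
      have h2 : ∀ g : MvPolynomial (Fin (n + 1)) ℝ,
          aeval (fun k => (C ((Fin.cons 1 w : Fin (n + 1) → ℝ) k) : MvPolynomial (Fin n) ℝ)) g =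
            C (eval (Fin.cons 1 w) g) := by
        intro g
        induction g using MvPolynomial.induction_on with
        | C a => simp [algebraMap_eq]
        | add p q hp hq => rw [map_add, map_add, map_add, hp, hq]
        | mul_X p k hp => rw [map_mul, map_mul, map_mul, hp, aeval_X, eval_X]
      rw [h2, map_mul, eval_C, ← hc, inv_mul_cancel₀ hQ, C_1]
    have hmon : P₀.Monic := Polynomial.monic_of_natDegree_le_of_coeff_eq_one _ h1.1 hlead
    refine ⟨P₀.map (Ideal.Quotient.mk _), hmon.map _, ?_⟩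
    rw [Polynomial.eval₂_map]
    have h3 : F.comp (Ideal.Quotient.mk (IZ S)) =
        (Ideal.Quotient.mk J).comp (pull w).toRingHom := by
      exact RingHom.ext fun g => hF g
    rw [h3]
    have h4 : Polynomial.eval₂ ((Ideal.Quotient.mk J).comp (pull w).toRingHom)
        (Ideal.Quotient.mk J (X 0)) P₀ = Ideal.Quotient.mk J (Ψ w P₀) := by
      rw [Ψ, Polynomial.coe_eval₂RingHom, Polynomial.hom_eval₂]
    rw [h4, Ψ_Φ, Ideal.Quotient.eq_zero_iff_mem]
    exact J.mul_mem_left _ hQm
  have hint : F.IsIntegral := by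
    intro b
    obtain ⟨g, rfl⟩ := Ideal.Quotient.mk_surjective b
    induction g using MvPolynomial.induction_on with
    | C a =>
      have h1 : (C a : MvPolynomial (Fin (n + 1)) ℝ) = pull w (C a) := by
        simp [pull, algebraMap_eq]
      rw [h1, ← hF]
      exact F.isIntegralElem_map
    | add p q hp hq => rw [map_add]; exact hp.add _ hq
    | mul_X p k hp =>
      rw [map_mul]
      refine hp.mul _ ?_
      refine Fin.cases hX0 (fun j => ?_) k
      have h1 : (X j.succ : MvPolynomial (Fin (n + 1)) ℝ) = pull w (X j) + pull w (C (w j)) * X 0 := by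
        simp [pull, algebraMap_eq]
      rw [h1, map_add, map_mul, ← hF, ← hF]
      exact (F.isIntegralElem_map).add _ ((F.isIntegralElem_map).mul _ hX0)
  exact ringKrullDim_le_of_isIntegral F hint

theorem dimZ_empty_le (n : ℕ) (S : Set (MvPolynomial (Fin n) ℝ)) : dimZ S ≤ ((n : ℕ∞) : WithBot ℕ∞) := by
  refine (ringKrullDim_quotient_le _).trans ?_
  rw [MvPolynomial.ringKrullDim_of_isNoetherianRing, ringKrullDim_eq_zero_of_field, zero_add]
  simp

end Pool.DKak
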