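import Pool.Agent.DKak.Prep

set_option autoImplicit false
set_option linter.unusedSectionVars false

/-!
# The induction
-/

namespace Pool.DKak

open MvPolynomial Filter

/-- An ultrafilter avoiding an ideal of small sets. -/
theorem exists_ultra {Λ : Type*} (small : Set Λ → Prop) (h0 : small ∅)
    (hmono : ∀ t, small t → ∀ s ⊆ t, small s) (hunion : ∀ s, small s → ∀ t, small t → small (s ∪ t))
    (huniv : ¬ small Set.univ) : ∃ 𝒱 : Ultrafilter Λ, ∀ s ∈ 𝒱, ¬ small s := by
  let F : Filter Λ := Filter.comk small h0 hmono hunion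
  have hF : F.NeBot := by
    rw [Filter.neBot_iff]
    intro h
    have h1 : (∅ : Set Λ) ∈ F := by rw [h]; exact Filter.mem_bot
    rw [Filter.mem_comk, Set.compl_empty] at h1
    exact huniv h1
  refine ⟨Ultrafilter.of F, fun s hs hsm => ?_⟩
  have h1 : sᶜ ∈ F := by
    rw [Filter.mem_comk, compl_compl]
    exact hsm
  have h2 : sᶜ ∈ Ultrafilter.of F := Ultrafilter.of_le F h1
  exact (Ultrafilter.compl_mem_iff_notMem.mp h2) hs

/-- The induction statement. -/
def Main (n : ℕ) : Prop := ∀ A : ℕ, ∃ d : ℕ → ℕ, ∃ c : ℝ, 0 < c ∧ MainAt n A d c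

theorem main_one : Main 1 := by
  intro A
  refine ⟨fun _ => 0, 1, one_pos, ?_⟩
  intro N L P hL _ hR
  have huniv : ∀ l ∈ L, l = Set.univ := by
    intro l hl
    obtain ⟨q, u, hu, h⟩ := hL l hl
    have hu0 : u 0 ≠ 0 := by
      intro h0
      apply hu
      funext k
      rw [Subsingleton.elim k 0, h0]
      rfl
    ext x
    rw [h x]
    refine ⟨fun _ => trivial, fun _ => ⟨(x 0 - q 0) / u 0, ?_⟩⟩
    funext k
    rw [Subsingleton.elim k 0]
    field_simp
    ring
  have hcard : L.card ≤ 1 := Finset.card_le_one.mpr fun a ha b hb => by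
    rw [huniv a ha, huniv b hb]
  rcases Nat.eq_zero_or_pos L.card with h0 | hpos
  · rw [h0]; simp
  · have h1 : L.card = 1 := le_antisymm hcard hpos
    obtain ⟨l, hl⟩ := Finset.card_pos.mp hpos
    obtain ⟨T, hT, -, hTN⟩ := hR l hl
    have h2 : N ≤ P.card := hTN.trans (Finset.card_le_card hT)
    rw [h1]
    simp only [Nat.cast_one, one_mul]
    exact_mod_cast h2

theorem main_step (n : ℕ) (hn : 1 ≤ n) (hM : Main n) : Main (n + 1) := by
  classical
  intro A
  by_contra hcon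
  push Not at hcon
  -- the counterexamples
  have hctr : ∀ i : ℕ, ∃ (N : ℕ) (L : Finset (Set (Fin (n + 1) → ℝ)))
      (P : Finset (Fin (n + 1) → ℝ)), (∀ l ∈ L, IsLine l) ∧ Hyp (n + 1) A (fun _ => i) N L ∧
      (∀ l ∈ L, Rich N P l) ∧
      (A + 1) * (2 * (n + 1) * (i + 1)) ^ (n + 1) * P.card < L.card * N := by
    intro i
    set B : ℕ := (A + 1) * (2 * (n + 1) * (i + 1)) ^ (n + 1) with hB
    have hBpos : 0 < B := by positivity
    have hBr : (0 : ℝ) < B := by exact_mod_cast hBpos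
    have h1 := hcon (fun _ => i) (1 / B) (by positivity)
    unfold MainAt at h1
    push Not at h1
    obtain ⟨N, L, P, h2, h3, h4, h5⟩ := h1
    refine ⟨N, L, P, h2, h3, h4, ?_⟩
    have h6 : (B : ℝ) * P.card < L.card * N := by
      calc (B : ℝ) * P.card < B * (1 / B * L.card * N) := by gcongr
        _ = L.card * N := by field_simp
    exact_mod_cast h6
  choose N L P hL hH hR hsmall using hctr
  have hcard : ∀ i, (L i).card ≤ A * N i ^ n := by
    intro i
    have := hH i (n + 1) (by omega) le_rfl ∅ (fun p hp => absurd hp (Set.notMem_empty p))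
      (dimZ_empty_le _ _) (L i) subset_rfl (fun l _ x _ p hp => absurd hp (Set.notMem_empty p))
    rwa [Nat.add_sub_cancel] at this
  have hprep := fun i => prep n A (i + 1) (N i) (by omega) (L i) (P i) (hL i) (hcard i) (hR i)
    (hsmall i)
  choose δ g L' P' hδ1 hδN hgd hL'L hg hR' hlt using hprep
  -- the lines
  let Λ := Σ i : ℕ, {l // l ∈ L' i}
  have hpar : ∀ l : Λ, ∃ q u : Fin (n + 1) → ℝ, u ≠ 0 ∧
      ∀ x, x ∈ l.2.1 ↔ ∃ s : ℝ, x = fun k => q k + u k * s := fun l =>
    hL l.1 l.2.1 (hL'L l.1 l.2.2)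
  choose q u hu hqu using hpar
  -- slices
  let sl : Set Λ → (i : ℕ) → Finset {l // l ∈ L' i} := fun S i =>
    Finset.univ.filter (fun l => (⟨i, l⟩ : Λ) ∈ S)
  have hsl : ∀ S i l, l ∈ sl S i ↔ (⟨i, l⟩ : Λ) ∈ S := fun S i l => by simp [sl]
  let small : Set Λ → Prop := fun S => ∃ C i₀ : ℕ, ∀ i, i₀ ≤ i →
    (sl S i).card * N i ≤ C * (P' i).card
  obtain ⟨𝒱, h𝒱⟩ := exists_ultra small ⟨0, 0, fun i _ => by simp [sl]⟩ (by
    rintro t ⟨C, i₀, h⟩ s hst
    refine ⟨C, i₀, fun i hi => le_trans (Nat.mul_le_mul_right _ (Finset.card_le_card ?_)) (h i hi)⟩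
    intro l hl
    rw [hsl] at hl ⊢
    exact hst hl) (by
    rintro s ⟨C, i₀, h⟩ t ⟨C', i₀', h'⟩
    refine ⟨C + C', max i₀ i₀', fun i hi => ?_⟩
    have h1 : (sl (s ∪ t) i).card ≤ (sl s i).card + (sl t i).card := by
      refine le_trans (Finset.card_le_card ?_) (Finset.card_union_le _ _)
      intro l hl
      rw [Finset.mem_union, hsl, hsl]
      rw [hsl] at hl
      exact hl
    calc (sl (s ∪ t) i).card * N i ≤ ((sl s i).card + (sl t i).card) * N i :=
          Nat.mul_le_mul_right _ h1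
      _ = (sl s i).card * N i + (sl t i).card * N i := add_mul _ _ _
      _ ≤ C * (P' i).card + C' * (P' i).card :=
          add_le_add (h i ((le_max_left _ _).trans hi)) (h' i ((le_max_right _ _).trans hi))
      _ = (C + C') * (P' i).card := (add_mul _ _ _).symm) (by
    rintro ⟨C, i₀, h⟩
    have h1 := h (max C i₀) (le_max_right _ _)
    have h2 := hlt (max C i₀)
    have h3 : (sl Set.univ (max C i₀)).card = (L' (max C i₀)).card := by
      simp [sl]
    rw [h3] at h1
    have h4 : C * (P' (max C i₀)).card ≤ (max C i₀ + 1) * (P' (max C i₀)).card :=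
      Nat.mul_le_mul_right _ ((le_max_left _ _).trans (Nat.le_succ _))
    omega)
  obtain ⟨S, a, C, s₀, hs₀, ha, hgood⟩ := thmC 𝒱 (fun l => l.1) q u δ hδ1 g 1
    (fun i => by rw [one_mul]; exact hgd i)
    (fun l => (hg l.1 l.2.1 l.2.2 (q l) (u l) (hqu l)).1)
    (fun l => (hg l.1 l.2.1 l.2.2 (q l) (u l) (hqu l)).2)
  refine h𝒱 _ hgood ?_
  obtain ⟨d', c', hc', hMA⟩ := hM (A * 4 ^ n)
  set t : ℕ := S.sup (fun s => s.degree) with ht
  set i₀ : ℕ := max (max t ((Finset.range (n + 1)).sup d')) (2 * C) with hi₀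
  refine ⟨⌈4 * (t : ℝ) ^ 2 / c'⌉₊, i₀, fun i hi => ?_⟩
  have hti : t ≤ i := ((le_max_left _ _).trans (le_max_left _ _)).trans hi
  have hdi : ∀ r, r ≤ n → d' r ≤ i := fun r hr =>
    (Finset.le_sup (f := d') (Finset.mem_range.mpr (Nat.lt_succ_of_le hr))).trans
      (((le_max_right _ _).trans (le_max_left _ _)).trans hi)
  have hCi : 2 * C ≤ i := (le_max_right _ _).trans hi
  have hD : 4 * (C * δ i) ≤ N i := by
    have h1 := hδN i
    have h2 : 4 * (C * δ i) ≤ 2 * (i + 1) * δ i := by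
      calc 4 * (C * δ i) = 2 * (2 * C) * δ i := by ring
        _ ≤ 2 * (i + 1) * δ i :=
          Nat.mul_le_mul_right _ (Nat.mul_le_mul_left _ (hCi.trans (Nat.le_succ i)))
    omega
  set Gs := {l : Λ | restr (q l) (u l) (a s₀ l.1) ≠ 0 ∧
        (∀ s ∈ S, restr (q l) (u l) (a s₀ l.1) *
            Polynomial.derivative (restr (q l) (u l) (a s l.1)) =
          restr (q l) (u l) (a s l.1) *
            Polynomial.derivative (restr (q l) (u l) (a s₀ l.1))) ∧
        ∑ s ∈ S, restr (q l) (u l) (a s l.1) *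
          s.prod (fun k e => (Polynomial.C (q l k) + Polynomial.C (u l k) * Polynomial.X) ^ e) = 0}
    with hGs
  have hstep := class_step hc'.le hMA t (N i) (C * δ i) S
    (fun s hs => Finset.le_sup (f := fun s : Fin (n + 1) →₀ ℕ => s.degree) hs)
    (fun s => a s i) s₀ hs₀ (fun s => ha s i) hD ((sl Gs i).image Subtype.val) (P' i) (by
      intro l hl
      obtain ⟨l', hl', rfl⟩ := Finset.mem_image.mp hl
      have h1 : (⟨i, l'⟩ : Λ) ∈ Gs := (hsl _ _ _).mp hl'
      exact ⟨q ⟨i, l'⟩, u ⟨i, l'⟩, hu _, hqu ⟨i, l'⟩, h1⟩) (by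
      intro l hl
      obtain ⟨l', hl', rfl⟩ := Finset.mem_image.mp hl
      exact hR' i l'.1 l'.2) (by
      intro r hr hrn S' hS' hdim T hT hTS
      refine hH i r hr (hrn.trans (Nat.le_succ n)) S' ?_ hdim T ?_ hTS
      · intro p hp
        exact (hS' p hp).trans (max_le (hdi r hrn) hti)
      · intro l hl
        obtain ⟨l', hl', rfl⟩ := Finset.mem_image.mp (hT hl)
        exact hL'L i l'.2)
  rw [Finset.card_image_of_injective _ Subtype.val_injective] at hstep
  have h1 : ((sl Gs i).card : ℝ) * N i ≤ 4 * (t : ℝ) ^ 2 / c' * (P' i).card := by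
    rw [div_mul_eq_mul_div, le_div_iff₀ hc']
    calc ((sl Gs i).card : ℝ) * N i * c' = c' * (sl Gs i).card * N i := by ring
      _ ≤ _ := hstep
  have h2 : ((sl Gs i).card : ℝ) * N i ≤ (⌈4 * (t : ℝ) ^ 2 / c'⌉₊ : ℝ) * (P' i).card :=
    h1.trans (mul_le_mul_of_nonneg_right (Nat.le_ceil _) (Nat.cast_nonneg _))
  exact_mod_cast h2

theorem main_all (n : ℕ) (hn : 1 ≤ n) : Main n := by
  induction n, hn using Nat.le_induction with
  | base => exact main_one
  | succ n hn ih => exact main_step n hn ih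

end Pool.DKak
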