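import Pool.Agent.DKak.Class

set_option autoImplicit false
set_option linter.unusedSectionVars false

/-!
# The polynomial method and the pigeonhole on directional orders
-/

namespace Pool.DKak

open MvPolynomial

theorem exists_root_bound (n m : ℕ) : ∃ D : ℕ, D ^ (n + 1) ≤ m ∧ m < (D + 1) ^ (n + 1) := by
  have hex : ∃ D : ℕ, m < (D + 1) ^ (n + 1) := by
    refine ⟨m, ?_⟩
    calc m < m + 1 := Nat.lt_succ_self m
      _ = (m + 1) ^ 1 := (pow_one _).symm
      _ ≤ (m + 1) ^ (n + 1) := Nat.pow_le_pow_right (Nat.succ_pos m) (by omega)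
  classical
  refine ⟨Nat.find hex, ?_, Nat.find_spec hex⟩
  rcases Nat.eq_zero_or_pos (Nat.find hex) with h | h
  · rw [h, zero_pow (Nat.succ_ne_zero n)]
    exact Nat.zero_le _
  · have := Nat.find_min hex (m := Nat.find hex - 1) (by omega)
    rw [Nat.sub_add_cancel h] at this
    exact not_lt.mp this

/-- The polynomial method. -/
theorem exists_vanishing_poly (n D : ℕ) (P : Finset (Fin (n + 1) → ℝ))
    (hD : P.card < (D + 1) ^ (n + 1)) :
    ∃ f : MvPolynomial (Fin (n + 1)) ℝ, f ≠ 0 ∧ f.totalDegree ≤ (n + 1) * D ∧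
      ∀ x ∈ P, eval x f = 0 := by
  classical
  let E := Fin (n + 1) → Fin (D + 1)
  let M : Matrix {x // x ∈ P} E ℝ := fun x e => ∏ k, x.1 k ^ (e k : ℕ)
  have hker : LinearMap.ker M.mulVecLin ≠ ⊥ := by
    apply LinearMap.ker_ne_bot_of_finrank_lt
    rw [Module.finrank_fintype_fun_eq_card, Module.finrank_fintype_fun_eq_card, Fintype.card_coe]
    simp only [E, Fintype.card_pi, Fintype.card_fin, Finset.prod_const, Finset.card_univ]
    exact hD
  obtain ⟨c, hc, hc0⟩ := (Submodule.ne_bot_iff _).mp hker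
  let ex : E → (Fin (n + 1) →₀ ℕ) := fun e => Finsupp.equivFunOnFinite.symm (fun k => (e k : ℕ))
  have hex : Function.Injective ex := by
    intro e e' h
    have h1 := Finsupp.equivFunOnFinite.symm.injective h
    funext k
    exact Fin.ext (congrFun h1 k)
  refine ⟨∑ e, monomial (ex e) (c e), ?_, ?_, ?_⟩
  · intro h
    apply hc0
    funext e
    have h1 := congrArg (coeff (ex e)) h
    rw [coeff_sum, Finset.sum_eq_single e, coeff_monomial, if_pos rfl, coeff_zero] at h1
    · exact h1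
    · intro b _ hb
      rw [coeff_monomial, if_neg fun h2 => hb (hex h2)]
    · intro h2; exact absurd (Finset.mem_univ e) h2
  · refine totalDegree_finsetSum_le fun e _ => ?_
    refine (totalDegree_monomial_le _ _).trans ?_
    rw [Finsupp.sum_fintype _ _ (fun _ => rfl)]
    calc ∑ k, (ex e) k ≤ ∑ _k : Fin (n + 1), D := by
          refine Finset.sum_le_sum fun k _ => ?_
          change (e k : ℕ) ≤ D
          have := (e k).2
          omega
      _ = (n + 1) * D := by simp
  · intro x hx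
    rw [LinearMap.mem_ker] at hc
    have h1 := congrFun hc ⟨x, hx⟩
    rw [map_sum]
    simp only [Matrix.mulVecLin_apply, Matrix.mulVec, dotProduct, Pi.zero_apply] at h1
    rw [← h1]
    refine Finset.sum_congr rfl fun e _ => ?_
    rw [eval_monomial, Finsupp.prod_fintype _ _ (fun _ => pow_zero _), mul_comm]
    rfl

/-- The derivative in direction `u`. -/
noncomputable def dirD {σ : Type*} [Fintype σ] (u : σ → ℝ) (f : MvPolynomial σ ℝ) :
    MvPolynomial σ ℝ :=
  ∑ k, C (u k) * pderiv k f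

theorem restr_dirD {σ : Type*} [Fintype σ] (q v u : σ → ℝ) (f : MvPolynomial σ ℝ) :
    restr q v (dirD u f) = ∑ k, Polynomial.C (u k) * restr q v (pderiv k f) := by
  rw [dirD, map_sum]
  refine Finset.sum_congr rfl fun k _ => ?_
  rw [map_mul, restr_C]

theorem iterate_derivative_restr {σ : Type*} [Fintype σ] (q u : σ → ℝ) (f : MvPolynomial σ ℝ)
    (k : ℕ) : Polynomial.derivative^[k] (restr q u f) = restr q u ((dirD u)^[k] f) := by
  induction k with
  | zero => rfl
  | succ k ih =>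
    rw [Function.iterate_succ_apply', Function.iterate_succ_apply', ih, derivative_restr,
      restr_dirD]

theorem totalDegree_dirD_le {σ : Type*} [Fintype σ] (u : σ → ℝ) (f : MvPolynomial σ ℝ) :
    (dirD u f).totalDegree ≤ f.totalDegree := by
  refine totalDegree_finsetSum_le fun k _ => ?_
  refine (totalDegree_mul _ _).trans ?_
  rw [totalDegree_C, zero_add]
  exact totalDegree_pderiv_le k f

theorem totalDegree_iterate_dirD_le {σ : Type*} [Fintype σ] (u : σ → ℝ) (f : MvPolynomial σ ℝ)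
    (k : ℕ) : ((dirD u)^[k] f).totalDegree ≤ f.totalDegree := by
  induction k with
  | zero => exact le_rfl
  | succ k ih =>
    rw [Function.iterate_succ_apply']
    exact (totalDegree_dirD_le _ _).trans ih

/-- Some directional derivative does not vanish at `x`. -/
theorem exists_order {σ : Type*} [Fintype σ] (u : σ → ℝ) (f : MvPolynomial σ ℝ) (x : σ → ℝ)
    (h : restr x u f ≠ 0) : ∃ k ≤ f.totalDegree, eval x ((dirD u)^[k] f) ≠ 0 := by
  by_contra hcon
  push Not at hcon
  apply h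
  ext k
  rw [Polynomial.coeff_zero]
  rcases lt_or_ge f.totalDegree k with hk | hk
  · exact Polynomial.coeff_eq_zero_of_natDegree_lt ((natDegree_restr_le x u f).trans_lt hk)
  · have h1 := hcon k hk
    have h2 : eval x ((dirD u)^[k] f) = (restr x u ((dirD u)^[k] f)).eval 0 := by
      rw [eval_restr]
      simp
    rw [h2, ← iterate_derivative_restr, ← Polynomial.coeff_zero_eq_eval_zero,
      Polynomial.coeff_iterate_derivative, zero_add, Nat.descFactorial_self, nsmul_eq_mul] at h1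
    exact (mul_eq_zero.mp h1).resolve_left (by exact_mod_cast Nat.factorial_ne_zero k)

/-- **Preparation.** -/
theorem prep (n A K N : ℕ) (hK : 1 ≤ K) (L : Finset (Set (Fin (n + 1) → ℝ)))
    (P : Finset (Fin (n + 1) → ℝ)) (hL : ∀ l ∈ L, IsLine l) (hcard : L.card ≤ A * N ^ n)
    (hR : ∀ l ∈ L, Rich N P l)
    (hsmall : (A + 1) * (2 * (n + 1) * K) ^ (n + 1) * P.card < L.card * N) :
    ∃ (δ : ℕ) (g : MvPolynomial (Fin (n + 1)) ℝ) (L' : Finset (Set (Fin (n + 1) → ℝ)))
      (P' : Finset (Fin (n + 1) → ℝ)), 1 ≤ δ ∧ 2 * K * δ < N ∧ g.totalDegree ≤ δ ∧ L' ⊆ L ∧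
      (∀ l ∈ L', ∀ q v : Fin (n + 1) → ℝ, (∀ x, x ∈ l ↔ ∃ s : ℝ, x = fun k => q k + v k * s) →
        restr q v g = 0 ∧ ∃ k, restr q v (pderiv k g) ≠ 0) ∧
      (∀ l ∈ L', ∃ T ⊆ P', (∀ x ∈ T, x ∈ l) ∧ N ≤ 2 * T.card) ∧
      K * P'.card < L'.card * N := by
  classical
  obtain ⟨D, hD1, hD2⟩ := exists_root_bound n P.card
  obtain ⟨f, hf0, hfd, hfP⟩ := exists_vanishing_poly n D P hD2
  have hpos : 0 < L.card * N := lt_of_le_of_lt (Nat.zero_le _) hsmall
  have hNpos : 0 < N := Nat.pos_of_mul_pos_left hpos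
  have hLpos : 0 < L.card := Nat.pos_of_mul_pos_right hpos
  obtain ⟨l₀, hl₀⟩ := Finset.card_pos.mp hLpos
  have hPpos : 0 < P.card := by
    obtain ⟨T, hT, -, hTN⟩ := hR l₀ hl₀
    exact lt_of_lt_of_le hNpos (hTN.trans (Finset.card_le_card hT))
  have hDpos : 1 ≤ D := by
    by_contra hcon
    have hD0 : D = 0 := by omega
    rw [hD0] at hD2
    simp at hD2
    rw [hD2] at hPpos
    simp at hPpos
  set δ := (n + 1) * D with hδ
  have hδ1 : 1 ≤ δ := by
    rw [hδ]
    exact Nat.mul_pos (Nat.succ_pos n) hDpos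
  have hδN : 2 * K * δ < N := by
    have h1 : (A + 1) * (2 * K * δ) ^ (n + 1) < (A + 1) * N ^ (n + 1) := by
      calc (A + 1) * (2 * K * δ) ^ (n + 1)
          = (A + 1) * (2 * (n + 1) * K) ^ (n + 1) * D ^ (n + 1) := by
            rw [hδ, mul_assoc (A + 1), ← mul_pow]
            congr 2
            ring
        _ ≤ (A + 1) * (2 * (n + 1) * K) ^ (n + 1) * P.card := Nat.mul_le_mul_left _ hD1
        _ < L.card * N := hsmall
        _ ≤ (A * N ^ n) * N := Nat.mul_le_mul_right _ hcard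
        _ = A * N ^ (n + 1) := by ring
        _ ≤ (A + 1) * N ^ (n + 1) := Nat.mul_le_mul_right _ (Nat.le_succ A)
    exact lt_of_pow_lt_pow_left₀ (n + 1) (Nat.zero_le _) (lt_of_mul_lt_mul_left h1 (Nat.zero_le _))
  have hδ2 : 2 * δ ≤ N := by
    have : 2 * δ ≤ 2 * K * δ := by
      calc 2 * δ = 2 * 1 * δ := by ring
        _ ≤ 2 * K * δ := Nat.mul_le_mul_right _ (Nat.mul_le_mul_left _ hK)
    omega
  obtain ⟨w, hw⟩ := exists_dir f hf0
  set u : Fin (n + 1) → ℝ := Fin.cons 1 w with hu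
  let G : ℕ → MvPolynomial (Fin (n + 1)) ℝ := fun k => (dirD u)^[k] f
  have hGd : ∀ k, (G k).totalDegree ≤ δ := fun k => (totalDegree_iterate_dirD_le u f k).trans hfd
  have hord : ∀ x, ∃ k ≤ f.totalDegree, eval x (G k) ≠ 0 := fun x =>
    exists_order u f x (restr_dir_ne_zero w f hw x)
  let oP : (Fin (n + 1) → ℝ) → ℕ := fun x => sInf {k | eval x (G k) ≠ 0}
  let oL : Set (Fin (n + 1) → ℝ) → ℕ := fun l => sInf {k | ∃ x ∈ l, eval x (G k) ≠ 0}
  have hoPm : ∀ x, eval x (G (oP x)) ≠ 0 := fun x => by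
    obtain ⟨k, -, hk⟩ := hord x
    exact Nat.sInf_mem (s := {k | eval x (G k) ≠ 0}) ⟨k, hk⟩
  have hoPle : ∀ x k, eval x (G k) ≠ 0 → oP x ≤ k := fun x k hk =>
    Nat.sInf_le (s := {k | eval x (G k) ≠ 0}) hk
  have hoLle : ∀ l k x, x ∈ l → eval x (G k) ≠ 0 → oL l ≤ k := fun l k x hx hk =>
    Nat.sInf_le (s := {k | ∃ x ∈ l, eval x (G k) ≠ 0}) ⟨x, hx, hk⟩
  have hmemne : ∀ l ∈ L, ∃ x, x ∈ l := by
    intro l hl
    obtain ⟨q, v, -, h⟩ := hL l hl
    exact ⟨_, (h _).mpr ⟨0, rfl⟩⟩
  have hoLm : ∀ l ∈ L, ∃ x ∈ l, eval x (G (oL l)) ≠ 0 := fun l hl => by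
    obtain ⟨x, hx⟩ := hmemne l hl
    obtain ⟨k, -, hk⟩ := hord x
    exact Nat.sInf_mem (s := {k | ∃ x ∈ l, eval x (G k) ≠ 0}) ⟨k, x, hx, hk⟩
  have hoPd : ∀ x, oP x ≤ f.totalDegree := fun x => by
    obtain ⟨k, hk, hk'⟩ := hord x
    exact (hoPle x k hk').trans hk
  have hoLd : ∀ l ∈ L, oL l ≤ f.totalDegree := fun l hl => by
    obtain ⟨x, hx⟩ := hmemne l hl
    obtain ⟨k, hk, hk'⟩ := hord x
    exact (hoLle l k x hx hk').trans hk
  -- `f` vanishes on all lines
  have hfL : ∀ l ∈ L, ∀ x ∈ l, eval x f = 0 := by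
    intro l hl
    obtain ⟨q, v, hv, h⟩ := hL l hl
    obtain ⟨T, hTP, hTl, hTN⟩ := hR l hl
    rw [← restr_eq_zero_iff h]
    by_contra hne
    have h1 := card_zeros_le hv h f hne T fun x hx => ⟨hTl x hx, hfP x (hTP hx)⟩
    have h2 : f.totalDegree ≤ δ := hfd
    omega
  -- pigeonhole
  obtain ⟨b, hb⟩ : ∃ b, (A + 1) * (2 * (n + 1) * K) ^ (n + 1) *
      (P.filter (fun x => oP x = b)).card < (L.filter (fun l => oL l = b)).card * N := by
    by_contra hcon
    push Not at hcon
    have h1 : P.card = ∑ b ∈ Finset.range (f.totalDegree + 1),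
        (P.filter (fun x => oP x = b)).card :=
      Finset.card_eq_sum_card_fiberwise fun x _ => by
        rw [Finset.mem_coe, Finset.mem_range]
        exact Nat.lt_succ_of_le (hoPd x)
    have h2 : L.card = ∑ b ∈ Finset.range (f.totalDegree + 1),
        (L.filter (fun x => oL x = b)).card :=
      Finset.card_eq_sum_card_fiberwise fun x hx => by
        rw [Finset.mem_coe, Finset.mem_range]
        exact Nat.lt_succ_of_le (hoLd x hx)
    rw [h1, h2, Finset.mul_sum, Finset.sum_mul] at hsmall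
    exact absurd hsmall (not_lt.mpr (Finset.sum_le_sum fun b _ => hcon b))
  set L' := L.filter (fun l => oL l = b) with hL'
  set P' := P.filter (fun x => oP x = b) with hP'
  have hL'pos : 0 < L'.card :=
    Nat.pos_of_mul_pos_right (lt_of_le_of_lt (Nat.zero_le _) hb)
  have hbpos : 1 ≤ b := by
    obtain ⟨l, hl⟩ := Finset.card_pos.mp hL'pos
    rw [hL', Finset.mem_filter] at hl
    obtain ⟨x, hx, hx'⟩ := hoLm l hl.1
    by_contra hcon
    have hb0 : b = 0 := by omega
    rw [hl.2, hb0] at hx'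
    exact hx' (hfL l hl.1 x hx)
  have hGsucc : G b = dirD u (G (b - 1)) := by
    change (dirD u)^[b] f = dirD u ((dirD u)^[b - 1] f)
    have hb1 : b = (b - 1) + 1 := (Nat.sub_add_cancel hbpos).symm
    conv_lhs => rw [hb1]
    rw [Function.iterate_succ_apply']
  refine ⟨δ, G (b - 1), L', P', hδ1, hδN, hGd _, Finset.filter_subset _ _, ?_, ?_, ?_⟩
  · intro l hl q v h
    rw [hL', Finset.mem_filter] at hl
    constructor
    · rw [restr_eq_zero_iff h]
      intro x hx
      by_contra hne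
      have := hoLle l (b - 1) x hx hne
      omega
    · by_contra hcon
      push Not at hcon
      have h1 : restr q v (G b) = 0 := by
        rw [hGsucc, restr_dirD]
        exact Finset.sum_eq_zero fun k _ => by rw [hcon k, mul_zero]
      rw [restr_eq_zero_iff h] at h1
      obtain ⟨x, hx, hx'⟩ := hoLm l hl.1
      rw [hl.2] at hx'
      exact hx' (h1 x hx)
  · intro l hl
    rw [hL', Finset.mem_filter] at hl
    obtain ⟨q, v, hv, h⟩ := hL l hl.1
    obtain ⟨T, hTP, hTl, hTN⟩ := hR l hl.1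
    refine ⟨T.filter (fun x => oP x = b), ?_, ?_, ?_⟩
    · intro x hx
      rw [Finset.mem_filter] at hx
      exact Finset.mem_filter.mpr ⟨hTP hx.1, hx.2⟩
    · intro x hx
      exact hTl x (Finset.mem_filter.mp hx).1
    · have hGb : restr q v (G b) ≠ 0 := by
        rw [Ne, restr_eq_zero_iff h]
        intro h1
        obtain ⟨x, hx, hx'⟩ := hoLm l hl.1
        rw [hl.2] at hx'
        exact hx' (h1 x hx)
      have h1 : (T.filter (fun x => ¬ (oP x = b))).card ≤ δ := by
        refine (card_zeros_le hv h (G b) hGb _ ?_).trans (hGd b)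
        intro x hx
        rw [Finset.mem_filter] at hx
        refine ⟨hTl x hx.1, ?_⟩
        by_contra hne
        apply hx.2
        have h2 := hoPle x b hne
        have h3 := hoLle l (oP x) x (hTl x hx.1) (hoPm x)
        omega
      have h2 := Finset.card_filter_add_card_filter_not (s := T) (fun x => oP x = b)
      omega
  · refine lt_of_le_of_lt (Nat.mul_le_mul_right _ ?_) hb
    calc K = 1 * K ^ 1 := by ring
      _ ≤ (A + 1) * (2 * (n + 1) * K) ^ (n + 1) := by
        refine Nat.mul_le_mul (by omega) ?_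
        calc K ^ 1 ≤ K ^ (n + 1) := Nat.pow_le_pow_right hK (by omega)
          _ ≤ (2 * (n + 1) * K) ^ (n + 1) := by
            refine Nat.pow_le_pow_left ?_ _
            calc K = 1 * K := (one_mul K).symm
              _ ≤ 2 * (n + 1) * K := Nat.mul_le_mul_right _ (by omega)

end Pool.DKak
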