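import Pool.Agent.DKak.Geom

set_option autoImplicit false
set_option linter.unusedSectionVars false

/-!
# The induction statement and the projection step
-/

namespace Pool.DKak

open MvPolynomial

/-- A line in `ℝⁿ`. -/
def IsLine {n : ℕ} (l : Set (Fin n → ℝ)) : Prop :=
  ∃ q u : Fin n → ℝ, u ≠ 0 ∧ ∀ x, x ∈ l ↔ ∃ s : ℝ, x = fun k => q k + u k * s

theorem IsLine.eq_of_mem {n : ℕ} {l l' : Set (Fin n → ℝ)} (hl : IsLine l) (hl' : IsLine l')
    {x y : Fin n → ℝ} (hxy : x ≠ y) (hx : x ∈ l) (hy : y ∈ l) (hx' : x ∈ l') (hy' : y ∈ l') :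
    l = l' := by
  have key : ∀ l : Set (Fin n → ℝ), IsLine l → x ∈ l → y ∈ l →
      ∀ z, z ∈ l ↔ ∃ s : ℝ, z = fun k => x k + (y k - x k) * s := by
    rintro l ⟨q, u, hu, h⟩ hx hy z
    obtain ⟨a, ha⟩ := (h x).mp hx
    obtain ⟨b, hb⟩ := (h y).mp hy
    have hab : b - a ≠ 0 := by
      intro hab
      apply hxy
      rw [ha, hb, sub_eq_zero.mp hab]
    rw [h z]
    constructor
    · rintro ⟨s, hs⟩
      refine ⟨(s - a) / (b - a), ?_⟩
      rw [hs, ha, hb]
      funext k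
      field_simp
      ring
    · rintro ⟨s, hs⟩
      refine ⟨a + (b - a) * s, ?_⟩
      rw [hs, ha, hb]
      funext k
      ring
  ext z
  rw [key l hl hx hy z, key l' hl' hx' hy' z]

/-- A line is determined by the parametrisation; membership. -/
theorem restr_eq_zero_iff {n : ℕ} {l : Set (Fin n → ℝ)} {q u : Fin n → ℝ}
    (h : ∀ x, x ∈ l ↔ ∃ s : ℝ, x = fun k => q k + u k * s) (f : MvPolynomial (Fin n) ℝ) :
    restr q u f = 0 ↔ ∀ x ∈ l, eval x f = 0 := by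
  constructor
  · intro h0 x hx
    obtain ⟨s, rfl⟩ := (h x).mp hx
    rw [← eval_restr, h0, Polynomial.eval_zero]
  · intro h0
    apply Polynomial.funext
    intro s
    rw [eval_restr, Polynomial.eval_zero]
    exact h0 _ ((h _).mpr ⟨s, rfl⟩)

/-- The number of points of a finite set on a line where a polynomial, not vanishing on the line,
vanishes. -/
theorem card_zeros_le {n : ℕ} {l : Set (Fin n → ℝ)} {q u : Fin n → ℝ} (hu : u ≠ 0)
    (h : ∀ x, x ∈ l ↔ ∃ s : ℝ, x = fun k => q k + u k * s) (f : MvPolynomial (Fin n) ℝ)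
    (hf : restr q u f ≠ 0) (T : Finset (Fin n → ℝ)) (hT : ∀ x ∈ T, x ∈ l ∧ eval x f = 0) :
    T.card ≤ f.totalDegree := by
  classical
  have h1 : T ⊆ (restr q u f).roots.toFinset.image (fun s => fun k => q k + u k * s) := by
    intro x hx
    obtain ⟨s, rfl⟩ := (h x).mp (hT x hx).1
    rw [Finset.mem_image]
    refine ⟨s, ?_, rfl⟩
    rw [Multiset.mem_toFinset, Polynomial.mem_roots hf, Polynomial.IsRoot, eval_restr]
    exact (hT _ hx).2
  refine (Finset.card_le_card h1).trans (Finset.card_image_le.trans ?_)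
  refine (Multiset.toFinset_card_le _).trans ((Polynomial.card_roots' _).trans ?_)
  exact natDegree_restr_le q u f

/-- `P` has at least `N` points on `l`. -/
def Rich {n : ℕ} (N : ℕ) (P : Finset (Fin n → ℝ)) (l : Set (Fin n → ℝ)) : Prop :=
  ∃ T ⊆ P, (∀ x ∈ T, x ∈ l) ∧ N ≤ T.card

/-- The non-degeneracy hypothesis. -/
def Hyp (n A : ℕ) (d : ℕ → ℕ) (N : ℕ) (L : Finset (Set (Fin n → ℝ))) : Prop :=
  ∀ r, 1 < r → r ≤ n → ∀ S : Set (MvPolynomial (Fin n) ℝ), (∀ p ∈ S, p.totalDegree ≤ d r) →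
    dimZ S ≤ ((r : ℕ∞) : WithBot ℕ∞) → ∀ T ⊆ L, (∀ l ∈ T, l ⊆ Zs S) → T.card ≤ A * N ^ (r - 1)

/-- The induction statement with given constants. -/
def MainAt (n A : ℕ) (d : ℕ → ℕ) (c : ℝ) : Prop :=
  ∀ (N : ℕ) (L : Finset (Set (Fin n → ℝ))) (P : Finset (Fin n → ℝ)),
    (∀ l ∈ L, IsLine l) → Hyp n A d N L → (∀ l ∈ L, Rich N P l) → c * L.card * N ≤ P.card

theorem prj_line {n : ℕ} (w : Fin n → ℝ) (q u : Fin (n + 1) → ℝ) (s : ℝ) :
    prj w (fun k => q k + u k * s) = fun k => prj w q k + prj w u k * s := by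
  funext k
  simp only [prj]
  ring

/-- The fibre of the projection. -/
theorem prj_fibre {n : ℕ} (w : Fin n → ℝ) (x y : Fin (n + 1) → ℝ) (h : prj w x = prj w y) :
    y = fun k => x k + (Fin.cons 1 w : Fin (n + 1) → ℝ) k * (y 0 - x 0) := by
  funext k
  refine Fin.cases ?_ (fun j => ?_) k
  · simp
  · have := congrFun h j
    simp only [prj] at this
    rw [Fin.cons_succ]
    linarith

theorem restr_dir_ne_zero {n : ℕ} (w : Fin n → ℝ) (Q : MvPolynomial (Fin (n + 1)) ℝ)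
    (hQ : eval (Fin.cons 1 w) (homogeneousComponent Q.totalDegree Q) ≠ 0)
    (x : Fin (n + 1) → ℝ) : restr x (Fin.cons 1 w) Q ≠ 0 := by
  intro h
  have h1 := coeff_restr x (Fin.cons 1 w) Q _ le_rfl
  rw [h, Polynomial.coeff_zero] at h1
  exact hQ h1.symm

/-- At most `deg Q` points of the zero set of `Q` over each point of the base. -/
theorem card_fibre_le {n : ℕ} (w : Fin n → ℝ) (Q : MvPolynomial (Fin (n + 1)) ℝ)
    (hQ : eval (Fin.cons 1 w) (homogeneousComponent Q.totalDegree Q) ≠ 0)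
    (p : Fin n → ℝ) (T : Finset (Fin (n + 1) → ℝ))
    (hT : ∀ x ∈ T, eval x Q = 0 ∧ prj w x = p) : T.card ≤ Q.totalDegree := by
  classical
  rcases T.eq_empty_or_nonempty with rfl | ⟨x₀, hx₀⟩
  · simp
  · have hu : (Fin.cons 1 w : Fin (n + 1) → ℝ) ≠ 0 := by
      intro h
      have := congrFun h 0
      simp at this
    refine card_zeros_le (l := {x | ∃ s : ℝ, x = fun k => x₀ k +
      (Fin.cons 1 w : Fin (n + 1) → ℝ) k * s}) hu (fun x => Iff.rfl) Q
      (restr_dir_ne_zero w Q hQ x₀) T ?_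
    intro x hx
    refine ⟨⟨x 0 - x₀ 0, ?_⟩, (hT x hx).1⟩
    exact prj_fibre w x₀ x ((hT x₀ hx₀).2.trans (hT x hx).2.symm)

/-- The direction of a line in the zero set of `Q` is not the direction of projection. -/
theorem prj_dir_ne_zero {n : ℕ} (w : Fin n → ℝ) (Q : MvPolynomial (Fin (n + 1)) ℝ)
    (hQ : eval (Fin.cons 1 w) (homogeneousComponent Q.totalDegree Q) ≠ 0)
    {l : Set (Fin (n + 1) → ℝ)} {q u : Fin (n + 1) → ℝ} (hu : u ≠ 0)
    (h : ∀ x, x ∈ l ↔ ∃ s : ℝ, x = fun k => q k + u k * s) (hlQ : ∀ x ∈ l, eval x Q = 0) :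
    prj w u ≠ 0 := by
  intro h0
  have hu' : u = fun k => (Fin.cons 1 w : Fin (n + 1) → ℝ) k * u 0 := by
    have h1 := prj_fibre w 0 u (by
      rw [h0]
      funext k
      simp [prj])
    rw [h1]
    funext k
    simp
  have hu0 : u 0 ≠ 0 := by
    intro h2
    apply hu
    rw [hu', h2]
    funext k
    simp
  apply restr_dir_ne_zero w Q hQ q
  apply Polynomial.funext
  intro s
  rw [eval_restr, Polynomial.eval_zero]
  apply hlQ
  rw [h]
  refine ⟨s / u 0, ?_⟩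
  funext k
  rw [hu']
  simp only [Fin.cons_zero, one_mul]
  field_simp

/-- **The projection step.** -/
theorem proj_step {n A : ℕ} {d : ℕ → ℕ} {c : ℝ} (hc : 0 ≤ c) (hM : MainAt n A d c) (t N : ℕ)
    (Q : MvPolynomial (Fin (n + 1)) ℝ) (hQ0 : Q ≠ 0) (hQt : Q.totalDegree ≤ t)
    (L : Finset (Set (Fin (n + 1) → ℝ))) (P : Finset (Fin (n + 1) → ℝ))
    (hL : ∀ l ∈ L, IsLine l) (hLQ : ∀ l ∈ L, ∀ x ∈ l, eval x Q = 0)
    (hH : ∀ r, 1 < r → r ≤ n → ∀ S : Set (MvPolynomial (Fin (n + 1)) ℝ),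
      (∀ p ∈ S, p.totalDegree ≤ max (d r) t) → dimZ S ≤ ((r : ℕ∞) : WithBot ℕ∞) →
      ∀ T ⊆ L, (∀ l ∈ T, l ⊆ Zs S) → T.card ≤ A * N ^ (r - 1))
    (hR : ∀ l ∈ L, Rich N P l) :
    c * L.card * N ≤ (t : ℝ) ^ 2 * P.card := by
  classical
  obtain ⟨w, hw⟩ := exists_dir Q hQ0
  have himg : ∀ l ∈ L, ∃ q u : Fin (n + 1) → ℝ, u ≠ 0 ∧ prj w u ≠ 0 ∧
      (∀ x, x ∈ l ↔ ∃ s : ℝ, x = fun k => q k + u k * s) ∧
      (∀ y, y ∈ prj w '' l ↔ ∃ s : ℝ, y = fun k => prj w q k + prj w u k * s) := by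
    intro l hl
    obtain ⟨q, u, hu, h⟩ := hL l hl
    refine ⟨q, u, hu, prj_dir_ne_zero w Q hw hu h (hLQ l hl), h, ?_⟩
    intro y
    constructor
    · rintro ⟨x, hx, rfl⟩
      obtain ⟨s, rfl⟩ := (h x).mp hx
      exact ⟨s, prj_line w q u s⟩
    · rintro ⟨s, rfl⟩
      exact ⟨_, (h _).mpr ⟨s, rfl⟩, prj_line w q u s⟩
  let g : Set (Fin (n + 1) → ℝ) → Set (Fin n → ℝ) := fun l => prj w '' l
  have hinj : ∀ l ∈ L, ∀ x ∈ l, ∀ y ∈ l, prj w x = prj w y → x = y := by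
    intro l hl x hx y hy hxy
    obtain ⟨q, u, hu, hpu, h, -⟩ := himg l hl
    obtain ⟨s, rfl⟩ := (h x).mp hx
    obtain ⟨s', rfl⟩ := (h y).mp hy
    rw [prj_line, prj_line] at hxy
    obtain ⟨k, hk⟩ : ∃ k, prj w u k ≠ 0 := by
      by_contra hcon
      push Not at hcon
      exact hpu (funext hcon)
    have h1 := congrFun hxy k
    simp only [add_right_inj] at h1
    rw [mul_right_inj' hk] at h1
    rw [h1]
  -- multiplicity of the fibres
  have hfib : ∀ a ∈ L.image g, (L.filter (fun l => g l = a)).card ≤ t ^ 2 := by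
    intro a ha
    obtain ⟨l₀, hl₀, rfl⟩ := Finset.mem_image.mp ha
    obtain ⟨q₀, u₀, hu₀, hpu₀, h₀, hg₀⟩ := himg l₀ hl₀
    set p₁ : Fin n → ℝ := fun k => prj w q₀ k + prj w u₀ k * 0 with hp₁
    set p₂ : Fin n → ℝ := fun k => prj w q₀ k + prj w u₀ k * 1 with hp₂
    have hp₁m : p₁ ∈ g l₀ := (hg₀ _).mpr ⟨0, rfl⟩
    have hp₂m : p₂ ∈ g l₀ := (hg₀ _).mpr ⟨1, rfl⟩
    have hp : p₁ ≠ p₂ := by
      intro h
      apply hpu₀
      funext k
      have := congrFun h k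
      simp only [hp₁, hp₂, mul_zero, mul_one, add_zero] at this
      rw [Pi.zero_apply]
      linarith
    have hch : ∀ l : {l // l ∈ L.filter (fun l => g l = g l₀)}, ∃ x₁ x₂ : Fin (n + 1) → ℝ,
        x₁ ∈ l.1 ∧ x₂ ∈ l.1 ∧ prj w x₁ = p₁ ∧ prj w x₂ = p₂ := by
      rintro ⟨l, hl⟩
      rw [Finset.mem_filter] at hl
      have h1 : p₁ ∈ g l := by rw [hl.2]; exact hp₁m
      have h2 : p₂ ∈ g l := by rw [hl.2]; exact hp₂m
      obtain ⟨x₁, hx₁, hx₁'⟩ := h1
      obtain ⟨x₂, hx₂, hx₂'⟩ := h2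
      exact ⟨x₁, x₂, hx₁, hx₂, hx₁', hx₂'⟩
    choose x₁ x₂ hx₁ hx₂ hpx₁ hpx₂ using hch
    have hmem : ∀ l : {l // l ∈ L.filter (fun l => g l = g l₀)}, l.1 ∈ L := fun l =>
      (Finset.mem_filter.mp l.2).1
    let F₁ : Finset (Fin (n + 1) → ℝ) := Finset.univ.image x₁
    let F₂ : Finset (Fin (n + 1) → ℝ) := Finset.univ.image x₂
    have hF₁ : F₁.card ≤ t := by
      refine (card_fibre_le w Q hw p₁ F₁ ?_).trans hQt
      intro x hx
      obtain ⟨l, -, rfl⟩ := Finset.mem_image.mp hx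
      exact ⟨hLQ _ (hmem l) _ (hx₁ l), hpx₁ l⟩
    have hF₂ : F₂.card ≤ t := by
      refine (card_fibre_le w Q hw p₂ F₂ ?_).trans hQt
      intro x hx
      obtain ⟨l, -, rfl⟩ := Finset.mem_image.mp hx
      exact ⟨hLQ _ (hmem l) _ (hx₂ l), hpx₂ l⟩
    have hcard : (Finset.univ : Finset {l // l ∈ L.filter (fun l => g l = g l₀)}).card ≤
        (F₁ ×ˢ F₂).card := by
      refine Finset.card_le_card_of_injOn (fun l => (x₁ l, x₂ l)) ?_ ?_
      · intro l _
        rw [Finset.mem_coe, Finset.mem_product]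
        exact ⟨Finset.mem_image_of_mem _ (Finset.mem_univ l),
          Finset.mem_image_of_mem _ (Finset.mem_univ l)⟩
      · intro l _ l' _ hll
        simp only [Prod.mk.injEq] at hll
        apply Subtype.ext
        refine (hL _ (hmem l)).eq_of_mem (hL _ (hmem l')) (x := x₁ l) (y := x₂ l) ?_ (hx₁ l) (hx₂ l)
          ?_ ?_
        · intro h
          apply hp
          rw [← hpx₁ l, ← hpx₂ l, h]
        · rw [hll.1]; exact hx₁ l'
        · rw [hll.2]; exact hx₂ l'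
    rw [Finset.card_univ, Fintype.card_coe, Finset.card_product] at hcard
    calc _ ≤ _ := hcard
      _ ≤ t * t := Nat.mul_le_mul hF₁ hF₂
      _ = t ^ 2 := (sq t).symm
  have hLcard : L.card ≤ t ^ 2 * (L.image g).card :=
    Finset.card_le_mul_card_image L (t ^ 2) hfib
  have hmain := hM N (L.image g) (P.image (prj w)) (by
    intro l' hl'
    obtain ⟨l, hl, rfl⟩ := Finset.mem_image.mp hl'
    obtain ⟨q, u, hu, hpu, h, hg⟩ := himg l hl
    exact ⟨_, _, hpu, hg⟩) (by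
    intro r hr hrn S hS hdim T' hT' hT'S
    let T := L.filter (fun l => g l ∈ T')
    have hTT : T'.card ≤ T.card := by
      have h1 : T' ⊆ T.image g := by
        intro l' hl'
        obtain ⟨l, hl, rfl⟩ := Finset.mem_image.mp (hT' hl')
        exact Finset.mem_image_of_mem _ (Finset.mem_filter.mpr ⟨hl, hl'⟩)
      exact (Finset.card_le_card h1).trans Finset.card_image_le
    refine hTT.trans (hH r hr hrn (insert Q (pull w '' S)) ?_ ((dimZ_pull_le w Q hw S).trans hdim) T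
      (Finset.filter_subset _ _) ?_)
    · intro p hp
      rcases hp with rfl | ⟨p', hp', rfl⟩
      · exact hQt.trans (le_max_right _ _)
      · exact ((totalDegree_pull_le w p').trans (hS p' hp')).trans (le_max_left _ _)
    · intro l hl x hx p hp
      rw [Finset.mem_filter] at hl
      rcases hp with rfl | ⟨p', hp', rfl⟩
      · exact hLQ l hl.1 x hx
      · rw [eval_pull]
        exact hT'S _ hl.2 ⟨x, hx, rfl⟩ p' hp') (by
    intro l' hl'
    obtain ⟨l, hl, rfl⟩ := Finset.mem_image.mp hl'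
    obtain ⟨T, hTP, hTl, hTN⟩ := hR l hl
    refine ⟨T.image (prj w), Finset.image_subset_image hTP, ?_, ?_⟩
    · intro y hy
      obtain ⟨x, hx, rfl⟩ := Finset.mem_image.mp hy
      exact ⟨x, hTl x hx, rfl⟩
    · rw [Finset.card_image_of_injOn]
      · exact hTN
      · intro x hx y hy hxy
        exact hinj l hl x (hTl x hx) y (hTl y hy) hxy)
  have hPcard : ((P.image (prj w)).card : ℝ) ≤ P.card := by
    exact_mod_cast Finset.card_image_le
  have hLcard' : (L.card : ℝ) ≤ (t : ℝ) ^ 2 * (L.image g).card := by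
    exact_mod_cast hLcard
  have hN : (0 : ℝ) ≤ N := Nat.cast_nonneg N
  calc c * L.card * N ≤ c * ((t : ℝ) ^ 2 * (L.image g).card) * N := by gcongr
    _ = (t : ℝ) ^ 2 * (c * (L.image g).card * N) := by ring
    _ ≤ (t : ℝ) ^ 2 * P.card := by
      gcongr
      exact hmain.trans hPcard

end Pool.DKak
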