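import Pool.Agent.DKak.Fld

set_option autoImplicit false
set_option linter.unusedSectionVars false

/-!
# Theorem C: labels for an ultrafilter of lines
-/

namespace Pool.DKak

open MvPolynomial Filter

variable {σ : Type*} [Fintype σ]

/-- Restriction of a polynomial to a parametrised line. -/
noncomputable def restr (q u : σ → ℝ) : MvPolynomial σ ℝ →+* Polynomial ℝ :=
  (aeval (fun k => Polynomial.C (q k) + Polynomial.C (u k) * Polynomial.X) :
    MvPolynomial σ ℝ →ₐ[ℝ] Polynomial ℝ).toRingHom

@[simp] theorem restr_X (q u : σ → ℝ) (k : σ) :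
    restr q u (X k) = Polynomial.C (q k) + Polynomial.C (u k) * Polynomial.X := by
  simp [restr]

@[simp] theorem restr_C (q u : σ → ℝ) (c : ℝ) : restr q u (C c) = Polynomial.C c := by
  simp [restr]

theorem eval_restr (q u : σ → ℝ) (f : MvPolynomial σ ℝ) (s : ℝ) :
    (restr q u f).eval s = eval (fun k => q k + u k * s) f := by
  induction f using MvPolynomial.induction_on with
  | C a => simp
  | add p q hp hq => simp [hp, hq]
  | mul_X p k hp => simp [hp]

theorem derivative_restr (q u : σ → ℝ) (f : MvPolynomial σ ℝ) :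
    Polynomial.derivative (restr q u f) =
      ∑ k, Polynomial.C (u k) * restr q u (pderiv k f) := by
  classical
  induction f using MvPolynomial.induction_on with
  | C a => simp
  | add p q hp hq => simp [hp, hq, mul_add, Finset.sum_add_distrib]
  | mul_X p k hp =>
    rw [map_mul, Polynomial.derivative_mul, hp, restr_X]
    simp only [Polynomial.derivative_add, Polynomial.derivative_C, Polynomial.derivative_mul,
      Polynomial.derivative_X, zero_mul, zero_add, mul_one, Derivation.leibniz, smul_eq_mul,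
      map_add, map_mul, restr_X, mul_add, Finset.sum_add_distrib]
    have h1 : ∑ x, Polynomial.C (u x) * (restr q u p * restr q u (pderiv x (X k))) =
        restr q u p * Polynomial.C (u k) := by
      rw [Finset.sum_eq_single k]
      · rw [pderiv_X_self, map_one, mul_one, mul_comm]
      · intro b _ hb
        rw [pderiv_X_of_ne (Ne.symm hb), map_zero, mul_zero, mul_zero]
      · intro h; exact absurd (Finset.mem_univ k) h
    rw [h1, Finset.sum_mul, Finset.sum_mul, ← Finset.sum_add_distrib, add_comm]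
    congr 1
    refine Finset.sum_congr rfl fun i _ => ?_
    ring

theorem totalDegree_pderiv_le (k : σ) (f : MvPolynomial σ ℝ) :
    (pderiv k f).totalDegree ≤ f.totalDegree := by
  classical
  conv_lhs => rw [f.as_sum, map_sum]
  refine totalDegree_finsetSum_le fun s hs => ?_
  rw [pderiv_monomial]
  refine (totalDegree_monomial_le _ _).trans ?_
  refine le_trans ?_ (le_totalDegree hs)
  have h1 : (s - Finsupp.single k 1).sum (fun _ => id) = (s - Finsupp.single k 1).degree := rfl
  have h2 : s.sum (fun _ e => e) = s.degree := rfl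
  rw [h1, h2]
  have h3 : s = (s - Finsupp.single k 1) + (s - (s - Finsupp.single k 1)) := by
    ext i
    simp only [Finsupp.add_apply, Finsupp.tsub_apply]
    omega
  conv_rhs => rw [h3, map_add]
  omega

theorem pderiv_comm' (k l : σ) (f : MvPolynomial σ ℝ) :
    pderiv k (pderiv l f) = pderiv l (pderiv k f) := by
  classical
  have h : ⁅(pderiv k : Derivation ℝ (MvPolynomial σ ℝ) (MvPolynomial σ ℝ)),
      (pderiv l : Derivation ℝ (MvPolynomial σ ℝ) (MvPolynomial σ ℝ))⁆ = 0 := by
    apply derivation_ext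
    intro i
    rw [Derivation.commutator_apply, pderiv_X, pderiv_X]
    simp only [Pi.single_apply]
    split_ifs <;> simp
  have h2 := congrArg (fun D : Derivation ℝ (MvPolynomial σ ℝ) (MvPolynomial σ ℝ) => D f) h
  simp only [Derivation.commutator_apply, Derivation.coe_zero, Pi.zero_apply, sub_eq_zero] at h2
  exact h2

/-- Sequences of polynomials whose degrees are `O(δ)`. -/
def seqRing (σ : Type*) [Fintype σ] (δ : ℕ → ℕ) : Subring (ℕ → MvPolynomial σ ℝ) where
  carrier := {f | ∃ C : ℕ, ∀ i, (f i).totalDegree ≤ C * δ i}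
  mul_mem' := by
    rintro f g ⟨C, hC⟩ ⟨D, hD⟩
    refine ⟨C + D, fun i => (totalDegree_mul _ _).trans ?_⟩
    rw [add_mul]
    exact add_le_add (hC i) (hD i)
  one_mem' := ⟨0, fun i => by simp⟩
  add_mem' := by
    rintro f g ⟨C, hC⟩ ⟨D, hD⟩
    refine ⟨C + D, fun i => (totalDegree_add _ _).trans ?_⟩
    rw [add_mul]
    exact max_le ((hC i).trans (Nat.le_add_right _ _)) ((hD i).trans (Nat.le_add_left _ _))
  zero_mem' := ⟨0, fun i => by simp⟩
  neg_mem' := by
    rintro f ⟨C, hC⟩
    refine ⟨C, fun i => ?_⟩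
    rw [Pi.neg_apply, totalDegree_neg]
    exact hC i

/-- Partial derivatives of sequences. -/
noncomputable def seqD (δ : ℕ → ℕ) (k : σ) : Derivation ℤ (seqRing σ δ) (seqRing σ δ) :=
  Derivation.mk'
    { toFun := fun f => ⟨fun i => pderiv k (f.1 i), by
        obtain ⟨C, hC⟩ := f.2
        exact ⟨C, fun i => (totalDegree_pderiv_le k _).trans (hC i)⟩⟩
      map_add' := fun f g => Subtype.ext (funext fun i => by
        change pderiv k (f.1 i + g.1 i) = pderiv k (f.1 i) + pderiv k (g.1 i)
        rw [map_add])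
      map_smul' := fun n f => Subtype.ext (funext fun i => by
        change pderiv k (n • f.1 i) = n • pderiv k (f.1 i)
        rw [map_zsmul]) }
    (fun f g => Subtype.ext (funext fun i => by
      change pderiv k (f.1 i * g.1 i) = f.1 i * pderiv k (g.1 i) + g.1 i * pderiv k (f.1 i)
      rw [Derivation.leibniz]
      rfl))

theorem seqD_apply (δ : ℕ → ℕ) (k : σ) (f : seqRing σ δ) (i : ℕ) :
    (seqD δ k f).1 i = pderiv k (f.1 i) := rfl

/-- **Theorem C.** -/
theorem thmC {Λ : Type*} (𝒱 : Ultrafilter Λ) (idx : Λ → ℕ) (q u : Λ → σ → ℝ) (δ : ℕ → ℕ)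
    (hδ : ∀ i, 1 ≤ δ i) (g : ℕ → MvPolynomial σ ℝ) (C₀ : ℕ)
    (hg : ∀ i, (g i).totalDegree ≤ C₀ * δ i)
    (hgz : ∀ l, restr (q l) (u l) (g (idx l)) = 0)
    (hgd : ∀ l, ∃ k, restr (q l) (u l) (pderiv k (g (idx l))) ≠ 0) :
    ∃ (S : Finset (σ →₀ ℕ)) (a : (σ →₀ ℕ) → ℕ → MvPolynomial σ ℝ) (C : ℕ) (s₀ : σ →₀ ℕ),
      s₀ ∈ S ∧ (∀ s i, (a s i).totalDegree ≤ C * δ i) ∧
      ∀ᶠ l in (𝒱 : Filter Λ), restr (q l) (u l) (a s₀ (idx l)) ≠ 0 ∧
        (∀ s ∈ S, restr (q l) (u l) (a s₀ (idx l)) *
            Polynomial.derivative (restr (q l) (u l) (a s (idx l))) =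
          restr (q l) (u l) (a s (idx l)) *
            Polynomial.derivative (restr (q l) (u l) (a s₀ (idx l)))) ∧
        ∑ s ∈ S, restr (q l) (u l) (a s (idx l)) *
          s.prod (fun k e => (Polynomial.C (q l k) + Polynomial.C (u l k) * Polynomial.X) ^ e) = 0 := by
  classical
  -- the ultraproduct
  let N : Ideal (Λ → Polynomial ℝ) :=
    { carrier := {h | ∀ᶠ l in (𝒱 : Filter Λ), h l = 0}
      add_mem' := fun {h h'} hh hh' => by
        filter_upwards [hh, hh'] with l h1 h2
        rw [Pi.add_apply, h1, h2, add_zero]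
      zero_mem' := Eventually.of_forall fun l => rfl
      smul_mem' := fun c h hh => by
        filter_upwards [hh] with l h1
        change c l * h l = 0
        rw [h1, mul_zero] }
  have hN : ∀ h, h ∈ N ↔ ∀ᶠ l in (𝒱 : Filter Λ), h l = 0 := fun h => Iff.rfl
  have hNp : N.IsPrime := by
    refine ⟨?_, ?_⟩
    · intro htop
      have h1 : (1 : Λ → Polynomial ℝ) ∈ N := by rw [htop]; trivial
      rw [hN] at h1
      obtain ⟨l, hl⟩ := h1.exists
      exact one_ne_zero hl
    · intro h h' hh
      rw [hN] at hh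
      rw [hN, hN, ← Ultrafilter.eventually_or]
      filter_upwards [hh] with l hl
      exact mul_eq_zero.mp hl
  let B := (Λ → Polynomial ℝ) ⧸ N
  let F₀ := FractionRing B
  let Ω := AlgebraicClosure F₀
  let ιP : (Λ → Polynomial ℝ) →+* Ω :=
    ((algebraMap F₀ Ω).comp (algebraMap B F₀)).comp (Ideal.Quotient.mk N)
  have hιP : ∀ h, ιP h = 0 ↔ ∀ᶠ l in (𝒱 : Filter Λ), h l = 0 := by
    intro h
    rw [← hN, ← Ideal.Quotient.eq_zero_iff_mem]
    change algebraMap F₀ Ω (algebraMap B F₀ (Ideal.Quotient.mk N h)) = 0 ↔ _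
    rw [map_eq_zero, map_eq_zero_iff _ (IsFractionRing.injective B F₀)]
  have hchar : CharZero Ω := by
    refine charZero_of_inj_zero fun n hn => ?_
    by_contra hne
    have h1 : ιP (n : Λ → Polynomial ℝ) = 0 := by rw [map_natCast]; exact hn
    rw [hιP] at h1
    obtain ⟨l, hl⟩ := h1.exists
    rw [Pi.natCast_apply] at hl
    exact hne (by exact_mod_cast hl)
  have hac : IsAlgClosed Ω := AlgebraicClosure.isAlgClosed F₀
  -- the derivation X
  obtain ⟨XD, hXP⟩ := exists_ext ιP (fun h => ιP (fun l => Polynomial.derivative (h l)))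
    (fun a b => by
      rw [← map_add]
      congr 1
      funext l
      simp)
    (fun a b => by
      rw [← map_mul, ← map_mul, ← map_add]
      congr 1
      funext l
      simp only [Pi.mul_apply, Pi.add_apply, Polynomial.derivative_mul]
      ring)
    (fun a ha => by
      rw [hιP] at ha ⊢
      filter_upwards [ha] with l hl
      rw [hl, Polynomial.derivative_zero])
  -- the ring of sequences
  let ρ : seqRing σ δ →+* (Λ → Polynomial ℝ) :=
    { toFun := fun f l => restr (q l) (u l) (f.1 (idx l))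
      map_one' := by
        funext l
        change restr (q l) (u l) 1 = 1
        rw [map_one]
      map_mul' := fun f g => by
        funext l
        change restr (q l) (u l) (f.1 (idx l) * g.1 (idx l)) = _
        rw [map_mul]
        rfl
      map_zero' := by
        funext l
        change restr (q l) (u l) 0 = 0
        rw [map_zero]
      map_add' := fun f g => by
        funext l
        change restr (q l) (u l) (f.1 (idx l) + g.1 (idx l)) = _
        rw [map_add]
        rfl }
  have hρ : ∀ f l, ρ f l = restr (q l) (u l) (f.1 (idx l)) := fun f l => rfl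
  let φ : seqRing σ δ →+* Ω := ιP.comp ρ
  have hφ : ∀ f, φ f = ιP (ρ f) := fun f => rfl
  let x : σ → seqRing σ δ := fun k => ⟨fun _ => X k, 1, fun i => by
    rw [totalDegree_X, one_mul]
    exact hδ i⟩
  let v : σ → Ω := fun k => ιP (fun l => Polynomial.C (u l k))
  let f : seqRing σ δ := ⟨g, C₀, hg⟩
  have hf : φ f = 0 := by
    rw [hφ, hιP]
    exact Eventually.of_forall hgz
  obtain ⟨k₀, hk₀⟩ : ∃ k₀, φ (seqD δ k₀ f) ≠ 0 := by
    by_contra hcon
    push Not at hcon
    have h1 : ∀ᶠ l in (𝒱 : Filter Λ), ∀ k, restr (q l) (u l) (pderiv k (g (idx l))) = 0 := by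
      rw [Filter.eventually_all]
      intro k
      have := hcon k
      rw [hφ, hιP] at this
      exact this
    obtain ⟨l, hl⟩ := h1.exists
    obtain ⟨k, hk⟩ := hgd l
    exact hk (hl k)
  obtain ⟨Q, ⟨s₀, hs₀⟩, hQ0, hQX⟩ := thmB φ (seqD δ)
    (fun k l a => Subtype.ext (funext fun i => pderiv_comm' k l (a.1 i))) x XD v
    (fun k => by
      rw [hφ, hXP]
      congr 1
      funext l
      rw [hρ]
      change Polynomial.derivative (restr (q l) (u l) (X k)) = _
      rw [restr_X]
      simp)
    (fun k => by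
      change XD (ιP _) = 0
      rw [hXP, hιP]
      exact Eventually.of_forall fun l => Polynomial.derivative_C)
    (fun a => by
      rw [hφ, hXP]
      have h1 : (fun l => Polynomial.derivative (ρ a l)) =
          ∑ k, (fun l => Polynomial.C (u l k)) * ρ (seqD δ k a) := by
        funext l
        rw [Finset.sum_apply, hρ, derivative_restr]
        rfl
      rw [h1, map_sum]
      refine Finset.sum_congr rfl fun k _ => ?_
      rw [map_mul]
      rfl)
    f hf k₀ hk₀
  have hs₀S : s₀ ∈ Q.support := by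
    rw [mem_support_iff]
    intro h
    apply hs₀
    rw [h, map_zero]
  have hdeg : ∀ s, ∃ C : ℕ, ∀ i, ((Q.coeff s).1 i).totalDegree ≤ C * δ i := fun s => (Q.coeff s).2
  choose Cs hCs using hdeg
  refine ⟨Q.support, fun s => (Q.coeff s).1, ∑ s ∈ Q.support, Cs s, s₀, hs₀S, ?_, ?_⟩
  · intro s i
    by_cases hs : s ∈ Q.support
    · exact (hCs s i).trans (Nat.mul_le_mul_right _ (Finset.single_le_sum (fun _ _ => Nat.zero_le _) hs))
    · change ((Q.coeff s).1 i).totalDegree ≤ _
      rw [notMem_support_iff.mp hs]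
      change (0 : MvPolynomial σ ℝ).totalDegree ≤ _
      rw [totalDegree_zero]
      exact Nat.zero_le _
  · have h1 : ∀ᶠ l in (𝒱 : Filter Λ), restr (q l) (u l) ((Q.coeff s₀).1 (idx l)) ≠ 0 := by
      rw [Ultrafilter.eventually_not]
      rw [hφ, Ne, hιP] at hs₀
      exact hs₀
    have h2 : ∀ᶠ l in (𝒱 : Filter Λ), ∀ s ∈ Q.support,
        restr (q l) (u l) ((Q.coeff s₀).1 (idx l)) *
            Polynomial.derivative (restr (q l) (u l) ((Q.coeff s).1 (idx l))) =
          restr (q l) (u l) ((Q.coeff s).1 (idx l)) *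
            Polynomial.derivative (restr (q l) (u l) ((Q.coeff s₀).1 (idx l))) := by
      rw [Filter.eventually_all_finset]
      intro s _
      have h3 := hQX s₀ s
      rw [hφ, hφ, hXP, hXP, ← map_mul, ← map_mul, ← sub_eq_zero, ← map_sub, hιP] at h3
      filter_upwards [h3] with l hl
      rw [Pi.sub_apply, sub_eq_zero] at hl
      exact hl
    have h3 : ∀ᶠ l in (𝒱 : Filter Λ), ∑ s ∈ Q.support, restr (q l) (u l) ((Q.coeff s).1 (idx l)) *
          s.prod (fun k e => (Polynomial.C (q l k) + Polynomial.C (u l k) * Polynomial.X) ^ e) = 0 := by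
      rw [eval₂_eq] at hQ0
      have h4 : ∑ d ∈ Q.support, φ (Q.coeff d) * ∏ i ∈ d.support, φ (x i) ^ d i =
          ιP (∑ s ∈ Q.support, ρ (Q.coeff s) * ∏ i ∈ s.support, ρ (x i) ^ s i) := by
        rw [map_sum]
        refine Finset.sum_congr rfl fun s _ => ?_
        rw [map_mul, map_prod]
        simp only [map_pow]
        rfl
      rw [h4, hιP] at hQ0
      filter_upwards [hQ0] with l hl
      rw [← hl, Finset.sum_apply]
      refine Finset.sum_congr rfl fun s _ => ?_
      rw [Pi.mul_apply, hρ, Finset.prod_apply]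
      congr 1
      refine Finset.prod_congr rfl fun k _ => ?_
      rw [Pi.pow_apply, hρ]
      change _ = (restr (q l) (u l) (X k)) ^ s k
      rw [restr_X]
    filter_upwards [h1, h2, h3] with l a b c
    exact ⟨a, b, c⟩

end Pool.DKak
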